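import Pool.Agent.Helper2.Ann.LimS

/-!
The quantisation theorem for all levels at once (compactness): for large `N` every level of size
at most `K` (and at least `c`) is close to `2 π (m + 1/3)` (braid value `-2`) or `2 π m` (braid value `1`).
-/

set_option autoImplicit false

namespace A4

open Filter Topology Polynomial Set

theorem one_sub_exp_near {x : ℝ} (hx : |x| ≤ 1) : |(1 - Real.exp (-x)) - x| ≤ x ^ 2 := by
  have h := Real.abs_exp_sub_one_sub_id_le (x := -x) (by rwa [abs_neg])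
  rw [neg_sq] at h
  rw [← abs_neg]
  have e : -((1 - Real.exp (-x)) - x) = Real.exp (-x) - 1 - -x := by ring
  rwa [e]

/-- `N (1 - e^{-t_N / N}) → t` when `t_N → t` -/
theorem tendsto_level {l : Filter ℕ} {t : ℕ → ℝ} {t0 : ℝ} (hl : l ≤ atTop) (ht : Tendsto t l (𝓝 t0)) :
    Tendsto (fun N : ℕ => (N : ℝ) * (1 - Real.exp (-(t N / N)))) l (𝓝 t0) := by
  have hN : Tendsto (fun N : ℕ => ((N : ℝ))⁻¹) l (𝓝 0) :=
    (tendsto_inv_atTop_zero.comp tendsto_natCast_atTop_atTop).mono_left hl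
  have h1 : Tendsto (fun N : ℕ => t N * (N : ℝ)⁻¹) l (𝓝 0) := by
    simpa using ht.mul hN
  have h2 : ∀ᶠ N in l, |t N * (N : ℝ)⁻¹| ≤ 1 := by
    have := (Metric.tendsto_nhds.1 h1) 1 one_pos
    filter_upwards [this] with N hN'
    rw [Real.dist_eq, sub_zero] at hN'
    exact hN'.le
  have h3 : Tendsto (fun N : ℕ => t N * (t N * (N : ℝ)⁻¹)) l (𝓝 0) := by
    simpa using ht.mul h1
  have h4 : Tendsto (fun N : ℕ => (N : ℝ) * (1 - Real.exp (-(t N / N))) - t N) l (𝓝 0) := by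
    refine squeeze_zero_norm' ?_ h3
    filter_upwards [h2, hl (eventually_ge_atTop 1)] with N h5 h6
    have hN0 : (0 : ℝ) < N := by exact_mod_cast h6
    rw [← div_eq_mul_inv] at h5
    have h7 := one_sub_exp_near h5
    have e : (N : ℝ) * (1 - Real.exp (-(t N / N))) - t N = N * ((1 - Real.exp (-(t N / N))) - t N / N) := by
      field_simp
    rw [Real.norm_eq_abs, e, abs_mul, abs_of_pos hN0]
    calc (N : ℝ) * |1 - Real.exp (-(t N / N)) - t N / N| ≤ N * (t N / N) ^ 2 := by gcongr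
      _ = t N * (t N * (N : ℝ)⁻¹) := by field_simp
  simpa using h4.add ht

theorem Dx_of_braid {d : ℂ[X]} {v : ℂ} (h : ∀ p : ℂ, p ^ 2 - p + 1 = 0 → d.eval p = v) : Dx d 0 = v := by
  rw [Dx_zero]
  exact h _ braid_pt

/-- general form: `V` is the braid value, `Q` the set of allowed limits -/
theorem spec_aux (V : ℂ) (Q : ℕ → ℝ)
    (hQ : ∀ (l : Filter ℕ) [l.NeBot] (d : ℕ → ℝ[X]) (ε : ℝ), l ≤ atTop →
      (∀ᶠ N in l, DR.Sol N ((d N).map (algebraMap ℝ ℂ))) →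
      Tendsto (fun N : ℕ => (N : ℝ) * (1 - (d N).eval (1 / 2))) l (𝓝 ε) → 0 < ε →
      (∀ᶠ N in l, Dx ((d N).map (algebraMap ℝ ℂ)) 0 = V) → ∃ m : ℕ, ε = Q m)
    {K c δ : ℝ} (hc : 0 < c) (hδ : 0 < δ) :
    ∀ᶠ N : ℕ in atTop, ∀ d : ℝ[X], DR.Sol N (d.map (algebraMap ℝ ℂ)) →
      Dx (d.map (algebraMap ℝ ℂ)) 0 = V →
      Real.exp (-(K / N)) ≤ d.eval (1 / 2) → d.eval (1 / 2) ≤ Real.exp (-(c / N)) →
      ∃ m : ℕ, |-(N * Real.log (d.eval (1 / 2))) - Q m| < δ := by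
  by_contra hcon
  rw [not_eventually] at hcon
  have hcon' : ∃ᶠ N : ℕ in atTop, N ∈ {N : ℕ | ∃ d : ℝ[X], DR.Sol N (d.map (algebraMap ℝ ℂ)) ∧
      Dx (d.map (algebraMap ℝ ℂ)) 0 = V ∧
      Real.exp (-(K / N)) ≤ d.eval (1 / 2) ∧ d.eval (1 / 2) ≤ Real.exp (-(c / N)) ∧
      ∀ m : ℕ, δ ≤ |-(N * Real.log (d.eval (1 / 2))) - Q m|} := by
    refine hcon.mono fun N hN => ?_
    push Not at hN
    obtain ⟨d, h1, h2, h3, h4, h5⟩ := hN
    exact ⟨d, h1, h2, h3, h4, h5⟩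
  set s := {N : ℕ | ∃ d : ℝ[X], DR.Sol N (d.map (algebraMap ℝ ℂ)) ∧
      Dx (d.map (algebraMap ℝ ℂ)) 0 = V ∧
      Real.exp (-(K / N)) ≤ d.eval (1 / 2) ∧ d.eval (1 / 2) ≤ Real.exp (-(c / N)) ∧
      ∀ m : ℕ, δ ≤ |-(N * Real.log (d.eval (1 / 2))) - Q m|} with hs
  have hne : NeBot (atTop ⊓ 𝓟 s) := frequently_mem_iff_neBot.1 hcon'
  have hch : ∀ N : ℕ, ∃ d : ℝ[X], N ∈ s → (DR.Sol N (d.map (algebraMap ℝ ℂ)) ∧
      Dx (d.map (algebraMap ℝ ℂ)) 0 = V ∧
      Real.exp (-(K / N)) ≤ d.eval (1 / 2) ∧ d.eval (1 / 2) ≤ Real.exp (-(c / N)) ∧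
      ∀ m : ℕ, δ ≤ |-(N * Real.log (d.eval (1 / 2))) - Q m|) := by
    intro N
    by_cases h : N ∈ s
    · obtain ⟨d, hd⟩ := h
      exact ⟨d, fun _ => hd⟩
    · exact ⟨0, fun h' => absurd h' h⟩
  choose d hd using hch
  let U : Ultrafilter ℕ := Ultrafilter.of (atTop ⊓ 𝓟 s)
  have hU : (U : Filter ℕ) ≤ atTop ⊓ 𝓟 s := Ultrafilter.of_le _
  have hU1 : (U : Filter ℕ) ≤ atTop := hU.trans inf_le_left
  have hUs : ∀ᶠ N in (U : Filter ℕ), N ∈ s := hU.trans inf_le_right (mem_principal_self s)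
  set t : ℕ → ℝ := fun N => -(N * Real.log ((d N).eval (1 / 2))) with ht
  have htI : ∀ᶠ N in (U : Filter ℕ), t N ∈ Icc c K := by
    filter_upwards [hUs, hU1 (eventually_ge_atTop 1)] with N h1 h2
    obtain ⟨-, -, h5, h6, -⟩ := hd N h1
    have hN0 : (0 : ℝ) < N := by exact_mod_cast h2
    have hpos : 0 < (d N).eval (1 / 2) := (Real.exp_pos _).trans_le h5
    rw [← Real.le_log_iff_exp_le hpos] at h5
    rw [← Real.log_le_iff_le_exp hpos] at h6
    constructor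
    · have := mul_le_mul_of_nonneg_left h6 hN0.le
      have e : (N : ℝ) * (-(c / N)) = -c := by field_simp
      rw [e] at this
      simp only [ht]
      linarith
    · have := mul_le_mul_of_nonneg_left h5 hN0.le
      have e : (N : ℝ) * (-(K / N)) = -K := by field_simp
      rw [e] at this
      simp only [ht]
      linarith
  obtain ⟨t0, ht0, hlim⟩ := (isCompact_Icc (a := c) (b := K)).ultrafilter_le_nhds (U.map t)
    (le_principal_iff.2 htI)
  have hlim' : Tendsto t (U : Filter ℕ) (𝓝 t0) := hlim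
  have hε : Tendsto (fun N : ℕ => (N : ℝ) * (1 - (d N).eval (1 / 2))) (U : Filter ℕ) (𝓝 t0) := by
    refine (tendsto_level hU1 hlim').congr' ?_
    filter_upwards [hUs, hU1 (eventually_ge_atTop 1)] with N h1 h2
    obtain ⟨-, -, h5, -, -⟩ := hd N h1
    have hN0 : (0 : ℝ) < N := by exact_mod_cast h2
    have hpos : 0 < (d N).eval (1 / 2) := (Real.exp_pos _).trans_le h5
    have e : -(t N / N) = Real.log ((d N).eval (1 / 2)) := by
      simp only [ht]; field_simp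
    rw [e, Real.exp_log hpos]
  obtain ⟨m, hm⟩ := hQ (U : Filter ℕ) d t0 hU1 (hUs.mono fun N h => (hd N h).1) hε
    (hc.trans_le ht0.1) (hUs.mono fun N h => (hd N h).2.1)
  have hfin := (Metric.tendsto_nhds.1 hlim') δ hδ
  obtain ⟨N, h1, h2⟩ := (hUs.and hfin).exists
  have h3 := (hd N h1).2.2.2.2 m
  rw [Real.dist_eq, hm] at h2
  exact absurd h2 (not_lt.2 h3)

/-- **the levels of the rectangle** (braid value `-2`) -/
theorem spec_quant_A {K c δ : ℝ} (hc : 0 < c) (hδ : 0 < δ) :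
    ∀ᶠ N : ℕ in atTop, ∀ d : ℝ[X], DR.Sol N (d.map (algebraMap ℝ ℂ)) →
      (∀ p : ℂ, p ^ 2 - p + 1 = 0 → (d.map (algebraMap ℝ ℂ)).eval p = -2) →
      Real.exp (-(K / N)) ≤ d.eval (1 / 2) → d.eval (1 / 2) ≤ Real.exp (-(c / N)) →
      ∃ m : ℕ, |-(N * Real.log (d.eval (1 / 2))) - 2 * Real.pi * (1 / 3 + m)| < δ := by
  have h := spec_aux (-2) (fun m => 2 * Real.pi * (1 / 3 + m)) ?_ (K := K) hc hδ
  · filter_upwards [h] with N hN d h1 h2 h3 h4
    exact hN d h1 (Dx_of_braid h2) h3 h4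
  · intro l _ d ε hl h1 h2 h3 h4
    obtain ⟨m, hm⟩ := Ann.quant_A h1 (tendsto_id.mono_left hl) h2 h3.ne' h4
    have hp := Real.pi_pos
    have h5 : 0 < (m : ℝ) + 1 / 3 := by
      by_contra hc
      push Not at hc
      have : 2 * Real.pi * ((m : ℝ) + 1 / 3) ≤ 0 := mul_nonpos_of_nonneg_of_nonpos (by positivity) hc
      linarith
    have h6 : 0 ≤ m := by
      by_contra hc
      push Not at hc
      have : (m : ℝ) ≤ -1 := by exact_mod_cast (by omega : m ≤ -1)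
      linarith
    obtain ⟨m', rfl⟩ := Int.eq_ofNat_of_zero_le h6
    refine ⟨m', ?_⟩
    rw [hm]
    push_cast
    ring

/-- **the levels of the annulus** (braid value `1`) -/
theorem spec_quant_B {K c δ : ℝ} (hc : 0 < c) (hδ : 0 < δ) :
    ∀ᶠ N : ℕ in atTop, ∀ d : ℝ[X], DR.Sol N (d.map (algebraMap ℝ ℂ)) →
      (∀ p : ℂ, p ^ 2 - p + 1 = 0 → (d.map (algebraMap ℝ ℂ)).eval p = 1) →
      Real.exp (-(K / N)) ≤ d.eval (1 / 2) → d.eval (1 / 2) ≤ Real.exp (-(c / N)) →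
      ∃ m : ℕ, |-(N * Real.log (d.eval (1 / 2))) - 2 * Real.pi * (1 + m)| < δ := by
  have h := spec_aux 1 (fun m => 2 * Real.pi * (1 + m)) ?_ (K := K) hc hδ
  · filter_upwards [h] with N hN d h1 h2 h3 h4
    exact hN d h1 (Dx_of_braid h2) h3 h4
  · intro l _ d ε hl h1 h2 h3 h4
    obtain ⟨m, hm⟩ := Ann.quant_B h1 (tendsto_id.mono_left hl) h2 h3.ne' h4
    have hp := Real.pi_pos
    have h5 : 0 < (m : ℝ) := by
      by_contra hc
      push Not at hc
      have : 2 * Real.pi * (m : ℝ) ≤ 0 := mul_nonpos_of_nonneg_of_nonpos (by positivity) hc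
      linarith
    have h6 : 0 ≤ m - 1 := by
      have : (0 : ℤ) < m := by exact_mod_cast h5
      omega
    obtain ⟨m', hm'⟩ := Int.eq_ofNat_of_zero_le h6
    refine ⟨m', ?_⟩
    have : (m : ℝ) = m' + 1 := by
      have : m = m' + 1 := by omega
      exact_mod_cast this
    rw [hm, this]
    ring

/-- **the levels of `W_l`** (braid value `-2` for `l % 3 = 2`, else `1`): `2 π (h_l + m)` with `h_l = 1/3`,
else `0` -/
theorem spec_quant_l {K c δ : ℝ} (hc : 0 < c) (hδ : 0 < δ) :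
    ∀ᶠ N : ℕ in atTop, ∀ (l : ℕ) (d : ℝ[X]), DR.Sol N (d.map (algebraMap ℝ ℂ)) →
      (∀ p : ℂ, p ^ 2 - p + 1 = 0 → (d.map (algebraMap ℝ ℂ)).eval p = if l % 3 = 2 then -2 else 1) →
      Real.exp (-(K / N)) ≤ d.eval (1 / 2) → d.eval (1 / 2) ≤ Real.exp (-(c / N)) →
      ∃ m : ℕ, |-(N * Real.log (d.eval (1 / 2))) -
        2 * Real.pi * ((if l % 3 = 2 then 1 / 3 else 0) + m)| < δ := by
  filter_upwards [spec_quant_A (K := K) hc hδ, spec_quant_B (K := K) hc hδ] with N hA hB l d h1 h2 h3 h4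
  by_cases hl : l % 3 = 2
  · simp only [hl, if_true] at h2 ⊢
    exact hA d h1 h2 h3 h4
  · simp only [hl, if_false] at h2 ⊢
    obtain ⟨m, hm⟩ := hB d h1 h2 h3 h4
    refine ⟨m + 1, ?_⟩
    have e : (0 : ℝ) + ((m + 1 : ℕ) : ℝ) = 1 + m := by push_cast; ring
    rw [e]
    exact hm

/-- the level is a good level of one of the two types, for solutions with any braid value -/
theorem spec_quant {K c δ : ℝ} (hc : 0 < c) (hδ : 0 < δ) :
    ∀ᶠ N : ℕ in atTop, ∀ d : ℝ[X], DR.Sol N (d.map (algebraMap ℝ ℂ)) →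
      Real.exp (-(K / N)) ≤ d.eval (1 / 2) → d.eval (1 / 2) ≤ Real.exp (-(c / N)) →
      (Dx (d.map (algebraMap ℝ ℂ)) 0 = -2 ∧
        ∃ m : ℕ, |-(N * Real.log (d.eval (1 / 2))) - 2 * Real.pi * (1 / 3 + m)| < δ) ∨
      (Dx (d.map (algebraMap ℝ ℂ)) 0 = 1 ∧
        ∃ m : ℕ, |-(N * Real.log (d.eval (1 / 2))) - 2 * Real.pi * (1 + m)| < δ) := by
  have hroots : ∀ {N : ℕ} {d : ℝ[X]}, DR.Sol N (d.map (algebraMap ℝ ℂ)) → ∀ {v : ℝ},
      Dx (d.map (algebraMap ℝ ℂ)) 0 = v → ∀ p : ℂ, p ^ 2 - p + 1 = 0 →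
        (d.map (algebraMap ℝ ℂ)).eval p = v := by
    intro N d _ v hv p hp
    rw [Dx_zero] at hv
    -- the two roots are conjugate
    have hconj : ∀ z : ℂ, (d.map (algebraMap ℝ ℂ)).eval ((starRingEnd ℂ) z) =
        (starRingEnd ℂ) ((d.map (algebraMap ℝ ℂ)).eval z) := by
      intro z
      rw [eval_map, eval_map, Polynomial.hom_eval₂]
      congr 1
      ext x
      simp
    set z : ℂ := 1 / 2 - Complex.I * ((Real.sqrt 3 / 2 : ℝ) : ℂ) with hz
    have h1 := braid_pt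
    rw [← hz] at h1
    have h2 : (p - z) * (p - (1 - z)) = 0 := by linear_combination hp - h1
    rcases mul_eq_zero.1 h2 with h3 | h3
    · rw [sub_eq_zero.1 h3]; exact hv
    · have e : (1 - z) = (starRingEnd ℂ) z := by
        rw [hz]
        simp only [map_sub, map_div₀, map_one, map_mul, Complex.conj_I, Complex.conj_ofReal,
          map_ofNat]
        ring
      rw [sub_eq_zero.1 h3, e, hconj, hv, Complex.conj_ofReal]
  filter_upwards [spec_quant_A (K := K) hc hδ, spec_quant_B (K := K) hc hδ] with N hA hB d h1 h2 h3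
  rcases Dx_zero_cases h1 with h4 | h4
  · right
    refine ⟨h4, hB d h1 ?_ h2 h3⟩
    have := hroots h1 (v := 1) (by rw [h4]; norm_num)
    simpa using this
  · left
    refine ⟨h4, hA d h1 ?_ h2 h3⟩
    have := hroots h1 (v := -2) (by rw [h4]; norm_num)
    simpa using this

end A4
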