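import Mathlib

/-!
The dilogarithm on `ℂ ∖ [1, ∞)` and its functional equations.
-/

open Complex Set MeasureTheory Metric Filter Topology intervalIntegral

namespace A4

/-- primitive on an open set star shaped at `0`. -/
theorem star_prim {U : Set ℂ} (hU : IsOpen U) (hs : StarConvex ℝ 0 U) {ψ : ℂ → ℂ}
    (hψ : DifferentiableOn ℂ ψ U) {z : ℂ} (hz : z ∈ U) :
    HasDerivAt (fun w : ℂ => ∫ t in (0:ℝ)..1, w * ψ (t * w)) (ψ z) z := by
  have hin : ∀ t : ℝ, t ∈ Icc (0:ℝ) 1 → ∀ w ∈ U, (t : ℂ) * w ∈ U := by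
    intro t ht w hw
    have := hs.smul_mem hw ht.1 ht.2
    simpa using this
  obtain ⟨ε, hε, hball⟩ := Metric.nhds_basis_closedBall.mem_iff.1 (hU.mem_nhds hz)
  have hdψ : ContinuousOn (deriv ψ) U := (hψ.deriv hU).continuousOn
  have hcψ : ContinuousOn ψ U := hψ.continuousOn
  have hmul : ContinuousOn (fun q : ℝ × ℂ => (q.1 : ℂ) * q.2) (Icc (0:ℝ) 1 ×ˢ closedBall z ε) := by
    apply Continuous.continuousOn; fun_prop
  have hmaps : MapsTo (fun q : ℝ × ℂ => (q.1 : ℂ) * q.2) (Icc (0:ℝ) 1 ×ˢ closedBall z ε) U := by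
    rintro ⟨t, w⟩ ⟨ht, hw⟩
    exact hin t ht w (hball hw)
  have hcF' : ContinuousOn (fun q : ℝ × ℂ => ψ (q.1 * q.2) + q.2 * (q.1 * deriv ψ (q.1 * q.2)))
      (Icc (0:ℝ) 1 ×ˢ closedBall z ε) := by
    refine (hcψ.comp hmul hmaps).add (ContinuousOn.mul (by fun_prop) (ContinuousOn.mul ?_ ?_))
    · apply Continuous.continuousOn; fun_prop
    · exact hdψ.comp hmul hmaps
  obtain ⟨C, hC⟩ := (isCompact_Icc.prod (isCompact_closedBall z ε)).exists_bound_of_continuousOn hcF'
  have hcurve : ∀ w ∈ closedBall z ε, ContinuousOn (fun t : ℝ => w * ψ (t * w)) (Icc (0:ℝ) 1) := by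
    intro w hw
    refine continuousOn_const.mul (hcψ.comp (by fun_prop) ?_)
    intro t ht
    exact hin t ht w (hball hw)
  have key := (intervalIntegral.hasDerivAt_integral_of_dominated_loc_of_deriv_le
    (μ := volume) (a := (0:ℝ)) (b := 1) (x₀ := z) (s := ball z ε)
    (F := fun w t => w * ψ (t * w)) (F' := fun w t => ψ (t * w) + w * (t * deriv ψ (t * w)))
    (bound := fun _ => C) (ball_mem_nhds z hε) ?_ ?_ ?_ ?_ ?_ ?_).2
  · have hval : (∫ t in (0:ℝ)..1, (ψ (t * z) + z * (t * deriv ψ (t * z)))) = ψ z := by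
      have hd : ∀ t ∈ Icc (0:ℝ) 1, HasDerivAt (fun t : ℝ => (t : ℂ) * ψ (t * z))
          (ψ (t * z) + z * (t * deriv ψ (t * z))) t := by
        intro t ht
        have h1 : HasDerivAt (fun t : ℝ => (t : ℂ)) 1 t := Complex.ofRealCLM.hasDerivAt
        have h2 : HasDerivAt (fun t : ℝ => (t : ℂ) * z) (1 * z) t := h1.mul_const z
        have h3 : HasDerivAt ψ (deriv ψ (t * z)) ((t:ℂ) * z) :=
          ((hψ _ (hin t ht z hz)).differentiableAt (hU.mem_nhds (hin t ht z hz))).hasDerivAt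
        have h4 : HasDerivAt (fun t : ℝ => ψ ((t : ℂ) * z)) (deriv ψ (t * z) * (1 * z)) t :=
          HasDerivAt.comp (𝕜 := ℝ) (𝕜' := ℂ) t h3 h2
        have h5 := h1.mul h4
        have h6 : (1:ℂ) * ψ (t * z) + t * (deriv ψ (t * z) * (1 * z)) =
            ψ (t * z) + z * (t * deriv ψ (t * z)) := by ring
        rw [← h6]
        exact h5
      have := integral_eq_sub_of_hasDerivAt (a := (0:ℝ)) (b := 1)
        (f := fun t : ℝ => (t : ℂ) * ψ (t * z))
        (f' := fun t : ℝ => (ψ (t * z) + z * (t * deriv ψ (t * z)))) ?_ ?_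
      · rw [this]; simp
      · intro t ht
        rw [uIcc_of_le zero_le_one] at ht
        exact hd t ht
      · apply ContinuousOn.intervalIntegrable
        rw [uIcc_of_le zero_le_one]
        have : ContinuousOn (fun t : ℝ => (t, z)) (Icc (0:ℝ) 1) := by fun_prop
        exact hcF'.comp this (fun t ht => ⟨ht, mem_closedBall_self hε.le⟩)
    rw [← hval]
    exact key
  · filter_upwards [closedBall_mem_nhds z hε] with w hw
    rw [uIoc_of_le zero_le_one]
    exact ((hcurve w hw).mono Ioc_subset_Icc_self).aestronglyMeasurable measurableSet_Ioc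
  · apply ContinuousOn.intervalIntegrable
    rw [uIcc_of_le zero_le_one]
    exact hcurve z (mem_closedBall_self hε.le)
  · rw [uIoc_of_le zero_le_one]
    have : ContinuousOn (fun t : ℝ => (t, z)) (Icc (0:ℝ) 1) := by fun_prop
    exact ((hcF'.comp this (fun t ht => ⟨ht, mem_closedBall_self hε.le⟩)).mono
      Ioc_subset_Icc_self).aestronglyMeasurable measurableSet_Ioc
  · refine Eventually.of_forall fun t ht w hw => ?_
    rw [uIoc_of_le zero_le_one] at ht
    exact hC (t, w) ⟨Ioc_subset_Icc_self ht, ball_subset_closedBall hw⟩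
  · exact intervalIntegrable_const
  · refine Eventually.of_forall fun t ht w hw => ?_
    rw [uIoc_of_le zero_le_one] at ht
    have hm := hin t (Ioc_subset_Icc_self ht) w (hball (ball_subset_closedBall hw))
    have h3 : HasDerivAt ψ (deriv ψ (t * w)) ((t:ℂ) * w) :=
      ((hψ _ hm).differentiableAt (hU.mem_nhds hm)).hasDerivAt
    have h2 : HasDerivAt (fun w : ℂ => (t : ℂ) * w) ((t:ℂ) * 1) w := (hasDerivAt_id w).const_mul _
    have h4 := (hasDerivAt_id w).mul (h3.comp w h2)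
    have h6 : (1:ℂ) * ψ (t * w) + w * (deriv ψ (t * w) * (t * 1)) =
        ψ (t * w) + w * (t * deriv ψ (t * w)) := by ring
    rw [← h6]
    exact h4

/-- the plane cut along `[1, ∞)`. -/
def U1 : Set ℂ := {z | 1 - z ∈ slitPlane}

theorem isOpen_U1 : IsOpen U1 := isOpen_slitPlane.preimage (by fun_prop)

theorem zero_mem_U1 : (0:ℂ) ∈ U1 := by
  show (1:ℂ) - 0 ∈ slitPlane
  rw [sub_zero]; exact one_mem_slitPlane

theorem starConvex_U1 : StarConvex ℝ 0 U1 := by
  intro z hz a b ha hb hab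
  have h := starConvex_one_slitPlane hz ha hb hab
  have e : (1:ℂ) - (a • (0:ℂ) + b • z) = a • (1:ℂ) + b • (1 - z) := by
    have hab' : (a:ℂ) + b = 1 := by exact_mod_cast hab
    simp only [real_smul, mul_zero, zero_add, mul_one, mul_sub]
    linear_combination -hab'
  show (1:ℂ) - (a • (0:ℂ) + b • z) ∈ slitPlane
  rw [e]; exact h

/-- `-log(1-z)/z`. -/
noncomputable def psi : ℂ → ℂ := dslope (fun w : ℂ => -Complex.log (1 - w)) 0

theorem psi_mul (z : ℂ) : z * psi z = -Complex.log (1 - z) := by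
  by_cases h : z = 0
  · simp [h]
  · rw [psi, dslope_of_ne _ h, slope_def_field]
    simp only [sub_zero, Complex.log_one, neg_zero]
    field_simp

theorem differentiableOn_log1 : DifferentiableOn ℂ (fun w : ℂ => -Complex.log (1 - w)) U1 := by
  intro z hz
  apply DifferentiableAt.differentiableWithinAt
  exact ((differentiableAt_id.const_sub 1).clog hz).neg

theorem differentiableOn_psi : DifferentiableOn ℂ psi U1 :=
  (Complex.differentiableOn_dslope (isOpen_U1.mem_nhds zero_mem_U1)).2 differentiableOn_log1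

/-- the dilogarithm. -/
noncomputable def Li2 (z : ℂ) : ℂ := ∫ t in (0:ℝ)..1, z * psi (t * z)

theorem hasDerivAt_Li2 {z : ℂ} (hz : z ∈ U1) : HasDerivAt Li2 (psi z) z :=
  star_prim isOpen_U1 starConvex_U1 differentiableOn_psi hz

theorem Li2_zero : Li2 0 = 0 := by simp [Li2]

theorem isPreconnected_U1 : IsPreconnected U1 :=
  (starConvex_U1.isPathConnected zero_mem_U1).isConnected.isPreconnected

/-- a function with zero derivative on `U1`-like sets is constant -/
theorem const_of_deriv {U : Set ℂ} (hU : IsOpen U) (hc : IsPreconnected U) {f : ℂ → ℂ}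
    (hf : ∀ z ∈ U, HasDerivAt f 0 z) {x y : ℂ} (hx : x ∈ U) (hy : y ∈ U) : f x = f y :=
  hU.is_const_of_deriv_eq_zero hc (fun z hz => (hf z hz).differentiableAt.differentiableWithinAt)
    (fun z hz => (hf z hz).deriv) hx hy

/-! ### Landen -/

theorem inv_slit {z : ℂ} (hz : z ∈ slitPlane) : z⁻¹ ∈ slitPlane := by
  have h0 := slitPlane_ne_zero hz
  have hn : 0 < normSq z := normSq_pos.2 h0
  rw [mem_slitPlane_iff] at hz ⊢
  rw [inv_re, inv_im]
  rcases hz with h | h
  · exact Or.inl (div_pos h hn)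
  · right
    exact div_ne_zero (neg_ne_zero.2 h) hn.ne'

theorem landen_mem {z : ℂ} (hz : z ∈ U1) : z / (z - 1) ∈ U1 := by
  have h0 : (1:ℂ) - z ≠ 0 := slitPlane_ne_zero hz
  have h1 : z - 1 ≠ 0 := fun h => h0 (by linear_combination -h)
  show (1:ℂ) - z / (z - 1) ∈ slitPlane
  have : (1:ℂ) - z / (z - 1) = (1 - z)⁻¹ := by field_simp; ring
  rw [this]
  exact inv_slit hz

theorem arg_ne_pi_of_slit {z : ℂ} (hz : z ∈ slitPlane) : z.arg ≠ Real.pi :=
  (mem_slitPlane_iff_arg.1 hz).1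

theorem landen_log {z : ℂ} (hz : z ∈ U1) :
    Complex.log (1 - z / (z - 1)) = -Complex.log (1 - z) := by
  have h0 : (1:ℂ) - z ≠ 0 := slitPlane_ne_zero hz
  have h1 : z - 1 ≠ 0 := fun h => h0 (by linear_combination -h)
  have : (1:ℂ) - z / (z - 1) = (1 - z)⁻¹ := by field_simp; ring
  rw [this, Complex.log_inv _ (arg_ne_pi_of_slit hz)]

theorem landen {z : ℂ} (hz : z ∈ U1) :
    Li2 z + Li2 (z / (z - 1)) = -(Complex.log (1 - z)) ^ 2 / 2 := by
  have key : ∀ w ∈ U1, HasDerivAt (fun w => Li2 w + Li2 (w / (w - 1)) +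
      (Complex.log (1 - w)) ^ 2 / 2) 0 w := by
    intro w hw
    have h0 : (1:ℂ) - w ≠ 0 := slitPlane_ne_zero hw
    have h1 : w - 1 ≠ 0 := fun h => h0 (by linear_combination -h)
    have d1 := hasDerivAt_Li2 hw
    have dm : HasDerivAt (fun w : ℂ => w / (w - 1)) ((1 * (w - 1) - w * 1) / (w - 1) ^ 2) w :=
      (hasDerivAt_id w).div ((hasDerivAt_id w).sub_const 1) h1
    have d2 := (hasDerivAt_Li2 (landen_mem hw)).comp w dm
    have dl : HasDerivAt (fun w : ℂ => Complex.log (1 - w)) (-1 / (1 - w)) w :=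
      ((hasDerivAt_id w).const_sub 1).clog hw
    have d3 := (dl.pow 2).div_const 2
    have d4 := (d1.add d2).add d3
    have e1 : w * psi w = -Complex.log (1 - w) := psi_mul w
    have e2 : w / (w - 1) * psi (w / (w - 1)) = Complex.log (1 - w) := by
      rw [psi_mul, landen_log hw, neg_neg]
    have e3 : psi (w / (w - 1)) = (1 - w) * psi w := by
      by_cases hw0 : w = 0
      · simp [hw0]
      · have : w * psi (w / (w - 1)) = w * ((1 - w) * psi w) := by
          have e2' : w * psi (w / (w - 1)) = Complex.log (1 - w) * (w - 1) := by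
            rw [← e2]; field_simp
          rw [e2']
          linear_combination (w - 1) * e1
        exact mul_left_cancel₀ hw0 this
    have e5 : psi w + psi (w / (w - 1)) * ((1 * (w - 1) - w * 1) / (w - 1) ^ 2) +
        (2:ℕ) * Complex.log (1 - w) ^ (2 - 1) * (-1 / (1 - w)) / 2 = 0 := by
      have e6 : (1:ℂ) * (w - 1) - w * 1 = -1 := by ring
      have e7 : (w - 1) ^ 2 = (1 - w) ^ 2 := by ring
      rw [e3, e6, e7]
      have e8 : Complex.log (1 - w) = - (w * psi w) := by rw [e1]; ring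
      rw [e8]
      push_cast
      field_simp
      ring
    rw [← e5]
    exact d4
  have := const_of_deriv isOpen_U1 isPreconnected_U1 key hz zero_mem_U1
  simp only [Li2_zero, sub_zero, Complex.log_one, zero_div, zero_sub] at this
  simp at this
  linear_combination this

/-! ### reflection -/

/-- the plane cut along `(-∞,0] ∪ [1,∞)`. -/
def U2 : Set ℂ := {z | z ∈ slitPlane ∧ 1 - z ∈ slitPlane}

theorem isOpen_U2 : IsOpen U2 :=
  isOpen_slitPlane.inter (isOpen_slitPlane.preimage (by fun_prop))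

theorem half_mem_U2 : (1/2:ℂ) ∈ U2 := by
  constructor
  · have : (1/2:ℂ) = ((1/2:ℝ):ℂ) := by push_cast; rfl
    rw [this]; exact ofReal_mem_slitPlane.2 (by norm_num)
  · have : (1:ℂ) - (1/2:ℂ) = ((1/2:ℝ):ℂ) := by push_cast; ring
    rw [this]; exact ofReal_mem_slitPlane.2 (by norm_num)

theorem starConvex_U2 : StarConvex ℝ (1/2:ℂ) U2 := by
  have hs := starConvex_ofReal_slitPlane (x := 1/2) (by norm_num)
  intro z hz a b ha hb hab
  have hab' : (a:ℂ) + b = 1 := by exact_mod_cast hab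
  constructor
  · have h := hs hz.1 ha hb hab
    convert h using 1
    push_cast; ring
  · have h := hs hz.2 ha hb hab
    convert h using 1
    simp only [real_smul]
    push_cast
    linear_combination -hab'

theorem isPreconnected_U2 : IsPreconnected U2 :=
  (starConvex_U2.isPathConnected half_mem_U2).isConnected.isPreconnected

/-- the reflection constant (equal to `π²/6`). -/
noncomputable def c0 : ℂ := Li2 (1/2) + Li2 (1 - 1/2) + Complex.log (1/2) * Complex.log (1 - 1/2)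

theorem reflection {z : ℂ} (hz : z ∈ slitPlane) (hz' : 1 - z ∈ slitPlane) :
    Li2 z + Li2 (1 - z) + Complex.log z * Complex.log (1 - z) = c0 := by
  have key : ∀ w ∈ U2, HasDerivAt (fun w => Li2 w + Li2 (1 - w) +
      Complex.log w * Complex.log (1 - w)) 0 w := by
    intro w hw
    have h0 : w ≠ 0 := slitPlane_ne_zero hw.1
    have h1 : (1:ℂ) - w ≠ 0 := slitPlane_ne_zero hw.2
    have d1 : HasDerivAt Li2 (psi w) w := hasDerivAt_Li2 hw.2
    have hm : (1:ℂ) - w ∈ U1 := by
      show (1:ℂ) - (1 - w) ∈ slitPlane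
      rw [sub_sub_cancel]; exact hw.1
    have dm : HasDerivAt (fun w : ℂ => 1 - w) (-1) w := (hasDerivAt_id w).const_sub 1
    have d2 := (hasDerivAt_Li2 hm).comp w dm
    have dl : HasDerivAt (fun w : ℂ => Complex.log (1 - w)) (-1 / (1 - w)) w :=
      ((hasDerivAt_id w).const_sub 1).clog hw.2
    have dl0 : HasDerivAt (fun w : ℂ => Complex.log w) (1 / w) w := (hasDerivAt_id w).clog hw.1
    have d4 := (d1.add d2).add (dl0.mul dl)
    have e1 : w * psi w = -Complex.log (1 - w) := psi_mul w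
    have e2 : (1 - w) * psi (1 - w) = -Complex.log w := by
      rw [psi_mul, sub_sub_cancel]
    have e5 : psi w + psi (1 - w) * (-1) +
        (1 / w * Complex.log (1 - w) + Complex.log w * (-1 / (1 - w))) = 0 := by
      have e6 : Complex.log (1 - w) = - (w * psi w) := by rw [e1]; ring
      have e7 : Complex.log w = - ((1 - w) * psi (1 - w)) := by rw [e2]; ring
      rw [e6, e7]
      field_simp
      ring
    rw [← e5]
    exact d4
  exact const_of_deriv isOpen_U2 isPreconnected_U2 key ⟨hz, hz'⟩ half_mem_U2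

/-! ### duplication -/

theorem ball_sub_U1 {z : ℂ} (hz : ‖z‖ < 1) : z ∈ U1 := by
  have := mem_slitPlane_of_norm_lt_one (z := -z) (by rwa [norm_neg])
  rwa [← sub_eq_add_neg] at this

theorem log_one_sub_sq {z : ℂ} (hz : ‖z‖ < 1) :
    Complex.log (1 - z ^ 2) = Complex.log (1 - z) + Complex.log (1 + z) := by
  have h1 : 0 < (1 - z).re := by
    have := (abs_le.1 (abs_re_le_norm z)).2
    simp; linarith
  have h2 : 0 < (1 + z).re := by
    have := (abs_le.1 (abs_re_le_norm z)).1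
    simp; linarith
  have e : (1:ℂ) - z ^ 2 = (1 - z) * (1 + z) := by ring
  have n1 : (1:ℂ) - z ≠ 0 := fun h => by rw [h] at h1; simp at h1
  have n2 : (1:ℂ) + z ≠ 0 := fun h => by rw [h] at h2; simp at h2
  rw [e, log_mul_eq_add_log_iff n1 n2]
  have a1 := abs_lt.1 (abs_arg_lt_pi_div_two_iff.2 (Or.inl h1))
  have a2 := abs_lt.1 (abs_arg_lt_pi_div_two_iff.2 (Or.inl h2))
  constructor <;> linarith [a1.1, a1.2, a2.1, a2.2]

theorem duplication {z : ℂ} (hz : ‖z‖ < 1) : Li2 (z ^ 2) = 2 * (Li2 z + Li2 (-z)) := by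
  have key : ∀ w ∈ ball (0:ℂ) 1, HasDerivAt (fun w => Li2 (w ^ 2) - 2 * (Li2 w + Li2 (-w))) 0 w := by
    intro w hw
    have hw1 : ‖w‖ < 1 := by simpa using hw
    have hw2 : ‖w ^ 2‖ < 1 := by
      rw [norm_pow]; exact pow_lt_one₀ (norm_nonneg _) hw1 two_ne_zero
    have hw3 : ‖-w‖ < 1 := by rwa [norm_neg]
    have d1 := (hasDerivAt_Li2 (ball_sub_U1 hw2)).comp w (hasDerivAt_pow 2 w)
    have d2 := hasDerivAt_Li2 (ball_sub_U1 hw1)
    have d3 := (hasDerivAt_Li2 (ball_sub_U1 hw3)).comp w (hasDerivAt_neg w)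
    have d4 := d1.sub ((d2.add d3).const_mul 2)
    have e1 := psi_mul w
    have e2 := psi_mul (-w)
    have e3 := psi_mul (w ^ 2)
    rw [sub_neg_eq_add] at e2
    rw [log_one_sub_sq hw1] at e3
    have e5 : psi (w ^ 2) * ((2:ℕ) * w ^ (2 - 1)) - 2 * (psi w + psi (-w) * (-1)) = 0 := by
      by_cases h0 : w = 0
      · simp [h0]
      · have : w * (psi (w ^ 2) * ((2:ℕ) * w ^ (2 - 1)) - 2 * (psi w + psi (-w) * (-1))) = 0 := by
          push_cast
          linear_combination 2 * e3 - 2 * e1 - 2 * e2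
        exact (mul_eq_zero.1 this).resolve_left h0
    rw [← e5]
    exact d4
  have := const_of_deriv isOpen_ball (convex_ball (0:ℂ) 1).isPreconnected key
    (x := z) (y := 0) (by simpa using hz) (by simp)
  simp [Li2_zero] at this
  linear_combination this


/-! ### the value of the constants -/

theorem hasSum_Li2 {z : ℂ} (hz : ‖z‖ < 1) :
    HasSum (fun n : ℕ => z ^ (n + 1) / ((n:ℂ) + 1) ^ 2) (Li2 z) := by
  have h1 : HasSum (fun n : ℕ => ∫ t in (0:ℝ)..1, z ^ (n + 1) / ((n:ℂ) + 1) * ((t ^ n : ℝ) : ℂ))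
      (∫ t in (0:ℝ)..1, z * psi (t * z)) := by
    refine intervalIntegral.hasSum_integral_of_dominated_convergence
      (bound := fun n _ => ‖z‖ ^ (n + 1)) ?_ ?_ ?_ ?_ ?_
    · intro n
      exact (by fun_prop : Continuous fun t : ℝ =>
        z ^ (n + 1) / ((n:ℂ) + 1) * ((t ^ n : ℝ) : ℂ)).aestronglyMeasurable
    · intro n
      refine Eventually.of_forall fun t ht => ?_
      rw [uIoc_of_le zero_le_one] at ht
      rw [norm_mul, norm_div, norm_pow, Complex.norm_real, norm_pow]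
      have e1 : (1:ℝ) ≤ ‖(n:ℂ) + 1‖ := by
        have : ((n:ℂ) + 1) = ((n + 1 : ℝ) : ℂ) := by push_cast; rfl
        rw [this, Complex.norm_real, Real.norm_eq_abs, abs_of_nonneg (by positivity)]
        have : (0:ℝ) ≤ n := Nat.cast_nonneg n
        linarith
      have e2 : ‖t‖ ^ n ≤ 1 := by
        rw [Real.norm_eq_abs, abs_of_pos ht.1]
        exact pow_le_one₀ ht.1.le ht.2
      calc ‖z‖ ^ (n + 1) / ‖(n:ℂ) + 1‖ * ‖t‖ ^ n ≤ ‖z‖ ^ (n + 1) / 1 * 1 := by
            gcongr
        _ = _ := by ring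
    · refine Eventually.of_forall fun t ht => ?_
      exact (summable_geometric_of_lt_one (norm_nonneg z) hz).mul_left ‖z‖ |>.congr
        (fun n => by rw [pow_succ]; ring)
    · exact intervalIntegrable_const
    · refine Eventually.of_forall fun t ht => ?_
      rw [uIoc_of_le zero_le_one] at ht
      have htz : ‖(t:ℂ) * z‖ < 1 := by
        rw [norm_mul, Complex.norm_real, Real.norm_eq_abs, abs_of_pos ht.1]
        calc t * ‖z‖ ≤ 1 * ‖z‖ := by gcongr; exact ht.2
          _ < 1 := by rwa [one_mul]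
      have h2 := hasSum_taylorSeries_neg_log' htz
      rw [← psi_mul] at h2
      have ht0 : (t:ℂ) ≠ 0 := by exact_mod_cast ht.1.ne'
      have h3 := h2.mul_left ((t:ℂ)⁻¹)
      have e : (t:ℂ)⁻¹ * (t * z * psi (t * z)) = z * psi (t * z) := by field_simp
      rw [e] at h3
      refine h3.congr_fun ?_ |> fun h => h
      intro n
      push_cast
      field_simp
      ring
  have h2 : ∀ n : ℕ, (∫ t in (0:ℝ)..1, z ^ (n + 1) / ((n:ℂ) + 1) * ((t ^ n : ℝ) : ℂ)) =
      z ^ (n + 1) / ((n:ℂ) + 1) ^ 2 := by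
    intro n
    rw [intervalIntegral.integral_const_mul, intervalIntegral.integral_ofReal, integral_pow]
    push_cast
    have : (n:ℂ) + 1 ≠ 0 := by exact_mod_cast Nat.succ_ne_zero n
    field_simp
    simp
  simp only [h2] at h1
  exact h1


theorem Li2_tendsto_one :
    Tendsto (fun x : ℝ => Li2 (x : ℂ)) (𝓝[<] 1) (𝓝 ((Real.pi:ℂ) ^ 2 / 6)) := by
  have h1 : HasSum (fun n : ℕ => (1 : ℂ) / (n : ℂ) ^ 2) ((Real.pi:ℂ) ^ 2 / 6) := by
    have := Complex.hasSum_ofReal.2 hasSum_zeta_two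
    push_cast at this
    exact this
  have h2 := Complex.tendsto_tsum_powerSeries_nhdsWithin_lt h1.tendsto_sum_nat
  rw [tendsto_map'_iff] at h2
  refine h2.congr' ?_
  have : Ioo (-1:ℝ) 1 ∈ 𝓝[<] (1:ℝ) := Ioo_mem_nhdsLT (by norm_num)
  filter_upwards [this] with x hx
  have hx1 : ‖(x:ℂ)‖ < 1 := by
    rw [Complex.norm_real, Real.norm_eq_abs, abs_lt]; exact hx
  have h3 := hasSum_Li2 hx1
  have h4 : HasSum (fun n : ℕ => (1 : ℂ) / (n : ℂ) ^ 2 * (x:ℂ) ^ n) (Li2 x) := by
    rw [← hasSum_nat_add_iff' 1]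
    simp only [Finset.range_one, Finset.sum_singleton, Nat.cast_zero]
    have e0 : Li2 (x:ℂ) - 1 / (0:ℂ) ^ 2 * (x:ℂ) ^ 0 = Li2 x := by simp
    rw [e0]
    have e1 : (fun n : ℕ => (1:ℂ) / ((n + 1 : ℕ) : ℂ) ^ 2 * (x:ℂ) ^ (n + 1)) =
        fun n : ℕ => (x:ℂ) ^ (n + 1) / ((n:ℂ) + 1) ^ 2 := by
      funext n
      push_cast
      rw [one_div, mul_comm, div_eq_mul_inv]
    rw [e1]
    exact h3
  exact h4.tsum_eq

theorem log_mul_log_tendsto :
    Tendsto (fun x : ℝ => Real.log x * Real.log (1 - x)) (𝓝[<] 1) (𝓝 0) := by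
  -- substitute `u = 1 - x`
  have h1 : Tendsto (fun x : ℝ => Real.log x * Real.log (1 - x)) (𝓝[<] 1) (𝓝 0) := by
    have hb : ∀ᶠ x in 𝓝[<] (1:ℝ), ‖Real.log x * Real.log (1 - x)‖ ≤
        2 * |(1 - x) * Real.log (1 - x)| := by
      have : Ioo (1/2:ℝ) 1 ∈ 𝓝[<] (1:ℝ) := Ioo_mem_nhdsLT (by norm_num)
      filter_upwards [this] with x hx
      have hx0 : 0 < x := by linarith [hx.1]
      have e1 : |Real.log x| ≤ 2 * |1 - x| := by
        have l1 : Real.log x ≤ 0 := Real.log_nonpos hx0.le hx.2.le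
        have l2 : 1 - x⁻¹ ≤ Real.log x := Real.one_sub_inv_le_log_of_pos hx0
        rw [abs_of_nonpos l1, abs_of_pos (by linarith [hx.2])]
        have l3 : x⁻¹ ≤ 1 + 2 * (1 - x) := by
          rw [inv_le_iff_one_le_mul₀ hx0]
          nlinarith [hx.1, hx.2]
        linarith
      rw [norm_mul, Real.norm_eq_abs, Real.norm_eq_abs, abs_mul]
      calc |Real.log x| * |Real.log (1 - x)| ≤ (2 * |1 - x|) * |Real.log (1 - x)| := by gcongr
        _ = _ := by ring
    refine squeeze_zero_norm' hb ?_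
    have hc : Continuous fun x : ℝ => 2 * |(1 - x) * Real.log (1 - x)| := by
      have := Real.continuous_mul_log.comp (continuous_const.sub continuous_id : Continuous fun x : ℝ => 1 - x)
      exact continuous_const.mul this.abs
    have := (hc.tendsto 1).mono_left (nhdsWithin_le_nhds (s := Iio (1:ℝ)))
    simpa using this
  exact h1

theorem c0_eq : c0 = (Real.pi:ℂ) ^ 2 / 6 := by
  have h1 : Tendsto (fun x : ℝ => Li2 (x : ℂ) + Li2 (1 - (x:ℂ)) +
      Complex.log x * Complex.log (1 - (x:ℂ))) (𝓝[<] 1) (𝓝 ((Real.pi:ℂ) ^ 2 / 6 + 0 + 0)) := by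
    refine (Li2_tendsto_one.add ?_).add ?_
    · have hc : ContinuousAt (fun x : ℝ => Li2 (1 - (x:ℂ))) 1 := by
        have : ContinuousAt Li2 (1 - ((1:ℝ):ℂ)) := by
          have e : (1:ℂ) - ((1:ℝ):ℂ) = 0 := by simp
          rw [e]
          exact (hasDerivAt_Li2 zero_mem_U1).continuousAt
        exact ContinuousAt.comp (f := fun x : ℝ => 1 - (x:ℂ)) this (by fun_prop)
      have := hc.tendsto.mono_left (nhdsWithin_le_nhds (s := Iio (1:ℝ)))
      simpa [Li2_zero] using this
    · have h := (Complex.continuous_ofReal.tendsto 0).comp log_mul_log_tendsto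
      rw [Complex.ofReal_zero] at h
      refine h.congr' ?_
      have : Ioo (0:ℝ) 1 ∈ 𝓝[<] (1:ℝ) := Ioo_mem_nhdsLT (by norm_num)
      filter_upwards [this] with x hx
      simp only [Function.comp]
      rw [Complex.ofReal_mul, Complex.ofReal_log hx.1.le, Complex.ofReal_log (by linarith [hx.2])]
      push_cast
      rfl
  have h2 : Tendsto (fun x : ℝ => Li2 (x : ℂ) + Li2 (1 - (x:ℂ)) +
      Complex.log x * Complex.log (1 - (x:ℂ))) (𝓝[<] 1) (𝓝 c0) := by
    refine tendsto_const_nhds.congr' ?_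
    have : Ioo (0:ℝ) 1 ∈ 𝓝[<] (1:ℝ) := Ioo_mem_nhdsLT (by norm_num)
    filter_upwards [this] with x hx
    refine (reflection (ofReal_mem_slitPlane.2 hx.1) ?_).symm
    have : (1:ℂ) - (x:ℂ) = ((1 - x : ℝ) : ℂ) := by push_cast; rfl
    rw [this]
    exact ofReal_mem_slitPlane.2 (by linarith [hx.2])
  have := tendsto_nhds_unique h1 h2
  rw [← this]; ring

theorem clog_real {x : ℝ} (hx : 0 < x) : Complex.log (x : ℂ) = (Real.log x : ℂ) :=
  (Complex.ofReal_log hx.le).symm

/-- `2 Li₂(-2) + Li₂(-3) + 2 log 2 log 3 = - 2 c₀`. -/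
theorem value_23 : 2 * Li2 (-2) + Li2 (-3) + 2 * (Real.log 2 * Real.log 3) = -2 * c0 := by
  have mem : ∀ x : ℝ, x < 1 → ((x:ℂ)) ∈ U1 := by
    intro x hx
    show (1:ℂ) - (x:ℂ) ∈ slitPlane
    have : (1:ℂ) - (x:ℂ) = ((1 - x : ℝ) : ℂ) := by push_cast; rfl
    rw [this]
    exact ofReal_mem_slitPlane.2 (by linarith)
  -- Landen at real points
  have lan : ∀ x : ℝ, x < 1 → Li2 (x:ℂ) + Li2 ((x / (x - 1) : ℝ) : ℂ) =
      -((Real.log (1 - x) : ℝ) : ℂ) ^ 2 / 2 := by
    intro x hx
    have h := landen (mem x hx)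
    have e : (1:ℂ) - (x:ℂ) = ((1 - x : ℝ) : ℂ) := by push_cast; rfl
    rw [e, clog_real (by linarith)] at h
    push_cast at h ⊢
    exact h
  have ref : ∀ x : ℝ, 0 < x → x < 1 → Li2 (x:ℂ) + Li2 ((1 - x : ℝ) : ℂ) +
      (Real.log x : ℂ) * (Real.log (1 - x) : ℂ) = c0 := by
    intro x hx hx1
    have e : (1:ℂ) - (x:ℂ) = ((1 - x : ℝ) : ℂ) := by push_cast; rfl
    have h := reflection (z := (x:ℂ)) (ofReal_mem_slitPlane.2 hx)
      (by rw [e]; exact ofReal_mem_slitPlane.2 (by linarith))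
    rw [e, clog_real hx, clog_real (by linarith)] at h
    exact h
  have l3 : Real.log (3:ℝ) = Real.log 3 := rfl
  have L23 : Real.log (2/3) = Real.log 2 - Real.log 3 := Real.log_div (by norm_num) (by norm_num)
  have L13 : Real.log (1/3) = - Real.log 3 := by rw [one_div, Real.log_inv]
  have L12 : Real.log (1/2) = - Real.log 2 := by rw [one_div, Real.log_inv]
  have L4 : Real.log 4 = 2 * Real.log 2 := by
    have : (4:ℝ) = 2 ^ 2 := by norm_num
    rw [this, Real.log_pow]; norm_num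
  have L14 : Real.log (1/4) = - (2 * Real.log 2) := by rw [one_div, Real.log_inv, L4]
  have L34 : Real.log (3/4) = Real.log 3 - 2 * Real.log 2 := by
    rw [Real.log_div (by norm_num) (by norm_num), L4]
  have a1 : Li2 (-2) + Li2 (2/3) = -(Real.log 3 : ℂ) ^ 2 / 2 := by
    have h := lan (-2) (by norm_num)
    have e1 : ((-2:ℝ) / (-2 - 1) : ℝ) = 2/3 := by norm_num
    have e2 : (1:ℝ) - (-2) = 3 := by norm_num
    rw [e1, e2] at h
    push_cast at h
    exact h
  have a2 : Li2 (-3) + Li2 (3/4) = -(2 * (Real.log 2 : ℂ)) ^ 2 / 2 := by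
    have h := lan (-3) (by norm_num)
    have e1 : ((-3:ℝ) / (-3 - 1) : ℝ) = 3/4 := by norm_num
    have e2 : (1:ℝ) - (-3) = 4 := by norm_num
    rw [e1, e2, L4] at h
    push_cast at h
    exact h
  have a3 : Li2 (1/3) + Li2 (-1/2) = -((Real.log 2 : ℂ) - Real.log 3) ^ 2 / 2 := by
    have h := lan (1/3) (by norm_num)
    have e1 : ((1/3:ℝ) / (1/3 - 1) : ℝ) = -1/2 := by norm_num
    have e2 : (1:ℝ) - (1/3) = 2/3 := by norm_num
    rw [e1, e2, L23] at h
    push_cast at h
    exact h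
  have r1 : Li2 (2/3) + Li2 (1/3) + ((Real.log 2 : ℂ) - Real.log 3) * (-(Real.log 3 : ℂ)) = c0 := by
    have h := ref (2/3) (by norm_num) (by norm_num)
    have e1 : (1:ℝ) - (2/3) = 1/3 := by norm_num
    rw [e1, L23, L13] at h
    push_cast at h
    exact h
  have r2 : Li2 (3/4) + Li2 (1/4) + ((Real.log 3 : ℂ) - 2 * Real.log 2) * (-(2 * (Real.log 2 : ℂ))) =
      c0 := by
    have h := ref (3/4) (by norm_num) (by norm_num)
    have e1 : (1:ℝ) - (3/4) = 1/4 := by norm_num
    rw [e1, L34, L14] at h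
    push_cast at h
    exact h
  have r3 : Li2 (1/2) + Li2 (1/2) + (-(Real.log 2 : ℂ)) * (-(Real.log 2 : ℂ)) = c0 := by
    have h := ref (1/2) (by norm_num) (by norm_num)
    have e1 : (1:ℝ) - (1/2) = 1/2 := by norm_num
    rw [e1, L12] at h
    push_cast at h
    exact h
  have du : Li2 (1/4) = 2 * (Li2 (1/2) + Li2 (-1/2)) := by
    have h := duplication (z := (1/2:ℂ)) (by norm_num)
    have e1 : (1/2:ℂ) ^ 2 = 1/4 := by norm_num
    have e2 : -(1/2:ℂ) = -1/2 := by norm_num
    rw [e1, e2] at h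
    exact h
  linear_combination 2 * a1 + a2 - 2 * r1 - r2 + 2 * a3 + r3 + du

end A4
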