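import Mathlib
import Pool.Agent.Helper40.A4.Li2

/-!
The Steinberg lemma: `exp ((1/2πi) ∫ V dU)` for `e^U + e^V = 1`.
-/

open Complex Set MeasureTheory Metric Filter Topology intervalIntegral

namespace A4

/-- `E x = exp (x / (2 π i))`. -/
noncomputable def E (x : ℂ) : ℂ := Complex.exp (x / (2 * Real.pi * I))

theorem E_add (x y : ℂ) : E (x + y) = E x * E y := by
  rw [E, E, E, ← Complex.exp_add, add_div]

theorem E_zero : E 0 = 1 := by simp [E]

theorem E_neg (x : ℂ) : E (-x) = (E x)⁻¹ := by
  rw [E, E, ← Complex.exp_neg, neg_div]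

theorem E_sub (x y : ℂ) : E (x - y) = E x / E y := by
  rw [sub_eq_add_neg, E_add, E_neg, div_eq_mul_inv]

theorem E_ne_zero (x : ℂ) : E x ≠ 0 := Complex.exp_ne_zero _

theorem tpi_ne : (2 * Real.pi * I : ℂ) ≠ 0 := Complex.two_pi_I_ne_zero

theorem E_tpi (x : ℂ) : E (2 * Real.pi * I * x) = Complex.exp x := by
  rw [E, mul_div_cancel_left₀ _ tpi_ne]

/-- `E ((2πi m)(2πi k)) = 1` -/
theorem E_int (m k : ℤ) : E ((m * (2 * Real.pi * I)) * (k * (2 * Real.pi * I))) = 1 := by
  have : (m * (2 * Real.pi * I)) * (k * (2 * Real.pi * I)) =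
      2 * Real.pi * I * (((m * k : ℤ) : ℂ) * (2 * Real.pi * I)) := by push_cast; ring
  rw [this, E_tpi, Complex.exp_int_mul_two_pi_mul_I]

theorem hasDerivAt_E {f : ℝ → ℂ} {f' : ℂ} {t : ℝ} (h : HasDerivAt f f' t) :
    HasDerivAt (fun t => E (f t)) (E (f t) * (f' / (2 * Real.pi * I))) t :=
  (h.div_const _).cexp

/-- the two charts of the dilogarithm potential -/
noncomputable def Phi1 (u v : ℂ) : ℂ :=
  -Li2 (Complex.exp u) + (v - Complex.log (1 - Complex.exp u)) * u

noncomputable def Phi2 (u v : ℂ) : ℂ :=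
  u * v + Li2 (1 - Complex.exp u) - (u - Complex.log (Complex.exp u)) * v - c0

open Classical in
noncomputable def Phi (u v : ℂ) : ℂ :=
  if Complex.exp u ∈ U1 then E (Phi1 u v) else E (Phi2 u v)

theorem Phi_ne_zero (u v : ℂ) : Phi u v ≠ 0 := by
  unfold Phi; split_ifs <;> exact E_ne_zero _

theorem Phi_eq1 {u v : ℂ} (h : Complex.exp u ∈ U1) : Phi u v = E (Phi1 u v) := if_pos h

theorem log_diff {u z : ℂ} (h : Complex.exp u = z) (hz : z ≠ 0) :
    ∃ m : ℤ, u - Complex.log z = m * (2 * Real.pi * I) := by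
  have h1 : Complex.exp u = Complex.exp (Complex.log z) := by rw [h, Complex.exp_log hz]
  obtain ⟨m, hm⟩ := Complex.exp_eq_exp_iff_exists_int.1 h1
  exact ⟨m, by rw [hm]; ring⟩

theorem Phi_agree {u v : ℂ} (h : Complex.exp u + Complex.exp v = 1)
    (h1 : Complex.exp u ∈ U1) (h2 : Complex.exp u ∈ slitPlane) :
    E (Phi1 u v) = E (Phi2 u v) := by
  have hv : Complex.exp v = 1 - Complex.exp u := by linear_combination h
  have hv0 : (1:ℂ) - Complex.exp u ≠ 0 := by rw [← hv]; exact Complex.exp_ne_zero v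
  obtain ⟨m, hm⟩ := log_diff (u := u) rfl (Complex.exp_ne_zero u)
  obtain ⟨k, hk⟩ := log_diff hv hv0
  have hr := reflection h2 h1
  have : Phi1 u v = Phi2 u v + (m * (2 * Real.pi * I)) * (k * (2 * Real.pi * I)) := by
    rw [← hm, ← hk, Phi1, Phi2]
    linear_combination -hr
  rw [this, E_add, E_int, mul_one]

theorem Phi_eq2 {u v : ℂ} (h : Complex.exp u + Complex.exp v = 1)
    (h2 : Complex.exp u ∈ slitPlane) : Phi u v = E (Phi2 u v) := by
  by_cases h1 : Complex.exp u ∈ U1
  · rw [Phi_eq1 h1, Phi_agree h h1 h2]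
  · exact if_neg h1

theorem mem_slit_of_not_U1 {z : ℂ} (h : z ∉ U1) : z ∈ slitPlane := by
  rw [mem_slitPlane_iff]
  by_contra hc
  push Not at hc
  apply h
  show (1:ℂ) - z ∈ slitPlane
  rw [mem_slitPlane_iff]
  left
  simp only [sub_re, one_re]
  linarith [hc.1]

/-- **Steinberg lemma**. -/
theorem steinberg {U V U' V' : ℝ → ℂ} (hU : ∀ t, HasDerivAt U (U' t) t)
    (hV : ∀ t, HasDerivAt V (V' t) t) (hU' : Continuous U')
    (h1 : ∀ t, Complex.exp (U t) + Complex.exp (V t) = 1) (a b : ℝ) :
    E (∫ t in a..b, V t * U' t) * Phi (U a) (V a) = Phi (U b) (V b) := by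
  have hUc : Continuous U := continuous_iff_continuousAt.2 fun t => (hU t).continuousAt
  have hVc : Continuous V := continuous_iff_continuousAt.2 fun t => (hV t).continuousAt
  have hVU : Continuous fun t => V t * U' t := hVc.mul hU'
  set I0 : ℝ → ℂ := fun t => ∫ s in a..t, V s * U' s with hI0
  have hI : ∀ t, HasDerivAt I0 (V t * U' t) t := fun t =>
    intervalIntegral.integral_hasDerivAt_right (hVU.intervalIntegrable _ _)
      hVU.aestronglyMeasurable.stronglyMeasurableAtFilter hVU.continuousAt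
  have hz : ∀ t, HasDerivAt (fun t => Complex.exp (U t)) (Complex.exp (U t) * U' t) t :=
    fun t => (hU t).cexp
  have hz1 : ∀ t, HasDerivAt (fun t => 1 - Complex.exp (U t)) (-(Complex.exp (U t) * U' t)) t :=
    fun t => (hz t).const_sub 1
  have hVz : ∀ t, (1 - Complex.exp (U t)) * V' t = -(Complex.exp (U t) * U' t) := by
    intro t
    have e1 : HasDerivAt (fun t => Complex.exp (V t)) (Complex.exp (V t) * V' t) t := (hV t).cexp
    have e2 : (fun t => Complex.exp (V t)) = fun t => 1 - Complex.exp (U t) := by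
      funext t; linear_combination h1 t
    rw [e2] at e1
    have e3 := e1.unique (hz1 t)
    have e4 : Complex.exp (V t) = 1 - Complex.exp (U t) := by linear_combination h1 t
    rw [← e3, e4]
  have key : ∀ t, HasDerivAt (fun t => E (-(I0 t)) * Phi (U t) (V t)) 0 t := by
    intro t
    have hcz : ContinuousAt (fun t => Complex.exp (U t)) t := (hz t).continuousAt
    have hEI := hasDerivAt_E (hI t).neg
    by_cases hm : Complex.exp (U t) ∈ U1
    · have hev : (fun t => Phi (U t) (V t)) =ᶠ[𝓝 t] fun t => E (Phi1 (U t) (V t)) := by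
        filter_upwards [hcz.preimage_mem_nhds (isOpen_U1.mem_nhds hm)] with s hs
        exact Phi_eq1 hs
      have dL : HasDerivAt (fun t => Li2 (Complex.exp (U t)))
          (psi (Complex.exp (U t)) * (Complex.exp (U t) * U' t)) t :=
        HasDerivAt.comp (𝕜 := ℝ) (𝕜' := ℂ) t (hasDerivAt_Li2 hm) (hz t)
      have dlog : HasDerivAt (fun t => Complex.log (1 - Complex.exp (U t)))
          (-(Complex.exp (U t) * U' t) / (1 - Complex.exp (U t))) t := (hz1 t).clog_real hm
      have dP := (dL.neg).add (((hV t).sub dlog).mul (hU t))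
      have hne : (1:ℂ) - Complex.exp (U t) ≠ 0 := slitPlane_ne_zero hm
      have e1 := psi_mul (Complex.exp (U t))
      have e2 : -(Complex.exp (U t) * U' t) / (1 - Complex.exp (U t)) = V' t := by
        rw [← hVz t]; field_simp
      have e3 : -(psi (Complex.exp (U t)) * (Complex.exp (U t) * U' t)) +
          ((V' t - -(Complex.exp (U t) * U' t) / (1 - Complex.exp (U t))) * U t +
          (V t - Complex.log (1 - Complex.exp (U t))) * U' t) = V t * U' t := by
        rw [e2]
        linear_combination (-U' t) * e1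
      have dP1 : HasDerivAt (fun t => Phi1 (U t) (V t)) (V t * U' t) t := by
        rw [← e3]; exact dP
      have dE := hasDerivAt_E dP1
      have dprod := hEI.mul (dE.congr_of_eventuallyEq hev)
      have ePhi : Phi (U t) (V t) = E (Phi1 (U t) (V t)) := Phi_eq1 hm
      have e4 : E (-I0 t) * (-(V t * U' t) / (2 * Real.pi * I)) * Phi (U t) (V t) +
          E (-I0 t) * (E (Phi1 (U t) (V t)) * (V t * U' t / (2 * Real.pi * I))) = 0 := by
        rw [ePhi]; ring
      rw [← e4]
      exact dprod
    · have hs : Complex.exp (U t) ∈ slitPlane := mem_slit_of_not_U1 hm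
      have hev : (fun t => Phi (U t) (V t)) =ᶠ[𝓝 t] fun t => E (Phi2 (U t) (V t)) := by
        filter_upwards [hcz.preimage_mem_nhds (isOpen_slitPlane.mem_nhds hs)] with s hs
        exact Phi_eq2 (h1 s) hs
      have hm1 : (1:ℂ) - Complex.exp (U t) ∈ U1 := by
        show (1:ℂ) - (1 - Complex.exp (U t)) ∈ slitPlane
        rw [sub_sub_cancel]; exact hs
      have dL : HasDerivAt (fun t => Li2 (1 - Complex.exp (U t)))
          (psi (1 - Complex.exp (U t)) * (-(Complex.exp (U t) * U' t))) t :=
        HasDerivAt.comp (𝕜 := ℝ) (𝕜' := ℂ) t (hasDerivAt_Li2 hm1) (hz1 t)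
      have dlog : HasDerivAt (fun t => Complex.log (Complex.exp (U t)))
          ((Complex.exp (U t) * U' t) / (Complex.exp (U t))) t := (hz t).clog_real hs
      have dP := (((((hU t).mul (hV t)).add dL)).sub (((hU t).sub dlog).mul (hV t))).sub_const c0
      have e1 := psi_mul (1 - Complex.exp (U t))
      rw [sub_sub_cancel] at e1
      have e2 : (Complex.exp (U t) * U' t) / (Complex.exp (U t)) = U' t := by
        field_simp
      have e3 : U' t * V t + U t * V' t + psi (1 - Complex.exp (U t)) *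
          (-(Complex.exp (U t) * U' t)) -
          ((U' t - (Complex.exp (U t) * U' t) / (Complex.exp (U t))) * V t +
          (U t - Complex.log (Complex.exp (U t))) * V' t) = V t * U' t := by
        rw [e2, ← hVz t]
        linear_combination (V' t) * e1
      have dP1 : HasDerivAt (fun t => Phi2 (U t) (V t)) (V t * U' t) t := by
        rw [← e3]; exact dP
      have dE := hasDerivAt_E dP1
      have dprod := hEI.mul (dE.congr_of_eventuallyEq hev)
      have ePhi : Phi (U t) (V t) = E (Phi2 (U t) (V t)) := Phi_eq2 (h1 t) hs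
      have e4 : E (-I0 t) * (-(V t * U' t) / (2 * Real.pi * I)) * Phi (U t) (V t) +
          E (-I0 t) * (E (Phi2 (U t) (V t)) * (V t * U' t / (2 * Real.pi * I))) = 0 := by
        rw [ePhi]; ring
      rw [← e4]
      exact dprod
  have hconst := is_const_of_deriv_eq_zero (fun t => (key t).differentiableAt)
    (fun t => (key t).deriv) a b
  have hIa : I0 a = 0 := by simp [hI0]
  simp only [hIa, neg_zero, E_zero, one_mul] at hconst
  rw [hconst, ← mul_assoc, E_neg, mul_inv_cancel₀ (E_ne_zero _), one_mul]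

end A4
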