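import Mathlib
import Pool.Agent.Helper40.A4.Steinberg

/-!
Holonomy of a pair of functions along a closed loop, and the tame lemma.
-/

open Complex Set MeasureTheory Metric Filter Topology intervalIntegral

namespace A4

/-- every nowhere vanishing C¹ path has a C¹ logarithm. -/
theorem exists_lift {h : ℝ → ℂ} (hh : ContDiff ℝ 1 h) (h0 : ∀ t, h t ≠ 0) :
    ∃ l : ℝ → ℂ, ContDiff ℝ 1 l ∧ ∀ t, Complex.exp (l t) = h t := by
  have hd : ∀ t, HasDerivAt h (deriv h t) t := fun t =>
    (hh.differentiable one_ne_zero t).hasDerivAt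
  have hc : Continuous fun t => deriv h t / h t :=
    (hh.continuous_deriv le_rfl).div hh.continuous h0
  set l : ℝ → ℂ := fun t => Complex.log (h 0) + ∫ s in (0:ℝ)..t, deriv h s / h s with hl
  have hI : ∀ t, HasDerivAt l (deriv h t / h t) t := fun t => by
    have := intervalIntegral.integral_hasDerivAt_right (hc.intervalIntegrable (0:ℝ) t)
      hc.aestronglyMeasurable.stronglyMeasurableAtFilter hc.continuousAt
    exact this.const_add _
  refine ⟨l, ?_, ?_⟩
  · rw [contDiff_one_iff_deriv]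
    refine ⟨fun t => (hI t).differentiableAt, ?_⟩
    have : deriv l = fun t => deriv h t / h t := funext fun t => (hI t).deriv
    rw [this]; exact hc
  · have key : ∀ t, HasDerivAt (fun t => Complex.exp (-(l t)) * h t) 0 t := by
      intro t
      have d := ((hI t).neg.cexp).mul (hd t)
      have e : Complex.exp (-l t) * -(deriv h t / h t) * h t + Complex.exp (-l t) * deriv h t = 0 := by
        have := h0 t
        field_simp
        ring
      rw [← e]; exact d
    intro t
    have hconst := is_const_of_deriv_eq_zero (fun t => (key t).differentiableAt)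
      (fun t => (key t).deriv) t 0
    have hl0 : l 0 = Complex.log (h 0) := by simp [hl]
    simp only [hl0] at hconst
    rw [Complex.exp_neg, Complex.exp_neg, Complex.exp_log (h0 0), inv_mul_cancel₀ (h0 0)] at hconst
    have h3 := Complex.exp_ne_zero (l t)
    field_simp at hconst
    exact hconst.symm

/-- two logarithms of the same function differ by a constant in `2 π i ℤ`. -/
theorem lift_unique {l m : ℝ → ℂ} (hl : ContDiff ℝ 1 l) (hm : ContDiff ℝ 1 m)
    (h : ∀ t, Complex.exp (l t) = Complex.exp (m t)) :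
    ∃ k : ℤ, ∀ t, l t = m t + k * (2 * Real.pi * I) := by
  obtain ⟨k, hk⟩ := Complex.exp_eq_exp_iff_exists_int.1 (h 0)
  refine ⟨k, fun t => ?_⟩
  have hdl : ∀ t, HasDerivAt l (deriv l t) t := fun t =>
    (hl.differentiable one_ne_zero t).hasDerivAt
  have hdm : ∀ t, HasDerivAt m (deriv m t) t := fun t =>
    (hm.differentiable one_ne_zero t).hasDerivAt
  have key : ∀ t, HasDerivAt (fun t => l t - m t) 0 t := by
    intro t
    have e1 := (hdl t).cexp
    have e2 := (hdm t).cexp
    have e3 : (fun t => Complex.exp (l t)) = fun t => Complex.exp (m t) := funext h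
    rw [e3] at e1
    have e4 := e1.unique e2
    rw [h t] at e4
    have e5 := mul_left_cancel₀ (Complex.exp_ne_zero _) e4
    have := (hdl t).sub (hdm t)
    rw [e5, sub_self] at this
    exact this
  have := is_const_of_deriv_eq_zero (fun t => (key t).differentiableAt)
      (fun t => (key t).deriv) t 0
  simp only [hk] at this
  linear_combination this

/-- the pairing -/
noncomputable def J (T : ℝ) (u v : ℝ → ℂ) : ℂ :=
  (∫ t in (0:ℝ)..T, u t * deriv v t) - v 0 * (u T - u 0)

section bilinear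

variable {T : ℝ} {u u1 u2 v v1 v2 : ℝ → ℂ}

theorem ii (hu : ContDiff ℝ 1 u) (hv : ContDiff ℝ 1 v) (a b : ℝ) :
    IntervalIntegrable (fun t => u t * deriv v t) volume a b :=
  (hu.continuous.mul (hv.continuous_deriv le_rfl)).intervalIntegrable a b

theorem J_add_left (h1 : ContDiff ℝ 1 u1) (h2 : ContDiff ℝ 1 u2) (hv : ContDiff ℝ 1 v) :
    J T (fun t => u1 t + u2 t) v = J T u1 v + J T u2 v := by
  simp only [J, add_mul]
  rw [intervalIntegral.integral_add (ii h1 hv _ _) (ii h2 hv _ _)]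
  ring

theorem J_add_right (hu : ContDiff ℝ 1 u) (h1 : ContDiff ℝ 1 v1) (h2 : ContDiff ℝ 1 v2) :
    J T u (fun t => v1 t + v2 t) = J T u v1 + J T u v2 := by
  have hd : ∀ t, deriv (fun t => v1 t + v2 t) t = deriv v1 t + deriv v2 t := fun t =>
    deriv_fun_add (h1.differentiable one_ne_zero t) (h2.differentiable one_ne_zero t)
  simp only [J, hd, mul_add]
  rw [intervalIntegral.integral_add (ii hu h1 _ _) (ii hu h2 _ _)]
  ring

theorem J_const_left (c : ℂ) (hv : ContDiff ℝ 1 v) :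
    J T (fun _ => c) v = c * (v T - v 0) := by
  simp only [J, sub_self, mul_zero, sub_zero]
  rw [intervalIntegral.integral_const_mul, integral_deriv_eq_sub
    (fun t _ => hv.differentiable one_ne_zero t)
    ((hv.continuous_deriv le_rfl).intervalIntegrable _ _)]

theorem J_const_right (c : ℂ) : J T u (fun _ => c) = -(c * (u T - u 0)) := by
  simp [J]

theorem J_antisymm (hu : ContDiff ℝ 1 u) (hv : ContDiff ℝ 1 v) :
    J T u v + J T v u = (u T - u 0) * (v T - v 0) := by
  have h1 : (∫ t in (0:ℝ)..T, u t * deriv v t) + (∫ t in (0:ℝ)..T, v t * deriv u t) =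
      u T * v T - u 0 * v 0 := by
    have hi1 := ii hu hv 0 T
    have hi2 := ii hv hu 0 T
    have hh := hu.mul hv
    rw [← intervalIntegral.integral_add hi1 hi2]
    have : ∀ t ∈ uIcc 0 T, HasDerivAt (fun t => u t * v t) (u t * deriv v t + v t * deriv u t) t := by
      intro t _
      have := (hu.differentiable one_ne_zero t).hasDerivAt.mul
        (hv.differentiable one_ne_zero t).hasDerivAt
      have e : deriv u t * v t + u t * deriv v t = u t * deriv v t + v t * deriv u t := by ring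
      rw [← e]; exact this
    exact integral_eq_sub_of_hasDerivAt this (hi1.add hi2)
  simp only [J]
  linear_combination h1

end bilinear


/-! ### closed loops -/

theorem closed_int_of_exp {T : ℝ} {u : ℝ → ℂ} (h : Complex.exp (u T) = Complex.exp (u 0)) :
    ∃ n : ℤ, u T - u 0 = n * (2 * Real.pi * I) := by
  obtain ⟨n, hn⟩ := Complex.exp_eq_exp_iff_exists_int.1 h
  exact ⟨n, by rw [hn]; ring⟩

theorem EJ_const_left {T : ℝ} {v : ℝ → ℂ} (hv : ContDiff ℝ 1 v) {n : ℤ}
    (hn : v T - v 0 = n * (2 * Real.pi * I)) (k : ℤ) :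
    E (J T (fun _ => k * (2 * Real.pi * I)) v) = 1 := by
  rw [J_const_left _ hv, hn, E_int]

theorem EJ_const_right {T : ℝ} {u : ℝ → ℂ} {n : ℤ}
    (hn : u T - u 0 = n * (2 * Real.pi * I)) (k : ℤ) :
    E (J T u (fun _ => k * (2 * Real.pi * I))) = 1 := by
  rw [J_const_right, hn, E_neg, E_int, inv_one]

theorem EJ_antisymm {T : ℝ} {u v : ℝ → ℂ} (hu : ContDiff ℝ 1 u) (hv : ContDiff ℝ 1 v) {m n : ℤ}
    (hm : u T - u 0 = m * (2 * Real.pi * I)) (hn : v T - v 0 = n * (2 * Real.pi * I)) :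
    E (J T u v) = (E (J T v u))⁻¹ := by
  have h := J_antisymm (T := T) hu hv
  rw [hm, hn] at h
  have h2 : E (J T u v) * E (J T v u) = 1 := by rw [← E_add, h, E_int]
  exact eq_inv_of_mul_eq_one_left h2

theorem EJ_steinberg {T : ℝ} {U V : ℝ → ℂ} (hU : ContDiff ℝ 1 U) (hV : ContDiff ℝ 1 V)
    (h1 : ∀ t, Complex.exp (U t) + Complex.exp (V t) = 1) {m k : ℤ}
    (hm : U T - U 0 = m * (2 * Real.pi * I)) (hk : V T - V 0 = k * (2 * Real.pi * I)) :
    E (J T V U) = 1 := by
  have hst := steinberg (fun t => (hU.differentiable one_ne_zero t).hasDerivAt)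
    (fun t => (hV.differentiable one_ne_zero t).hasDerivAt) (hU.continuous_deriv le_rfl) h1 0 T
  have hUT : U T = U 0 + m * (2 * Real.pi * I) := by rw [← hm]; ring
  have hVT : V T = V 0 + k * (2 * Real.pi * I) := by rw [← hk]; ring
  have hzT : Complex.exp (U T) = Complex.exp (U 0) := by
    rw [hUT, Complex.exp_add, Complex.exp_int_mul_two_pi_mul_I, mul_one]
  have hJ : J T V U = (∫ t in (0:ℝ)..T, V t * deriv U t) - U 0 * (k * (2 * Real.pi * I)) := by
    rw [J, hk]
  have hE : E (∫ t in (0:ℝ)..T, V t * deriv U t) = Phi (U T) (V T) / Phi (U 0) (V 0) := by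
    rw [eq_div_iff (Phi_ne_zero _ _)]; exact hst
  have hv : Complex.exp (V 0) = 1 - Complex.exp (U 0) := by linear_combination h1 0
  have hv0 : (1:ℂ) - Complex.exp (U 0) ≠ 0 := by rw [← hv]; exact Complex.exp_ne_zero _
  obtain ⟨j', hj'⟩ := log_diff (u := U 0) rfl (Complex.exp_ne_zero (U 0))
  obtain ⟨j, hj⟩ := log_diff hv hv0
  rw [hJ, E_sub, hE]
  by_cases hc : Complex.exp (U 0) ∈ U1
  · have hc' : Complex.exp (U T) ∈ U1 := by rw [hzT]; exact hc
    rw [Phi_eq1 hc, Phi_eq1 hc', ← E_sub, ← E_sub]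
    have : Phi1 (U T) (V T) - Phi1 (U 0) (V 0) - U 0 * (k * (2 * Real.pi * I)) =
        (j * (2 * Real.pi * I)) * (m * (2 * Real.pi * I)) +
        (k * (2 * Real.pi * I)) * (m * (2 * Real.pi * I)) := by
      rw [Phi1, Phi1, hzT, hUT, hVT, ← hj]
      ring
    rw [this, E_add, E_int, E_int, one_mul]
  · have hs := mem_slit_of_not_U1 hc
    have hs' : Complex.exp (U T) ∈ slitPlane := by rw [hzT]; exact hs
    rw [Phi_eq2 (h1 0) hs, Phi_eq2 (h1 T) hs', ← E_sub, ← E_sub]
    have : Phi2 (U T) (V T) - Phi2 (U 0) (V 0) - U 0 * (k * (2 * Real.pi * I)) =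
        -((j' * (2 * Real.pi * I)) * (k * (2 * Real.pi * I))) := by
      rw [Phi2, Phi2, hzT, hUT, hVT, ← hj']
      ring
    rw [this, E_neg, E_int, inv_one]

/-- the data of a closed loop in the unit disc -/
structure Loop (T : ℝ) (γ : ℝ → ℂ) : Prop where
  smooth : ContDiff ℝ 1 γ
  closed : γ T = γ 0
  mem : ∀ t, γ t ∈ ball (0:ℂ) 1

section loop

variable {T : ℝ} {γ : ℝ → ℂ}

theorem closed_int (hγ : Loop T γ) {H : ℂ → ℂ} (hH : DifferentiableOn ℂ H (ball 0 1)) :
    ∫ t in (0:ℝ)..T, H (γ t) * deriv γ t = 0 := by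
  obtain ⟨g, hg⟩ := hH.isExactOn_ball
  have hd : ∀ t ∈ uIcc 0 T, HasDerivAt (fun t => g (γ t)) (H (γ t) * deriv γ t) t := fun t _ =>
    HasDerivAt.comp (𝕜 := ℝ) (𝕜' := ℂ) t (hg _ (hγ.mem t))
      (hγ.smooth.differentiable one_ne_zero t).hasDerivAt
  have hc : Continuous fun t => H (γ t) * deriv γ t := by
    refine Continuous.mul ?_ (hγ.smooth.continuous_deriv le_rfl)
    exact hH.continuousOn.comp_continuous hγ.smooth.continuous hγ.mem
  rw [integral_eq_sub_of_hasDerivAt hd (hc.intervalIntegrable _ _), hγ.closed, sub_self]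

theorem contDiff_comp (hγ : Loop T γ) {F : ℂ → ℂ} (hF : DifferentiableOn ℂ F (ball 0 1)) :
    ContDiff ℝ 1 fun t => F (γ t) := by
  have h1 : ContDiffOn ℂ 1 F (ball 0 1) := hF.contDiffOn isOpen_ball
  have h2 : ContDiffOn ℝ 1 F (ball 0 1) := h1.restrict_scalars ℝ
  exact h2.comp_contDiff hγ.smooth hγ.mem

theorem deriv_comp_hol (hγ : Loop T γ) {F : ℂ → ℂ} (hF : DifferentiableOn ℂ F (ball 0 1)) (t : ℝ) :
    deriv (fun t => F (γ t)) t = deriv F (γ t) * deriv γ t := by
  have h1 : HasDerivAt F (deriv F (γ t)) (γ t) :=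
    ((hF _ (hγ.mem t)).differentiableAt (isOpen_ball.mem_nhds (hγ.mem t))).hasDerivAt
  exact (HasDerivAt.comp (𝕜 := ℝ) (𝕜' := ℂ) t h1
      (hγ.smooth.differentiable one_ne_zero t).hasDerivAt).deriv

theorem J_hol_hol (hγ : Loop T γ) {F G : ℂ → ℂ} (hF : DifferentiableOn ℂ F (ball 0 1))
    (hG : DifferentiableOn ℂ G (ball 0 1)) :
    J T (fun t => F (γ t)) (fun t => G (γ t)) = 0 := by
  have h1 : DifferentiableOn ℂ (fun z => F z * deriv G z) (ball 0 1) :=
    hF.mul (hG.deriv isOpen_ball)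
  have h2 := closed_int hγ h1
  have h3 : ∀ t, F (γ t) * deriv (fun t => G (γ t)) t = F (γ t) * deriv G (γ t) * deriv γ t := by
    intro t
    rw [deriv_comp_hol hγ hG]; ring
  simp only [J, h3, hγ.closed, sub_self, mul_zero, sub_zero]
  exact h2

/-- `l` is a C¹ logarithm of `γ - w`. -/
structure Lift (γ : ℝ → ℂ) (w : ℂ) (l : ℝ → ℂ) : Prop where
  smooth : ContDiff ℝ 1 l
  exp_eq : ∀ t, Complex.exp (l t) = γ t - w

theorem exists_Lift (hγ : Loop T γ) {w : ℂ} (hw : ∀ t, γ t ≠ w) : ∃ l, Lift γ w l := by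
  obtain ⟨l, hl, he⟩ := exists_lift (h := fun t => γ t - w)
    (hγ.smooth.sub contDiff_const) (fun t => sub_ne_zero.2 (hw t))
  exact ⟨l, hl, he⟩

theorem Lift.deriv_eq {l : ℝ → ℂ} {w : ℂ} (hγ : Loop T γ) (h : Lift γ w l) (t : ℝ) :
    (γ t - w) * deriv l t = deriv γ t := by
  have d1 := (h.smooth.differentiable one_ne_zero t).hasDerivAt.cexp
  have e : (fun t => Complex.exp (l t)) = fun t => γ t - w := funext h.exp_eq
  rw [e] at d1
  have d2 := (hγ.smooth.differentiable one_ne_zero t).hasDerivAt.sub_const w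
  have := d1.unique d2
  rw [← this, h.exp_eq]

theorem J_hol_lift (hγ : Loop T γ) {F : ℂ → ℂ} (hF : DifferentiableOn ℂ F (ball 0 1)) {w : ℂ}
    (hw : w ∈ ball (0:ℂ) 1) {l : ℝ → ℂ} (hl : Lift γ w l) :
    J T (fun t => F (γ t)) l = (l T - l 0) * F w := by
  have h1 : DifferentiableOn ℂ (dslope F w) (ball 0 1) :=
    (Complex.differentiableOn_dslope (isOpen_ball.mem_nhds hw)).2 hF
  have h2 := closed_int hγ h1
  have h3 : ∀ t, F (γ t) * deriv l t = dslope F w (γ t) * deriv γ t + F w * deriv l t := by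
    intro t
    have hne : γ t ≠ w := by
      intro h
      have := hl.exp_eq t
      rw [h, sub_self] at this
      exact Complex.exp_ne_zero _ this
    have e1 := hl.deriv_eq hγ t
    rw [dslope_of_ne _ hne, slope_def_field, ← e1]
    have : γ t - w ≠ 0 := sub_ne_zero.2 hne
    field_simp
    ring
  have hc1 : Continuous fun t => dslope F w (γ t) * deriv γ t := by
    refine Continuous.mul ?_ (hγ.smooth.continuous_deriv le_rfl)
    exact h1.continuousOn.comp_continuous hγ.smooth.continuous hγ.mem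
  have hc2 : Continuous fun t => F w * deriv l t :=
    continuous_const.mul (hl.smooth.continuous_deriv le_rfl)
  simp only [J, h3, hγ.closed, sub_self, mul_zero, sub_zero]
  rw [intervalIntegral.integral_add (hc1.intervalIntegrable _ _) (hc2.intervalIntegrable _ _), h2,
    intervalIntegral.integral_const_mul, integral_deriv_eq_sub
    (fun t _ => hl.smooth.differentiable one_ne_zero t)
    ((hl.smooth.continuous_deriv le_rfl).intervalIntegrable _ _)]
  ring

theorem lift_closed (hγ : Loop T γ) {w : ℂ} {l : ℝ → ℂ} (hl : Lift γ w l) :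
    ∃ n : ℤ, l T - l 0 = n * (2 * Real.pi * I) :=
  closed_int_of_exp (by rw [hl.exp_eq, hl.exp_eq, hγ.closed])

theorem E_tpi_int_mul (n : ℤ) (x : ℂ) : E (n * (2 * Real.pi * I) * x) = Complex.exp x ^ n := by
  have : n * (2 * Real.pi * I) * x = 2 * Real.pi * I * (n * x) := by ring
  rw [this, E_tpi, Complex.exp_int_mul]

theorem EJ_lift_lift {w1 w2 : ℂ} (hw : w1 ≠ w2) {l1 l2 : ℝ → ℂ}
    (h1 : Lift γ w1 l1) (h2 : Lift γ w2 l2) {n1 n2 : ℤ}
    (hn1 : l1 T - l1 0 = n1 * (2 * Real.pi * I)) (hn2 : l2 T - l2 0 = n2 * (2 * Real.pi * I)) :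
    E (J T l1 l2) = (w2 - w1) ^ n2 * (w1 - w2) ^ (-n1) := by
  have d1 : w2 - w1 ≠ 0 := sub_ne_zero.2 hw.symm
  have d2 : w1 - w2 ≠ 0 := sub_ne_zero.2 hw
  set c := Complex.log (w2 - w1) with hc
  set c' := Complex.log (w1 - w2) with hc'
  have ec : Complex.exp c = w2 - w1 := Complex.exp_log d1
  have ec' : Complex.exp c' = w1 - w2 := Complex.exp_log d2
  have hU : ContDiff ℝ 1 fun t => l1 t + (-c) := h1.smooth.add contDiff_const
  have hV : ContDiff ℝ 1 fun t => l2 t + (-c') := h2.smooth.add contDiff_const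
  have hst := EJ_steinberg (T := T) hV hU (m := n2) (k := n1) ?_ (by rw [← hn2]; ring)
    (by rw [← hn1]; ring)
  · rw [J_add_left h1.smooth contDiff_const hV, J_add_right h1.smooth h2.smooth contDiff_const,
      J_const_right, J_const_left _ hV, hn1] at hst
    have e : l2 T + -c' - (l2 0 + -c') = n2 * (2 * Real.pi * I) := by rw [← hn2]; ring
    rw [e] at hst
    have e2 : J T l1 l2 + -(-c' * (n1 * (2 * Real.pi * I))) + -c * (n2 * (2 * Real.pi * I)) =
        J T l1 l2 + ((n1 * (2 * Real.pi * I)) * c' - (n2 * (2 * Real.pi * I)) * c) := by ring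
    rw [e2, E_add, E_sub, E_tpi_int_mul, E_tpi_int_mul, ec, ec'] at hst
    have z1 : (w1 - w2) ^ n1 ≠ 0 := zpow_ne_zero _ d2
    have z2 : (w2 - w1) ^ n2 ≠ 0 := zpow_ne_zero _ d1
    rw [zpow_neg]
    field_simp at hst ⊢
    exact hst
  · intro t
    rw [Complex.exp_add, Complex.exp_add, h1.exp_eq, h2.exp_eq, Complex.exp_neg, Complex.exp_neg,
      ec, ec']
    have e : w1 - w2 = -(w2 - w1) := by ring
    rw [e]
    field_simp
    ring

/-- winding number of the loop around `w`. -/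
noncomputable def wind (T : ℝ) (γ : ℝ → ℂ) (w : ℂ) : ℤ :=
  open Classical in
  if h : ∃ n : ℤ, ∀ l, Lift γ w l → l T - l 0 = n * (2 * Real.pi * I) then h.choose else 0

theorem wind_spec (hγ : Loop T γ) {w : ℂ} {l : ℝ → ℂ} (hl : Lift γ w l) :
    l T - l 0 = wind T γ w * (2 * Real.pi * I) := by
  have h : ∃ n : ℤ, ∀ l, Lift γ w l → l T - l 0 = n * (2 * Real.pi * I) := by
    obtain ⟨n, hn⟩ := lift_closed hγ hl
    refine ⟨n, fun m hm => ?_⟩
    obtain ⟨k, hk⟩ := lift_unique hm.smooth hl.smooth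
      (fun t => by rw [hm.exp_eq, hl.exp_eq])
    rw [hk, hk, ← hn]; ring
  unfold wind
  rw [dif_pos h]
  exact h.choose_spec l hl

/-- `f ∘ γ` along the loop, `f = ∏ (ξ - w) e^F` -/
structure LiftF (γ : ℝ → ℂ) (s : Multiset ℂ) (F : ℂ → ℂ) (u : ℝ → ℂ) : Prop where
  smooth : ContDiff ℝ 1 u
  exp_eq : ∀ t, Complex.exp (u t) = (s.map (fun w => γ t - w)).prod * Complex.exp (F (γ t))

theorem LiftF.ne {s : Multiset ℂ} {F : ℂ → ℂ} {u : ℝ → ℂ} (h : LiftF γ s F u) {w : ℂ}
    (hw : w ∈ s) (t : ℝ) : γ t ≠ w := by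
  intro he
  have := h.exp_eq t
  have h0 : (s.map (fun w => γ t - w)).prod = 0 := by
    rw [Multiset.prod_eq_zero_iff, Multiset.mem_map]
    exact ⟨w, hw, by rw [he, sub_self]⟩
  rw [h0, zero_mul] at this
  exact Complex.exp_ne_zero _ this

theorem LiftF.step {w : ℂ} {s : Multiset ℂ} {F : ℂ → ℂ} {u : ℝ → ℂ}
    (h : LiftF γ (w ::ₘ s) F u) {l : ℝ → ℂ} (hl : Lift γ w l) :
    LiftF γ s F (fun t => u t - l t) := by
  refine ⟨h.smooth.sub hl.smooth, fun t => ?_⟩
  have hne := sub_ne_zero.2 (h.ne (Multiset.mem_cons_self w s) t)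
  rw [Complex.exp_sub, h.exp_eq, hl.exp_eq, Multiset.map_cons, Multiset.prod_cons]
  field_simp

theorem LiftF.closed (hγ : Loop T γ) {s : Multiset ℂ} {F : ℂ → ℂ} {u : ℝ → ℂ}
    (h : LiftF γ s F u) : ∃ n : ℤ, u T - u 0 = n * (2 * Real.pi * I) :=
  closed_int_of_exp (by rw [h.exp_eq, h.exp_eq, hγ.closed])

theorem LiftF.delta (hγ : Loop T γ) {F : ℂ → ℂ} (hF : DifferentiableOn ℂ F (ball 0 1))
    (s : Multiset ℂ) : ∀ {u : ℝ → ℂ}, LiftF γ s F u →
    u T - u 0 = ((s.map (wind T γ)).sum : ℤ) * (2 * Real.pi * I) := by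
  induction s using Multiset.induction_on with
  | empty =>
    intro u h
    obtain ⟨k, hk⟩ := lift_unique h.smooth (contDiff_comp hγ hF)
      (fun t => by rw [h.exp_eq]; simp)
    rw [hk, hk, hγ.closed]; simp
  | cons w s ih =>
    intro u h
    obtain ⟨l, hl⟩ := exists_Lift hγ (h.ne (Multiset.mem_cons_self w s))
    have h1 := ih (h.step hl)
    have h2 := wind_spec hγ hl
    rw [Multiset.map_cons, Multiset.sum_cons, Int.cast_add]
    linear_combination h1 + h2

theorem EJ_lemmaA (hγ : Loop T γ) {F : ℂ → ℂ} (hF : DifferentiableOn ℂ F (ball 0 1)) {w' : ℂ}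
    (hw' : w' ∈ ball (0:ℂ) 1) {l' : ℝ → ℂ} (hl' : Lift γ w' l') (s : Multiset ℂ) :
    ∀ {u : ℝ → ℂ}, LiftF γ s F u → (∀ w ∈ s, w ≠ w') →
    E (J T u l') = ((s.map (fun w => w' - w)).prod * Complex.exp (F w')) ^ (wind T γ w') *
      (s.map (fun w => (w - w') ^ (-wind T γ w))).prod := by
  induction s using Multiset.induction_on with
  | empty =>
    intro u h _
    obtain ⟨k, hk⟩ := lift_unique h.smooth (contDiff_comp hγ hF)
      (fun t => by rw [h.exp_eq]; simp)
    have : u = fun t => F (γ t) + k * (2 * Real.pi * I) := funext hk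
    rw [this, J_add_left (contDiff_comp hγ hF) contDiff_const hl'.smooth, E_add,
      EJ_const_left hl'.smooth (wind_spec hγ hl') k, J_hol_lift hγ hF hw' hl', wind_spec hγ hl',
      E_tpi_int_mul]
    simp
  | cons w s ih =>
    intro u h hne
    obtain ⟨l, hl⟩ := exists_Lift hγ (h.ne (Multiset.mem_cons_self w s))
    have h1 := ih (h.step hl) (fun x hx => hne x (Multiset.mem_cons_of_mem hx))
    have e : u = fun t => l t + (u t - l t) := by funext t; ring
    rw [e, J_add_left hl.smooth (h.step hl).smooth hl'.smooth, E_add, h1,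
      EJ_lift_lift (hne w (Multiset.mem_cons_self w s)) hl hl' (wind_spec hγ hl)
        (wind_spec hγ hl')]
    simp only [Multiset.map_cons, Multiset.prod_cons, mul_zpow]
    ring

theorem EJ_lemmaB (hγ : Loop T γ) {F G : ℂ → ℂ} (hF : DifferentiableOn ℂ F (ball 0 1))
    (hG : DifferentiableOn ℂ G (ball 0 1)) (s : Multiset ℂ) :
    ∀ {u : ℝ → ℂ}, (∀ w ∈ s, w ∈ ball (0:ℂ) 1) → LiftF γ s F u →
    E (J T u (fun t => G (γ t))) = (s.map (fun w => Complex.exp (G w) ^ (-wind T γ w))).prod := by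
  have hGc := contDiff_comp hγ hG
  have hG0 : G (γ T) - G (γ 0) = ((0:ℤ) : ℂ) * (2 * Real.pi * I) := by rw [hγ.closed]; simp
  induction s using Multiset.induction_on with
  | empty =>
    intro u _ h
    obtain ⟨k, hk⟩ := lift_unique h.smooth (contDiff_comp hγ hF)
      (fun t => by rw [h.exp_eq]; simp)
    have : u = fun t => F (γ t) + k * (2 * Real.pi * I) := funext hk
    rw [this, J_add_left (contDiff_comp hγ hF) contDiff_const hGc, E_add,
      EJ_const_left hGc hG0 k, J_hol_hol hγ hF hG, E_zero]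
    simp
  | cons w s ih =>
    intro u hs h
    obtain ⟨l, hl⟩ := exists_Lift hγ (h.ne (Multiset.mem_cons_self w s))
    have h1 := ih (fun x hx => hs x (Multiset.mem_cons_of_mem hx)) (h.step hl)
    have e : u = fun t => l t + (u t - l t) := by funext t; ring
    rw [e, J_add_left hl.smooth (h.step hl).smooth hGc, E_add, h1,
      EJ_antisymm hl.smooth hGc (wind_spec hγ hl) hG0,
      J_hol_lift hγ hG (hs w (Multiset.mem_cons_self w s)) hl, wind_spec hγ hl,
      E_tpi_int_mul, Multiset.map_cons, Multiset.prod_cons, zpow_neg]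

theorem EJ_lemmaC (hγ : Loop T γ) {F G : ℂ → ℂ} (hF : DifferentiableOn ℂ F (ball 0 1))
    (hG : DifferentiableOn ℂ G (ball 0 1)) {s : Multiset ℂ} {u : ℝ → ℂ}
    (hs : ∀ w ∈ s, w ∈ ball (0:ℂ) 1) (hu : LiftF γ s F u) (t : Multiset ℂ) :
    ∀ {v : ℝ → ℂ}, (∀ w ∈ t, w ∈ ball (0:ℂ) 1) → LiftF γ t G v → (∀ w ∈ s, ∀ w' ∈ t, w ≠ w') →
    E (J T u v) =
      (t.map (fun w' => ((s.map (fun w => w' - w)).prod * Complex.exp (F w')) ^ (wind T γ w'))).prod *
      (s.map (fun w => ((t.map (fun w' => w - w')).prod * Complex.exp (G w)) ^ (-wind T γ w))).prod := by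
  induction t using Multiset.induction_on with
  | empty =>
    intro v _ h _
    have hGc := contDiff_comp hγ hG
    obtain ⟨k, hk⟩ := lift_unique h.smooth hGc (fun t => by rw [h.exp_eq]; simp)
    have : v = fun t => G (γ t) + k * (2 * Real.pi * I) := funext hk
    obtain ⟨n, hn⟩ := hu.closed hγ
    rw [this, J_add_right hu.smooth hGc contDiff_const, E_add, EJ_const_right hn k,
      EJ_lemmaB hγ hF hG s hs hu]
    simp
  | cons w' t ih =>
    intro v ht h hne
    obtain ⟨l, hl⟩ := exists_Lift hγ (h.ne (Multiset.mem_cons_self w' t))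
    have h1 := ih (fun x hx => ht x (Multiset.mem_cons_of_mem hx)) (h.step hl)
      (fun w hw w'' hw'' => hne w hw w'' (Multiset.mem_cons_of_mem hw''))
    have e : v = fun t => l t + (v t - l t) := by funext t; ring
    rw [e, J_add_right hu.smooth hl.smooth (h.step hl).smooth, E_add, h1,
      EJ_lemmaA hγ hF (ht w' (Multiset.mem_cons_self w' t)) hl s hu
        (fun w hw => hne w hw w' (Multiset.mem_cons_self w' t))]
    simp only [Multiset.map_cons, Multiset.prod_cons]
    have e3 : (s.map (fun w => ((w - w') * (t.map (fun w' => w - w')).prod * Complex.exp (G w)) ^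
        (-wind T γ w))).prod = (s.map (fun w => (w - w') ^ (-wind T γ w))).prod *
        (s.map (fun w => ((t.map (fun w' => w - w')).prod * Complex.exp (G w)) ^
        (-wind T γ w))).prod := by
      rw [← Multiset.prod_map_mul]
      congr 1
      refine Multiset.map_congr rfl fun w _ => ?_
      rw [mul_assoc, mul_zpow]
    rw [e3]
    ring

/-- **tame lemma** -/
theorem tame (hγ : Loop T γ) {F G : ℂ → ℂ} (hF : DifferentiableOn ℂ F (ball 0 1))
    (hG : DifferentiableOn ℂ G (ball 0 1)) {s t : Multiset ℂ} {u v : ℝ → ℂ}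
    (hs : ∀ w ∈ s, w ∈ ball (0:ℂ) 1) (hu : LiftF γ s F u)
    (ht : ∀ w ∈ t, w ∈ ball (0:ℂ) 1) (hv : LiftF γ t G v)
    (h1 : ∀ w' ∈ t, (s.map (fun w => w' - w)).prod * Complex.exp (F w') = 1)
    (h2 : ∀ w ∈ s, (t.map (fun w' => w - w')).prod * Complex.exp (G w) = -1) :
    E (J T u v) = Complex.exp ((u T - u 0) / 2) := by
  have hne : ∀ w ∈ s, ∀ w' ∈ t, w ≠ w' := by
    intro w hw w' hw' he
    have := h2 w hw
    have h0 : (t.map (fun w' => w - w')).prod = 0 := by
      rw [Multiset.prod_eq_zero_iff, Multiset.mem_map]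
      exact ⟨w', hw', by rw [he, sub_self]⟩
    rw [h0, zero_mul] at this
    norm_num at this
  rw [EJ_lemmaC hγ hF hG hs hu t ht hv hne, hu.delta hγ hF s]
  have e1 : (t.map (fun w' => ((s.map (fun w => w' - w)).prod * Complex.exp (F w')) ^
      (wind T γ w'))).prod = 1 := by
    apply Multiset.prod_eq_one
    intro x hx
    obtain ⟨w', hw', rfl⟩ := Multiset.mem_map.1 hx
    rw [h1 w' hw', one_zpow]
  have e2 : (s.map (fun w => ((t.map (fun w' => w - w')).prod * Complex.exp (G w)) ^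
      (-wind T γ w))).prod = (s.map (fun w => (-1:ℂ) ^ (wind T γ w))).prod := by
    congr 1
    refine Multiset.map_congr rfl fun w hw => ?_
    rw [h2 w hw, zpow_neg, ← inv_zpow]
    norm_num
  rw [e1, e2, one_mul]
  clear e1 e2 hne h2 h1 hu hs
  induction s using Multiset.induction_on with
  | empty => simp
  | cons w s ih =>
    rw [Multiset.map_cons, Multiset.prod_cons, Multiset.map_cons, Multiset.sum_cons, ih]
    push_cast
    rw [add_mul, add_div, Complex.exp_add]
    congr 1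
    have : (wind T γ w : ℂ) * (2 * Real.pi * I) / 2 = wind T γ w * (Real.pi * I) := by ring
    rw [this, Complex.exp_int_mul, Complex.exp_pi_mul_I]

end loop

end A4
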