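import Mathlib
import Pool.Agent.Helper40.A4.Tame

/-!
Tame functions on the unit disc: `f = ∏ (ξ - w) e^F`.  Rational functions regular on the disc.
-/

open Complex Set MeasureTheory Metric Filter Topology intervalIntegral Polynomial

namespace A4

/-- `f = ∏ (ξ - w) e^F` on the unit disc. -/
def TameFn (f : ℂ → ℂ) : Prop := ∃ (s : Multiset ℂ) (F : ℂ → ℂ), (∀ w ∈ s, w ∈ ball (0:ℂ) 1) ∧
  DifferentiableOn ℂ F (ball 0 1) ∧
  ∀ ξ ∈ ball (0:ℂ) 1, f ξ = (s.map (fun w => ξ - w)).prod * Complex.exp (F ξ)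

theorem tame' {T : ℝ} {γ : ℝ → ℂ} (hγ : Loop T γ) {f g : ℂ → ℂ} (hf : TameFn f) (hg : TameFn g)
    {u v : ℝ → ℂ} (hu : ContDiff ℝ 1 u) (hue : ∀ t, Complex.exp (u t) = f (γ t))
    (hv : ContDiff ℝ 1 v) (hve : ∀ t, Complex.exp (v t) = g (γ t))
    (h1 : ∀ ξ ∈ ball (0:ℂ) 1, g ξ = 0 → f ξ = 1) (h2 : ∀ ξ ∈ ball (0:ℂ) 1, f ξ = 0 → g ξ = -1) :
    E (J T u v) = Complex.exp ((u T - u 0) / 2) := by
  obtain ⟨s, F, hs, hF, hf⟩ := hf
  obtain ⟨t, G, ht, hG, hg⟩ := hg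
  refine tame hγ hF hG hs ⟨hu, fun x => by rw [hue, hf _ (hγ.mem x)]⟩ ht
    ⟨hv, fun x => by rw [hve, hg _ (hγ.mem x)]⟩ ?_ ?_
  · intro w' hw'
    rw [← hf _ (ht w' hw')]
    apply h1 _ (ht w' hw')
    rw [hg _ (ht w' hw')]
    have h0 : (t.map (fun w => w' - w)).prod = 0 := by
      rw [Multiset.prod_eq_zero_iff, Multiset.mem_map]
      exact ⟨w', hw', sub_self _⟩
    rw [h0, zero_mul]
  · intro w hw
    rw [← hg _ (hs w hw)]
    apply h2 _ (hs w hw)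
    rw [hf _ (hs w hw)]
    have h0 : (s.map (fun w' => w - w')).prod = 0 := by
      rw [Multiset.prod_eq_zero_iff, Multiset.mem_map]
      exact ⟨w, hw, sub_self _⟩
    rw [h0, zero_mul]

theorem TameFn.differentiableOn {f : ℂ → ℂ} (hf : TameFn f) :
    DifferentiableOn ℂ f (ball 0 1) := by
  obtain ⟨s, F, hs, hF, hf⟩ := hf
  have h1 : DifferentiableOn ℂ (fun ξ => (s.map (fun w => ξ - w)).prod * Complex.exp (F ξ))
      (ball 0 1) := by
    refine DifferentiableOn.mul ?_ hF.cexp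
    clear hf hs
    induction s using Multiset.induction_on with
    | empty => simp
    | cons w s ih =>
      simp only [Multiset.map_cons, Multiset.prod_cons]
      exact (differentiableOn_id.sub_const w).mul ih
  exact h1.congr hf

theorem TameFn.mul {f g : ℂ → ℂ} (hf : TameFn f) (hg : TameFn g) :
    TameFn (fun ξ => f ξ * g ξ) := by
  obtain ⟨s, F, hs, hF, hf⟩ := hf
  obtain ⟨t, G, ht, hG, hg⟩ := hg
  refine ⟨s + t, fun ξ => F ξ + G ξ, ?_, hF.add hG, ?_⟩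
  · intro w hw
    rcases Multiset.mem_add.1 hw with h | h
    exacts [hs w h, ht w h]
  · intro ξ hξ
    show f ξ * g ξ = (Multiset.map (fun w => ξ - w) (s + t)).prod * Complex.exp (F ξ + G ξ)
    rw [hf ξ hξ, hg ξ hξ, Multiset.map_add, Multiset.prod_add, Complex.exp_add]
    ring

theorem TameFn.congr {f g : ℂ → ℂ} (hf : TameFn f) (h : ∀ ξ ∈ ball (0:ℂ) 1, g ξ = f ξ) :
    TameFn g := by
  obtain ⟨s, F, hs, hF, hf⟩ := hf
  exact ⟨s, F, hs, hF, fun ξ hξ => by rw [h ξ hξ, hf ξ hξ]⟩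

theorem TameFn.exp {F : ℂ → ℂ} (hF : DifferentiableOn ℂ F (ball 0 1)) :
    TameFn (fun ξ => Complex.exp (F ξ)) :=
  ⟨0, F, by simp, hF, by simp⟩

theorem TameFn.const {c : ℂ} (hc : c ≠ 0) : TameFn (fun _ => c) :=
  ⟨0, fun _ => Complex.log c, by simp, differentiableOn_const _, by simp [Complex.exp_log hc]⟩

theorem TameFn.linear (r : ℂ) : TameFn (fun ξ => ξ - r) := by
  by_cases hr : r ∈ ball (0:ℂ) 1
  · exact ⟨{r}, fun _ => 0, by simpa using hr, differentiableOn_const _, by simp⟩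
  · have hr1 : 1 ≤ ‖r‖ := by simpa using hr
    have hr0 : r ≠ 0 := by intro h; rw [h, norm_zero] at hr1; linarith
    have hm : ∀ ξ ∈ ball (0:ℂ) 1, 1 - ξ / r ∈ slitPlane := by
      intro ξ hξ
      have h1 : ‖ξ / r‖ < 1 := by
        rw [norm_div, div_lt_one (by linarith)]
        have : ‖ξ‖ < 1 := by simpa using hξ
        linarith
      exact ball_sub_U1 h1
    refine ((TameFn.const (neg_ne_zero.2 hr0)).mul (TameFn.exp
      (F := fun ξ => Complex.log (1 - ξ / r)) ?_)).congr ?_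
    · intro ξ hξ
      apply DifferentiableAt.differentiableWithinAt
      exact ((differentiableAt_id.div_const r).const_sub 1).clog (hm ξ hξ)
    · intro ξ hξ
      rw [Complex.exp_log (slitPlane_ne_zero (hm ξ hξ))]
      field_simp
      ring

theorem TameFn.poly {Q : ℂ[X]} (hQ : Q ≠ 0) : TameFn (fun ξ => Q.eval ξ) := by
  have hsp : Q.Splits := IsAlgClosed.splits Q
  have hroots := hsp.eq_prod_roots
  have h1 : ∀ s : Multiset ℂ, TameFn (fun ξ => (s.map (fun a => (X - C a : ℂ[X]))).prod.eval ξ) := by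
    intro s
    induction s using Multiset.induction_on with
    | empty =>
      simpa using TameFn.const one_ne_zero
    | cons w s ih =>
      refine ((TameFn.linear w).mul ih).congr ?_
      intro ξ _
      rw [Multiset.map_cons, Multiset.prod_cons, eval_mul]
      simp
  refine ((TameFn.const (leadingCoeff_ne_zero.2 hQ)).mul (h1 Q.roots)).congr ?_
  intro ξ _
  conv_lhs => rw [hroots]
  rw [eval_mul, eval_C]

/-- finite set of zeros -/
theorem TameFn.finite_zeros {f : ℂ → ℂ} (hf : TameFn f) :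
    {ξ | ξ ∈ ball (0:ℂ) 1 ∧ f ξ = 0}.Finite := by
  obtain ⟨s, F, hs, hF, hf⟩ := hf
  classical
  refine (s.toFinset.finite_toSet).subset ?_
  rintro ξ ⟨hξ, h0⟩
  rw [hf ξ hξ] at h0
  have := (mul_eq_zero.1 h0).resolve_right (Complex.exp_ne_zero _)
  rw [Multiset.prod_eq_zero_iff, Multiset.mem_map] at this
  obtain ⟨w, hw, he⟩ := this
  have : ξ = w := sub_eq_zero.1 he
  rw [this]
  simpa using hw

/-- rational functions regular on the unit disc -/
def RatFn (f : ℂ → ℂ) : Prop := ∃ Q W : ℂ[X], (∀ ξ ∈ ball (0:ℂ) 1, W.eval ξ ≠ 0) ∧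
  ∀ ξ ∈ ball (0:ℂ) 1, f ξ * W.eval ξ = Q.eval ξ

theorem RatFn.poly (Q : ℂ[X]) : RatFn (fun ξ => Q.eval ξ) :=
  ⟨Q, 1, by simp, by simp⟩

theorem RatFn.congr {f g : ℂ → ℂ} (hf : RatFn f) (h : ∀ ξ ∈ ball (0:ℂ) 1, g ξ = f ξ) :
    RatFn g := by
  obtain ⟨Q, W, h1, h2⟩ := hf
  exact ⟨Q, W, h1, fun ξ hξ => by rw [h ξ hξ, h2 ξ hξ]⟩

theorem RatFn.add {f g : ℂ → ℂ} (hf : RatFn f) (hg : RatFn g) : RatFn (fun ξ => f ξ + g ξ) := by
  obtain ⟨Q, W, h1, h2⟩ := hf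
  obtain ⟨Q', W', h1', h2'⟩ := hg
  refine ⟨Q * W' + Q' * W, W * W', ?_, ?_⟩
  · intro ξ hξ
    rw [eval_mul]; exact mul_ne_zero (h1 ξ hξ) (h1' ξ hξ)
  · intro ξ hξ
    rw [eval_mul, eval_add, eval_mul, eval_mul, ← h2 ξ hξ, ← h2' ξ hξ]
    ring

theorem RatFn.mul {f g : ℂ → ℂ} (hf : RatFn f) (hg : RatFn g) : RatFn (fun ξ => f ξ * g ξ) := by
  obtain ⟨Q, W, h1, h2⟩ := hf
  obtain ⟨Q', W', h1', h2'⟩ := hg
  refine ⟨Q * Q', W * W', ?_, ?_⟩
  · intro ξ hξ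
    rw [eval_mul]; exact mul_ne_zero (h1 ξ hξ) (h1' ξ hξ)
  · intro ξ hξ
    rw [eval_mul, eval_mul, ← h2 ξ hξ, ← h2' ξ hξ]
    ring

theorem RatFn.const (c : ℂ) : RatFn (fun _ => c) := by
  simpa using RatFn.poly (C c)

theorem RatFn.pow {f : ℂ → ℂ} (hf : RatFn f) (n : ℕ) : RatFn (fun ξ => f ξ ^ n) := by
  induction n with
  | zero => simpa using RatFn.const 1
  | succ n ih => simpa [pow_succ] using ih.mul hf

theorem RatFn.sub {f g : ℂ → ℂ} (hf : RatFn f) (hg : RatFn g) : RatFn (fun ξ => f ξ - g ξ) := by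
  have := hf.add ((RatFn.const (-1)).mul hg)
  refine this.congr fun ξ _ => by ring

/-- a quotient -/
theorem RatFn.div {Q W : ℂ[X]} (hW : ∀ ξ ∈ ball (0:ℂ) 1, W.eval ξ ≠ 0) :
    RatFn (fun ξ => Q.eval ξ / W.eval ξ) :=
  ⟨Q, W, hW, fun ξ hξ => div_mul_cancel₀ _ (hW ξ hξ)⟩

theorem RatFn.comp_poly {f : ℂ → ℂ} (hf : RatFn f) (P : ℂ[X]) : RatFn (fun ξ => P.eval (f ξ)) := by
  induction P using Polynomial.induction_on' with
  | add p q hp hq => simpa using hp.add hq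
  | monomial n a =>
    simpa using (RatFn.const a).mul (hf.pow n)

theorem RatFn.rot {f : ℂ → ℂ} (hf : RatFn f) {c : ℂ} (hc : ‖c‖ = 1) :
    RatFn (fun ξ => f (c * ξ)) := by
  obtain ⟨Q, W, h1, h2⟩ := hf
  have hm : ∀ ξ ∈ ball (0:ℂ) 1, c * ξ ∈ ball (0:ℂ) 1 := by
    intro ξ hξ
    have : ‖ξ‖ < 1 := by simpa using hξ
    simpa [hc] using this
  refine ⟨Q.comp (C c * X), W.comp (C c * X), ?_, ?_⟩
  · intro ξ hξ
    simpa using h1 _ (hm ξ hξ)
  · intro ξ hξ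
    simpa using h2 _ (hm ξ hξ)

theorem RatFn.tame {f : ℂ → ℂ} (hf : RatFn f) (h0 : ∃ ξ ∈ ball (0:ℂ) 1, f ξ ≠ 0) : TameFn f := by
  obtain ⟨Q, W, h1, h2⟩ := hf
  obtain ⟨ξ0, hξ0, hf0⟩ := h0
  have hW : W ≠ 0 := by
    intro h; have := h1 0 (by simp); rw [h] at this; simp at this
  have hQ : Q ≠ 0 := by
    intro h
    have := h2 ξ0 hξ0
    rw [h, eval_zero] at this
    exact mul_ne_zero hf0 (h1 ξ0 hξ0) this
  obtain ⟨s, F, hs, hF, hWs⟩ := TameFn.poly hW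
  have hs0 : s = 0 := by
    rw [Multiset.eq_zero_iff_forall_notMem]
    intro w hw
    have h3 := hWs w (hs w hw)
    have h4 : (s.map (fun w' => w - w')).prod = 0 := by
      rw [Multiset.prod_eq_zero_iff, Multiset.mem_map]
      exact ⟨w, hw, sub_self _⟩
    rw [h4, zero_mul] at h3
    exact h1 w (hs w hw) h3
  subst hs0
  refine ((TameFn.poly hQ).mul (TameFn.exp hF.neg)).congr ?_
  intro ξ hξ
  have h3 := hWs ξ hξ
  simp only [Multiset.map_zero, Multiset.prod_zero, one_mul] at h3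
  have h4 := h2 ξ hξ
  rw [h3] at h4
  simp only [Pi.neg_apply]
  rw [← h4, Complex.exp_neg, mul_assoc, mul_inv_cancel₀ (Complex.exp_ne_zero _), mul_one]

end A4
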