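import Mathlib
import Pool.Agent.Helper40.A4.TameFn

/-!
The loop: radially out along the ray `φ + π/3`, along the outer arc to the ray `φ`, radially in,
along the inner arc back.
-/

open Complex Set MeasureTheory Metric Filter Topology intervalIntegral

namespace A4

noncomputable abbrev sg : ℝ → ℝ := Real.smoothTransition

theorem sg_smooth : ContDiff ℝ 1 sg := Real.smoothTransition.contDiff (n := 1)

/-- radius -/
noncomputable def RR (s0 r s : ℝ) : ℝ := s0 + (r - s0) * (sg s * sg (5 - s))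

/-- angle -/
noncomputable def TT (φ s : ℝ) : ℝ := φ + Real.pi / 3 - Real.pi / 3 * (sg (s - 2) - sg (s - 6))

/-- point at radius `ρ`, angle `θ`. -/
noncomputable def pt (ρ θ : ℝ) : ℂ := ρ * Complex.exp (θ * I)

/-- the loop -/
noncomputable def gam (s0 r φ s : ℝ) : ℂ := pt (RR s0 r s) (TT φ s)

/-- rotation by `-π/3` -/
noncomputable def kap : ℂ := Complex.exp (-(Real.pi / 3 : ℝ) * I)

theorem kap_ne : kap ≠ 0 := Complex.exp_ne_zero _

theorem norm_kap : ‖kap‖ = 1 := by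
  rw [kap]
  have : (-(Real.pi / 3 : ℝ) * I : ℂ) = ((-(Real.pi / 3) : ℝ) : ℂ) * I := by push_cast; ring
  rw [this, Complex.norm_exp_ofReal_mul_I]

theorem norm_kap_inv : ‖kap⁻¹‖ = 1 := by rw [norm_inv, norm_kap, inv_one]

theorem kap_mul_pt (ρ θ : ℝ) : kap * pt ρ θ = pt ρ (θ - Real.pi / 3) := by
  rw [kap, pt, pt, mul_left_comm, ← Complex.exp_add]
  congr 2
  push_cast; ring

theorem kap_inv_mul_pt (ρ θ : ℝ) : kap⁻¹ * pt ρ θ = pt ρ (θ + Real.pi / 3) := by
  rw [kap, ← Complex.exp_neg, pt, pt, mul_left_comm, ← Complex.exp_add]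
  congr 2
  push_cast; ring

theorem norm_pt (ρ θ : ℝ) : ‖pt ρ θ‖ = |ρ| := by
  rw [pt, norm_mul, Complex.norm_exp_ofReal_mul_I, mul_one, Complex.norm_real, Real.norm_eq_abs]

theorem pt_mem {ρ θ : ℝ} (h : |ρ| < 1) : pt ρ θ ∈ ball (0:ℂ) 1 := by
  rw [mem_ball_zero_iff, norm_pt]; exact h

theorem pt_periodic (ρ θ : ℝ) : pt ρ (θ + 2 * Real.pi) = pt ρ θ := by
  rw [pt, pt]
  push_cast
  rw [add_mul, Complex.exp_add, Complex.exp_two_pi_mul_I, mul_one]

theorem RR_smooth (s0 r : ℝ) : ContDiff ℝ 1 (RR s0 r) :=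
  contDiff_const.add (contDiff_const.mul (sg_smooth.mul
    (sg_smooth.comp (contDiff_const.sub contDiff_id))))

theorem TT_smooth (φ : ℝ) : ContDiff ℝ 1 (TT φ) :=
  contDiff_const.sub (contDiff_const.mul ((sg_smooth.comp (contDiff_id.sub contDiff_const)).sub
    (sg_smooth.comp (contDiff_id.sub contDiff_const))))

theorem contDiff_ofReal' : ContDiff ℝ 1 (fun x : ℝ => (x : ℂ)) := Complex.ofRealCLM.contDiff

theorem pt_smooth {ρ θ : ℝ → ℝ} (hρ : ContDiff ℝ 1 ρ) (hθ : ContDiff ℝ 1 θ) :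
    ContDiff ℝ 1 fun s => pt (ρ s) (θ s) := by
  refine (contDiff_ofReal'.comp hρ).mul ?_
  have h1 : ContDiff ℝ 1 fun s => (θ s : ℂ) * I := (contDiff_ofReal'.comp hθ).mul contDiff_const
  exact (Complex.contDiff_exp (𝕜 := ℝ)).comp h1

theorem gam_smooth (s0 r φ : ℝ) : ContDiff ℝ 1 (gam s0 r φ) :=
  pt_smooth (RR_smooth s0 r) (TT_smooth φ)

theorem sgn0 {x : ℝ} (h : x ≤ 0) : sg x = 0 := Real.smoothTransition.zero_of_nonpos h
theorem sgn1 {x : ℝ} (h : 1 ≤ x) : sg x = 1 := Real.smoothTransition.one_of_one_le h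
theorem sg_nonneg (x : ℝ) : 0 ≤ sg x := Real.smoothTransition.nonneg x
theorem sg_le (x : ℝ) : sg x ≤ 1 := Real.smoothTransition.le_one x

/-- radial parameter -/
noncomputable def rho (s0 r s : ℝ) : ℝ := s0 + (r - s0) * sg s

theorem rho_smooth (s0 r : ℝ) : ContDiff ℝ 1 (rho s0 r) :=
  contDiff_const.add (contDiff_const.mul sg_smooth)

theorem rho_mem {s0 r : ℝ} (h : s0 ≤ r) (s : ℝ) : rho s0 r s ∈ Icc s0 r := by
  have h1 := sg_nonneg s
  have h2 := sg_le s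
  constructor
  · unfold rho; nlinarith
  · unfold rho; nlinarith

theorem RR_mem {s0 r : ℝ} (h : s0 ≤ r) (s : ℝ) : RR s0 r s ∈ Icc s0 r := by
  have h1 := sg_nonneg s
  have h2 := sg_le s
  have h3 := sg_nonneg (5 - s)
  have h4 := sg_le (5 - s)
  have h5 : 0 ≤ sg s * sg (5 - s) := mul_nonneg h1 h3
  have h6 : sg s * sg (5 - s) ≤ 1 := mul_le_one₀ h2 h3 h4
  constructor
  · unfold RR; nlinarith
  · unfold RR; nlinarith

theorem RR_left {s0 r s : ℝ} (h : s ≤ 4) : RR s0 r s = rho s0 r s := by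
  rw [RR, rho, sgn1 (x := 5 - s) (by linarith), mul_one]

theorem RR_refl {s0 r s : ℝ} : RR s0 r (5 - s) = RR s0 r s := by
  rw [RR, RR]
  have : (5:ℝ) - (5 - s) = s := by ring
  rw [this, mul_comm (sg (5 - s))]

theorem RR_outer {s0 r s : ℝ} (h1 : 1 ≤ s) (h2 : s ≤ 4) : RR s0 r s = r := by
  rw [RR_left h2, rho, sgn1 h1]; ring

theorem RR_inner {s0 r s : ℝ} (h1 : 5 ≤ s) : RR s0 r s = s0 := by
  rw [RR, sgn0 (x := 5 - s) (by linarith)]; ring

theorem TT_left {φ s : ℝ} (h : s ≤ 2) : TT φ s = φ + Real.pi / 3 := by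
  rw [TT, sgn0 (x := s - 2) (by linarith), sgn0 (x := s - 6) (by linarith)]; ring

theorem TT_mid {φ s : ℝ} (h1 : 3 ≤ s) (h2 : s ≤ 6) : TT φ s = φ := by
  rw [TT, sgn1 (x := s - 2) (by linarith), sgn0 (x := s - 6) (by linarith)]; ring

theorem TT_right {φ s : ℝ} (h1 : 3 ≤ s) : TT φ s = φ + Real.pi / 3 * sg (s - 6) := by
  rw [TT, sgn1 (x := s - 2) (by linarith)]; ring

theorem TT_mem (φ s : ℝ) : TT φ s ∈ Icc φ (φ + Real.pi / 3) := by
  have hpi := Real.pi_pos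
  have h1 : sg (s - 6) ≤ sg (s - 2) := Real.smoothTransition.monotone (by linarith)
  have h2 := sg_le (s - 2)
  have h3 := sg_nonneg (s - 6)
  constructor
  · unfold TT; nlinarith
  · unfold TT; nlinarith

/-- the loop is closed and stays in the disc. -/
theorem gam_loop {s0 r φ : ℝ} (h0 : 0 ≤ s0) (h1 : s0 ≤ r) (h2 : r < 1) :
    Loop 7 (gam s0 r φ) := by
  refine ⟨gam_smooth s0 r φ, ?_, fun t => ?_⟩
  · have e1 : RR s0 r 7 = s0 := RR_inner (by norm_num)
    have e2 : RR s0 r 0 = s0 := by rw [RR_left (by norm_num), rho, sgn0 le_rfl]; ring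
    have e3 : TT φ 7 = φ + Real.pi / 3 := by
      rw [TT_right (by norm_num), sgn1 (x := 7 - 6) (by norm_num)]; ring
    have e4 : TT φ 0 = φ + Real.pi / 3 := TT_left (by norm_num)
    rw [gam, gam, e1, e2, e3, e4]
  · have := RR_mem h1 t
    exact pt_mem (by rw [abs_lt]; constructor <;> linarith [this.1, this.2])

theorem rot_loop {T : ℝ} {γ : ℝ → ℂ} (h : Loop T γ) {c : ℂ} (hc : ‖c‖ = 1) :
    Loop T (fun s => c * γ s) :=
  ⟨contDiff_const.mul h.smooth, by rw [h.closed], fun t => by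
    have : ‖γ t‖ < 1 := by simpa using h.mem t
    simpa [hc] using this⟩

/-- stage 1: radially out along `φ + π/3`. -/
theorem gam_st1 {s0 r φ s : ℝ} (h : s ≤ 2) :
    gam s0 r φ s = pt (rho s0 r s) (φ + Real.pi / 3) := by
  rw [gam, RR_left (by linarith), TT_left h]

theorem kgam_st1 {s0 r φ s : ℝ} (h : s ≤ 2) :
    kap * gam s0 r φ s = pt (rho s0 r s) φ := by
  rw [gam_st1 h, kap_mul_pt]; congr 1; ring

/-- stage 3: radially in along `φ`. -/
theorem gam_st3 {s0 r φ s : ℝ} (h : s ≤ 2) (h' : -1 ≤ s) :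
    gam s0 r φ (5 - s) = pt (rho s0 r s) φ := by
  rw [gam, RR_refl, RR_left (by linarith), TT_mid (by linarith) (by linarith)]

theorem kgam_st3 {s0 r φ s : ℝ} (h : s ≤ 2) (h' : -1 ≤ s) :
    kap * gam s0 r φ (5 - s) = pt (rho s0 r s) (φ - Real.pi / 3) := by
  rw [gam_st3 h h', kap_mul_pt]

/-- classification of the points of the loop. -/
theorem gam_cases {s0 r : ℝ} (h : s0 ≤ r) (φ s : ℝ) :
    (∃ ρ ∈ Icc s0 r, gam s0 r φ s = pt ρ (φ + Real.pi / 3)) ∨
    (∃ ρ ∈ Icc s0 r, gam s0 r φ s = pt ρ φ) ∨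
    (∃ θ ∈ Icc φ (φ + Real.pi / 3), gam s0 r φ s = pt r θ) ∨
    (∃ θ ∈ Icc φ (φ + Real.pi / 3), gam s0 r φ s = pt s0 θ) := by
  rcases le_total s 2 with h1 | h1
  · left
    exact ⟨_, rho_mem h s, gam_st1 h1⟩
  rcases le_total s 4 with h2 | h2
  · right; right; left
    exact ⟨TT φ s, TT_mem φ s, by rw [gam, RR_outer (by linarith) h2]⟩
  rcases le_total s 6 with h3 | h3
  · right; left
    exact ⟨RR s0 r s, RR_mem h s, by rw [gam, TT_mid (by linarith) h3]⟩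
  · right; right; right
    exact ⟨TT φ s, TT_mem φ s, by rw [gam, RR_inner (by linarith)]⟩

end A4
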