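import Mathlib
import Pool.Agent.Helper40.A4.Path

/-!
Configuration of logarithms along the two loops and the general identity.
-/

open Complex Set MeasureTheory Metric Filter Topology intervalIntegral

namespace A4

/-- the functional equations on the unit disc. -/
structure Sys (D Y : ℂ → ℂ) : Prop where
  dD : TameFn D
  dY : TameFn Y
  rD : TameFn (fun ξ => D (kap * ξ))
  rY : TameFn (fun ξ => Y (kap * ξ))
  rel1 : ∀ ξ ∈ ball (0:ℂ) 1, D (kap * ξ) * D (kap⁻¹ * ξ) = 1 + Y ξ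
  rel2 : ∀ ξ ∈ ball (0:ℂ) 1, Y (kap * ξ) * Y (kap⁻¹ * ξ) = (1 - D ξ) ^ 2

/-- no zero on the three rays and on the two arcs. -/
structure Good (f : ℂ → ℂ) (s0 r φ : ℝ) : Prop where
  ray0 : ∀ ρ ∈ Icc s0 r, f (pt ρ φ) ≠ 0
  rayp : ∀ ρ ∈ Icc s0 r, f (pt ρ (φ + Real.pi / 3)) ≠ 0
  raym : ∀ ρ ∈ Icc s0 r, f (pt ρ (φ - Real.pi / 3)) ≠ 0
  arco : ∀ θ ∈ Icc (φ - Real.pi / 3) (φ + Real.pi / 3), f (pt r θ) ≠ 0
  arci : ∀ θ ∈ Icc (φ - Real.pi / 3) (φ + Real.pi / 3), f (pt s0 θ) ≠ 0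

theorem Good.ne {f : ℂ → ℂ} {s0 r φ : ℝ} (h : Good f s0 r φ) (hr : s0 ≤ r) (s : ℝ) :
    f (gam s0 r φ s) ≠ 0 := by
  have hpi := Real.pi_pos
  rcases gam_cases hr φ s with ⟨ρ, hρ, e⟩ | ⟨ρ, hρ, e⟩ | ⟨θ, hθ, e⟩ | ⟨θ, hθ, e⟩ <;> rw [e]
  · exact h.rayp ρ hρ
  · exact h.ray0 ρ hρ
  · exact h.arco θ ⟨by linarith [hθ.1], hθ.2⟩
  · exact h.arci θ ⟨by linarith [hθ.1], hθ.2⟩

theorem Good.kne {f : ℂ → ℂ} {s0 r φ : ℝ} (h : Good f s0 r φ) (hr : s0 ≤ r) (s : ℝ) :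
    f (kap * gam s0 r φ s) ≠ 0 := by
  have hpi := Real.pi_pos
  rcases gam_cases hr φ s with ⟨ρ, hρ, e⟩ | ⟨ρ, hρ, e⟩ | ⟨θ, hθ, e⟩ | ⟨θ, hθ, e⟩ <;>
    rw [e, kap_mul_pt]
  · rw [add_sub_cancel_right]; exact h.ray0 ρ hρ
  · exact h.raym ρ hρ
  · exact h.arco _ ⟨by linarith [hθ.1], by linarith [hθ.2]⟩
  · exact h.arci _ ⟨by linarith [hθ.1], by linarith [hθ.2]⟩

/-- the configuration -/
structure Cfg (D Y : ℂ → ℂ) (s0 r φ : ℝ) where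
  uF : ℝ → ℂ
  vF : ℝ → ℂ
  uG : ℝ → ℂ
  vG : ℝ → ℂ
  A0 : ℝ → ℂ
  Ap : ℝ → ℂ
  Am : ℝ → ℂ
  B0 : ℝ → ℂ
  Bp : ℝ → ℂ
  Bm : ℝ → ℂ
  Nn : ℝ → ℂ
  c_uF : ContDiff ℝ 1 uF
  c_vF : ContDiff ℝ 1 vF
  c_uG : ContDiff ℝ 1 uG
  c_vG : ContDiff ℝ 1 vG
  c_A0 : ContDiff ℝ 1 A0
  c_Ap : ContDiff ℝ 1 Ap
  c_Am : ContDiff ℝ 1 Am
  c_B0 : ContDiff ℝ 1 B0
  c_Bp : ContDiff ℝ 1 Bp
  c_Bm : ContDiff ℝ 1 Bm
  c_Nn : ContDiff ℝ 1 Nn
  e_uF : ∀ s, Complex.exp (uF s) = D (kap * gam s0 r φ s)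
  e_vF : ∀ s, Complex.exp (vF s) = Y (gam s0 r φ s)
  e_uG : ∀ s, Complex.exp (uG s) = D (gam s0 r φ s)
  e_vG : ∀ s, Complex.exp (vG s) = Y (kap * gam s0 r φ s)
  e_A0 : ∀ s, Complex.exp (A0 s) = D (pt (rho s0 r s) φ)
  e_Ap : ∀ s, Complex.exp (Ap s) = D (pt (rho s0 r s) (φ + Real.pi / 3))
  e_Am : ∀ s, Complex.exp (Am s) = D (pt (rho s0 r s) (φ - Real.pi / 3))
  e_B0 : ∀ s, Complex.exp (B0 s) = Y (pt (rho s0 r s) φ)
  e_Bp : ∀ s, Complex.exp (Bp s) = Y (pt (rho s0 r s) (φ + Real.pi / 3))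
  e_Bm : ∀ s, Complex.exp (Bm s) = Y (pt (rho s0 r s) (φ - Real.pi / 3))
  e_Nn : ∀ s, Complex.exp (Nn s) = 1 - D (pt (rho s0 r s) φ)
  m1 : ∀ s ∈ Ioo (-1:ℝ) 2, uF s = A0 s
  m2 : ∀ s ∈ Ioo (-1:ℝ) 2, uF (5 - s) = Am s
  m3 : ∀ s ∈ Ioo (-1:ℝ) 2, vF s = Bp s
  m4 : ∀ s ∈ Ioo (-1:ℝ) 2, vF (5 - s) = B0 s
  m5 : ∀ s ∈ Ioo (-1:ℝ) 2, uG s = Ap s
  m6 : ∀ s ∈ Ioo (-1:ℝ) 2, uG (5 - s) = A0 s
  m7 : ∀ s ∈ Ioo (-1:ℝ) 2, vG s = B0 s
  m8 : ∀ s ∈ Ioo (-1:ℝ) 2, vG (5 - s) = Bm s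
  anch : A0 1 = Complex.log (D (pt r φ))

theorem adjust {l m h : ℝ → ℂ} (hl : ContDiff ℝ 1 l) (he : ∀ s, Complex.exp (l s) = h s)
    (hm : ContDiff ℝ 1 m) (hh : ∀ s ∈ Ioo (-1:ℝ) 2, Complex.exp (m s) = h s) :
    ∃ l' : ℝ → ℂ, ContDiff ℝ 1 l' ∧ (∀ s, Complex.exp (l' s) = h s) ∧
      ∀ s ∈ Ioo (-1:ℝ) 2, l' s = m s := by
  have h0 : (0:ℝ) ∈ Ioo (-1:ℝ) 2 := by constructor <;> norm_num
  obtain ⟨k, hk⟩ := Complex.exp_eq_exp_iff_exists_int.1 ((hh 0 h0).trans (he 0).symm)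
  refine ⟨fun s => l s + k * (2 * Real.pi * I), hl.add contDiff_const, fun s => ?_, fun s hs => ?_⟩
  · rw [Complex.exp_add, Complex.exp_int_mul_two_pi_mul_I, mul_one, he]
  · have key : ∀ t ∈ Ioo (-1:ℝ) 2, HasDerivAt (fun t => m t - l t) 0 t := by
      intro t ht
      have e1 := (hl.differentiable one_ne_zero t).hasDerivAt.cexp
      have e2 := (hm.differentiable one_ne_zero t).hasDerivAt.cexp
      have e3 : (fun t => Complex.exp (m t)) =ᶠ[𝓝 t] fun t => Complex.exp (l t) := by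
        filter_upwards [isOpen_Ioo.mem_nhds ht] with x hx
        rw [hh x hx, he]
      have e4 := (e1.congr_of_eventuallyEq e3).unique e2
      rw [hh t ht, he] at e4
      have hne : h t ≠ 0 := by rw [← he]; exact Complex.exp_ne_zero _
      have e5 := mul_left_cancel₀ hne e4
      have := (hm.differentiable one_ne_zero t).hasDerivAt.sub
        (hl.differentiable one_ne_zero t).hasDerivAt
      rw [e5, sub_self] at this
      exact this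
    have := isOpen_Ioo.is_const_of_deriv_eq_zero (isPreconnected_Ioo)
      (fun t ht => (key t ht).differentiableAt.differentiableWithinAt)
      (fun t ht => (key t ht).deriv) hs h0
    simp only [hk] at this
    linear_combination -this

theorem refl_smooth {l : ℝ → ℂ} (hl : ContDiff ℝ 1 l) : ContDiff ℝ 1 fun s => l (5 - s) :=
  hl.comp (contDiff_const.sub contDiff_id)

theorem radial_smooth (s0 r θ : ℝ) : ContDiff ℝ 1 fun s => pt (rho s0 r s) θ :=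
  pt_smooth (rho_smooth s0 r) contDiff_const

theorem comp_smooth {f : ℂ → ℂ} (hf : DifferentiableOn ℂ f (ball 0 1)) {γ : ℝ → ℂ}
    (hγ : ContDiff ℝ 1 γ) (hm : ∀ t, γ t ∈ ball (0:ℂ) 1) : ContDiff ℝ 1 fun t => f (γ t) := by
  have h1 : ContDiffOn ℂ 1 f (ball 0 1) := hf.contDiffOn isOpen_ball
  have h2 : ContDiffOn ℝ 1 f (ball 0 1) := h1.restrict_scalars ℝ
  exact h2.comp_contDiff hγ hm

theorem exists_Cfg {D Y : ℂ → ℂ} (S : Sys D Y) {s0 r φ : ℝ} (h0 : 0 ≤ s0) (h1 : s0 ≤ r)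
    (h2 : r < 1) (gD : Good D s0 r φ) (gY : Good Y s0 r φ) : Nonempty (Cfg D Y s0 r φ) := by
  have hL := gam_loop (φ := φ) h0 h1 h2
  have hLk := rot_loop hL norm_kap
  have dD := S.dD.differentiableOn
  have dY := S.dY.differentiableOn
  have hrm : ∀ θ s, pt (rho s0 r s) θ ∈ ball (0:ℂ) 1 := by
    intro θ s
    have := rho_mem h1 s
    exact pt_mem (by rw [abs_lt]; constructor <;> linarith [this.1, this.2])
  have hrs := fun θ => radial_smooth s0 r θ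
  have hrho := fun s => rho_mem h1 s
  -- A0
  obtain ⟨A, cA, eA⟩ := exists_lift (comp_smooth dD (hrs φ) (hrm φ)) (fun s => gD.ray0 _ (hrho s))
  have hr1 : rho s0 r 1 = r := by rw [rho, sgn1 le_rfl]; ring
  obtain ⟨k, hk⟩ := log_diff (eA 1) (gD.ray0 _ (hrho 1))
  set A0 : ℝ → ℂ := fun s => A s + -(k * (2 * Real.pi * I)) with hA0
  have cA0 : ContDiff ℝ 1 A0 := cA.add contDiff_const
  have eA0 : ∀ s, Complex.exp (A0 s) = D (pt (rho s0 r s) φ) := by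
    intro s
    rw [hA0]
    simp only
    rw [Complex.exp_add, Complex.exp_neg, Complex.exp_int_mul_two_pi_mul_I, inv_one, mul_one, eA]
  have anch : A0 1 = Complex.log (D (pt r φ)) := by
    simp only [hr1] at hk
    rw [hA0]
    linear_combination hk
  -- uF
  obtain ⟨l1, cl1, el1⟩ := exists_lift (comp_smooth dD hLk.smooth hLk.mem) (fun s => gD.kne h1 s)
  obtain ⟨uF, c_uF, e_uF, m1⟩ := adjust cl1 el1 cA0 (fun s hs => by
    rw [eA0, kgam_st1 hs.2.le])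
  -- Am
  obtain ⟨l2, cl2, el2⟩ := exists_lift (comp_smooth dD (hrs (φ - Real.pi / 3)) (hrm _))
    (fun s => gD.raym _ (hrho s))
  obtain ⟨Am, c_Am, e_Am, m2⟩ := adjust cl2 el2 (refl_smooth c_uF) (fun s hs => by
    rw [e_uF, kgam_st3 hs.2.le hs.1.le])
  -- vF
  obtain ⟨vF, c_vF, e_vF⟩ := exists_lift (comp_smooth dY hL.smooth hL.mem) (fun s => gY.ne h1 s)
  obtain ⟨l3, cl3, el3⟩ := exists_lift (comp_smooth dY (hrs (φ + Real.pi / 3)) (hrm _))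
    (fun s => gY.rayp _ (hrho s))
  obtain ⟨Bp, c_Bp, e_Bp, m3⟩ := adjust cl3 el3 c_vF (fun s hs => by
    rw [e_vF, gam_st1 hs.2.le])
  obtain ⟨l4, cl4, el4⟩ := exists_lift (comp_smooth dY (hrs φ) (hrm _))
    (fun s => gY.ray0 _ (hrho s))
  obtain ⟨B0, c_B0, e_B0, m4⟩ := adjust cl4 el4 (refl_smooth c_vF) (fun s hs => by
    rw [e_vF, gam_st3 hs.2.le hs.1.le])
  -- uG
  obtain ⟨l5, cl5, el5⟩ := exists_lift (comp_smooth dD hL.smooth hL.mem) (fun s => gD.ne h1 s)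
  obtain ⟨l5', cl5', el5', m6'⟩ := adjust (refl_smooth cl5) (fun s => el5 (5 - s)) cA0
    (fun s hs => by rw [eA0, gam_st3 hs.2.le hs.1.le])
  have c_uG := refl_smooth cl5'
  have e_uG : ∀ s, Complex.exp (l5' (5 - s)) = D (gam s0 r φ s) := by
    intro s
    rw [el5', sub_sub_cancel]
  have m6 : ∀ s ∈ Ioo (-1:ℝ) 2, (fun s => l5' (5 - s)) (5 - s) = A0 s := by
    intro s hs
    simp only [sub_sub_cancel]
    exact m6' s hs
  obtain ⟨l6, cl6, el6⟩ := exists_lift (comp_smooth dD (hrs (φ + Real.pi / 3)) (hrm _))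
    (fun s => gD.rayp _ (hrho s))
  obtain ⟨Ap, c_Ap, e_Ap, m5⟩ := adjust cl6 el6 c_uG (fun s hs => by
    rw [e_uG, gam_st1 hs.2.le])
  -- vG
  obtain ⟨l7, cl7, el7⟩ := exists_lift (comp_smooth dY hLk.smooth hLk.mem) (fun s => gY.kne h1 s)
  obtain ⟨vG, c_vG, e_vG, m7⟩ := adjust cl7 el7 c_B0 (fun s hs => by
    rw [e_B0, kgam_st1 hs.2.le])
  obtain ⟨l8, cl8, el8⟩ := exists_lift (comp_smooth dY (hrs (φ - Real.pi / 3)) (hrm _))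
    (fun s => gY.raym _ (hrho s))
  obtain ⟨Bm, c_Bm, e_Bm, m8⟩ := adjust cl8 el8 (refl_smooth c_vG) (fun s hs => by
    rw [e_vG, kgam_st3 hs.2.le hs.1.le])
  -- Nn
  obtain ⟨Nn, c_Nn, e_Nn⟩ := exists_lift (h := fun s => 1 - D (pt (rho s0 r s) φ))
    (contDiff_const.sub (comp_smooth dD (hrs φ) (hrm φ))) (fun s => by
      have h3 := S.rel2 _ (hrm φ s)
      rw [kap_mul_pt, kap_inv_mul_pt] at h3
      intro h4
      rw [h4, zero_pow two_ne_zero] at h3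
      exact mul_ne_zero (gY.raym _ (hrho s)) (gY.rayp _ (hrho s)) h3)
  exact ⟨{ uF := uF, vF := vF, uG := fun s => l5' (5 - s), vG := vG, A0 := A0, Ap := Ap, Am := Am,
           B0 := B0, Bp := Bp, Bm := Bm, Nn := Nn, c_uF := c_uF, c_vF := c_vF, c_uG := c_uG,
           c_vG := c_vG, c_A0 := cA0, c_Ap := c_Ap, c_Am := c_Am, c_B0 := c_B0, c_Bp := c_Bp,
           c_Bm := c_Bm, c_Nn := c_Nn, e_uF := e_uF, e_vF := e_vF, e_uG := e_uG, e_vG := e_vG,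
           e_A0 := eA0, e_Ap := e_Ap, e_Am := e_Am, e_B0 := e_B0, e_Bp := e_Bp, e_Bm := e_Bm,
           e_Nn := e_Nn, m1 := m1, m2 := fun s hs => (m2 s hs).symm, m3 := fun s hs => (m3 s hs).symm,
           m4 := fun s hs => (m4 s hs).symm, m5 := fun s hs => (m5 s hs).symm, m6 := m6,
           m7 := m7, m8 := fun s hs => (m8 s hs).symm, anch := anch }⟩

end A4
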