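import Mathlib
import Pool.Agent.Helper40.A4.Cfg

/-!
The general identity for a configuration.
-/

open Complex Set MeasureTheory Metric Filter Topology intervalIntegral

namespace A4

theorem mem_II {x : ℝ} (h : x ∈ Icc (0:ℝ) 1) : x ∈ Ioo (-1:ℝ) 2 :=
  ⟨by linarith [h.1], by linarith [h.2]⟩

/-- integral over stage 1 -/
theorem int_st1 {u v a b : ℝ → ℂ} (h1 : ∀ s ∈ Ioo (-1:ℝ) 2, u s = a s)
    (h2 : ∀ s ∈ Ioo (-1:ℝ) 2, v s = b s) :
    (∫ s in (0:ℝ)..1, u s * deriv v s) = ∫ s in (0:ℝ)..1, a s * deriv b s := by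
  refine intervalIntegral.integral_congr fun s hs => ?_
  rw [uIcc_of_le zero_le_one] at hs
  have hs' := mem_II hs
  have e : v =ᶠ[𝓝 s] b := by
    filter_upwards [isOpen_Ioo.mem_nhds hs'] with x hx using h2 x hx
  rw [h1 s hs', e.deriv_eq]

/-- integral over stage 3 -/
theorem int_st3 {u v a b : ℝ → ℂ} (hv : ContDiff ℝ 1 v) (h1 : ∀ s ∈ Ioo (-1:ℝ) 2, u (5 - s) = a s)
    (h2 : ∀ s ∈ Ioo (-1:ℝ) 2, v (5 - s) = b s) :
    (∫ s in (4:ℝ)..5, u s * deriv v s) = -∫ s in (0:ℝ)..1, a s * deriv b s := by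
  have e0 := intervalIntegral.integral_comp_sub_left (fun s => u s * deriv v s) (5:ℝ)
    (a := (0:ℝ)) (b := 1)
  have e1 : (5:ℝ) - 1 = 4 := by norm_num
  rw [e1, sub_zero] at e0
  rw [← e0, ← intervalIntegral.integral_neg]
  refine intervalIntegral.integral_congr fun s hs => ?_
  rw [uIcc_of_le zero_le_one] at hs
  have hs' := mem_II hs
  have e : (fun x => v (5 - x)) =ᶠ[𝓝 s] b := by
    filter_upwards [isOpen_Ioo.mem_nhds hs'] with x hx using h2 x hx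
  have d1 : HasDerivAt (fun x : ℝ => v (5 - x)) (-(deriv v (5 - s))) s := by
    have h3 : HasDerivAt (fun x : ℝ => 5 - x) (-1) s := (hasDerivAt_id s).const_sub 5
    have h4 := (hv.differentiable one_ne_zero (5 - s)).hasDerivAt.scomp s h3
    rw [neg_one_smul] at h4
    exact h4
  have e2 := e.deriv_eq
  rw [d1.deriv] at e2
  rw [h1 s hs', ← e2]
  ring

variable {D Y : ℂ → ℂ} {s0 r φ : ℝ}

/-- the outer arcs -/
noncomputable def Cfg.XF (C : Cfg D Y s0 r φ) : ℂ := ∫ s in (1:ℝ)..4, C.uF s * deriv C.vF s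
noncomputable def Cfg.XG (C : Cfg D Y s0 r φ) : ℂ := ∫ s in (1:ℝ)..4, C.uG s * deriv C.vG s
/-- the inner arcs -/
noncomputable def Cfg.IF (C : Cfg D Y s0 r φ) : ℂ := ∫ s in (5:ℝ)..7, C.uF s * deriv C.vF s
noncomputable def Cfg.IG (C : Cfg D Y s0 r φ) : ℂ := ∫ s in (5:ℝ)..7, C.uG s * deriv C.vG s

theorem split_int {u v : ℝ → ℂ} (hu : ContDiff ℝ 1 u) (hv : ContDiff ℝ 1 v) :
    (∫ s in (0:ℝ)..7, u s * deriv v s) = (∫ s in (0:ℝ)..1, u s * deriv v s) +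
      (∫ s in (1:ℝ)..4, u s * deriv v s) + (∫ s in (4:ℝ)..5, u s * deriv v s) +
      (∫ s in (5:ℝ)..7, u s * deriv v s) := by
  rw [intervalIntegral.integral_add_adjacent_intervals (ii hu hv _ _) (ii hu hv _ _),
    intervalIntegral.integral_add_adjacent_intervals (ii hu hv _ _) (ii hu hv _ _),
    intervalIntegral.integral_add_adjacent_intervals (ii hu hv _ _) (ii hu hv _ _)]

theorem radial_mem (h0 : 0 ≤ s0) (h1 : s0 ≤ r) (h2 : r < 1) (θ s : ℝ) :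
    pt (rho s0 r s) θ ∈ ball (0:ℂ) 1 := by
  have := rho_mem h1 s
  exact pt_mem (by rw [abs_lt]; constructor <;> linarith [this.1, this.2])

/-- `M = A₊ + A₋`, a logarithm of `1 + y`. -/
noncomputable def Cfg.M (C : Cfg D Y s0 r φ) (s : ℝ) : ℂ := C.Ap s + C.Am s
/-- `U = B₀ + π i`, a logarithm of `-y`. -/
noncomputable def Cfg.U (C : Cfg D Y s0 r φ) (s : ℝ) : ℂ := C.B0 s + Real.pi * I

theorem Cfg.steinberg1 (C : Cfg D Y s0 r φ) :
    E (∫ s in (0:ℝ)..1, C.A0 s * deriv C.Nn s) =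
      Phi (C.Nn 1) (C.A0 1) / Phi (C.Nn 0) (C.A0 0) := by
  rw [eq_div_iff (Phi_ne_zero _ _)]
  refine steinberg (fun t => (C.c_Nn.differentiable one_ne_zero t).hasDerivAt)
    (fun t => (C.c_A0.differentiable one_ne_zero t).hasDerivAt) (C.c_Nn.continuous_deriv le_rfl)
    (fun t => ?_) 0 1
  rw [C.e_Nn, C.e_A0]; ring

theorem Cfg.expM (C : Cfg D Y s0 r φ) (S : Sys D Y) (h0 : 0 ≤ s0) (h1 : s0 ≤ r) (h2 : r < 1)
    (s : ℝ) : Complex.exp (C.M s) = 1 + Y (pt (rho s0 r s) φ) := by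
  rw [Cfg.M, Complex.exp_add, C.e_Ap, C.e_Am, ← S.rel1 _ (radial_mem h0 h1 h2 φ s),
    kap_mul_pt, kap_inv_mul_pt, mul_comm]

theorem Cfg.expU (C : Cfg D Y s0 r φ) (s : ℝ) :
    Complex.exp (C.U s) = -Y (pt (rho s0 r s) φ) := by
  rw [Cfg.U, Complex.exp_add, C.e_B0, Complex.exp_pi_mul_I]; ring

theorem Cfg.steinberg2 (C : Cfg D Y s0 r φ) (S : Sys D Y) (h0 : 0 ≤ s0) (h1 : s0 ≤ r)
    (h2 : r < 1) :
    E (∫ s in (0:ℝ)..1, C.M s * deriv C.B0 s) =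
      Phi (C.U 1) (C.M 1) / Phi (C.U 0) (C.M 0) := by
  rw [eq_div_iff (Phi_ne_zero _ _)]
  refine steinberg (U := C.U) (V := C.M) (V' := fun t => deriv C.M t) (fun t => ?_)
    (fun t => ?_) (C.c_B0.continuous_deriv le_rfl) (fun t => ?_) 0 1
  · exact (C.c_B0.differentiable one_ne_zero t).hasDerivAt.add_const _
  · exact ((C.c_Ap.add C.c_Am).differentiable one_ne_zero t).hasDerivAt
  · rw [C.expM S h0 h1 h2, C.expU]; ring

theorem Cfg.deriv_Nn (C : Cfg D Y s0 r φ) (S : Sys D Y) (h0 : 0 ≤ s0) (h1 : s0 ≤ r)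
    (h2 : r < 1) (s : ℝ) : deriv C.Bp s + deriv C.Bm s = 2 * deriv C.Nn s := by
  have h3 : ∀ t, Complex.exp (C.Bp t + C.Bm t) = Complex.exp (2 * C.Nn t) := by
    intro t
    have h4 := S.rel2 _ (radial_mem h0 h1 h2 φ t)
    rw [kap_mul_pt, kap_inv_mul_pt] at h4
    have h5 : Complex.exp (2 * C.Nn t) = Complex.exp (C.Nn t) ^ 2 := by
      rw [← Complex.exp_nat_mul]; norm_num
    rw [Complex.exp_add, C.e_Bp, C.e_Bm, h5, C.e_Nn, ← h4, mul_comm]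
  have cB : ContDiff ℝ 1 fun t => C.Bp t + C.Bm t := C.c_Bp.add C.c_Bm
  have cN : ContDiff ℝ 1 fun t => 2 * C.Nn t := contDiff_const.mul C.c_Nn
  obtain ⟨k, hk⟩ := lift_unique cB cN h3
  have e1 : deriv (fun t => C.Bp t + C.Bm t) s = deriv C.Bp s + deriv C.Bm s :=
    deriv_fun_add (C.c_Bp.differentiable one_ne_zero s) (C.c_Bm.differentiable one_ne_zero s)
  have e2 : deriv (fun t => 2 * C.Nn t + k * (2 * Real.pi * I)) s = 2 * deriv C.Nn s := by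
    have := ((C.c_Nn.differentiable one_ne_zero s).hasDerivAt.const_mul 2).add_const
      ((k:ℂ) * (2 * Real.pi * I))
    exact this.deriv
  rw [← e1, ← e2]
  congr 1
  funext t
  exact hk t

theorem Cfg.J_diff (C : Cfg D Y s0 r φ) (S : Sys D Y) (h0 : 0 ≤ s0) (h1 : s0 ≤ r)
    (h2 : r < 1) :
    J 7 C.uF C.vF - J 7 C.uG C.vG =
      2 * (∫ s in (0:ℝ)..1, C.A0 s * deriv C.Nn s) - (∫ s in (0:ℝ)..1, C.M s * deriv C.B0 s)
      + (C.XF - C.XG + C.IF - C.IG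
        - C.vF 0 * (C.uF 7 - C.uF 0) + C.vG 0 * (C.uG 7 - C.uG 0)) := by
  have a1 := int_st1 C.m1 C.m3
  have a2 := int_st3 C.c_vF C.m2 C.m4
  have a3 := int_st1 C.m5 C.m7
  have a4 := int_st3 C.c_vG C.m6 C.m8
  have b1 : (∫ s in (0:ℝ)..1, C.A0 s * deriv C.Bp s) + (∫ s in (0:ℝ)..1, C.A0 s * deriv C.Bm s) =
      2 * ∫ s in (0:ℝ)..1, C.A0 s * deriv C.Nn s := by
    rw [← intervalIntegral.integral_add (ii C.c_A0 C.c_Bp _ _) (ii C.c_A0 C.c_Bm _ _),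
      ← intervalIntegral.integral_const_mul]
    refine intervalIntegral.integral_congr fun s _ => ?_
    have := C.deriv_Nn S h0 h1 h2 s
    rw [← mul_add, this]; ring
  have b2 : (∫ s in (0:ℝ)..1, C.Ap s * deriv C.B0 s) + (∫ s in (0:ℝ)..1, C.Am s * deriv C.B0 s) =
      ∫ s in (0:ℝ)..1, C.M s * deriv C.B0 s := by
    rw [← intervalIntegral.integral_add (ii C.c_Ap C.c_B0 _ _) (ii C.c_Am C.c_B0 _ _)]
    refine intervalIntegral.integral_congr fun s _ => ?_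
    simp only [Cfg.M]
    ring
  rw [J, J, split_int C.c_uF C.c_vF, split_int C.c_uG C.c_vG, a1, a2, a3, a4, ← b1, ← b2,
    Cfg.XF, Cfg.XG, Cfg.IF, Cfg.IG]
  ring

/-- **the general identity** -/
theorem Cfg.general (C : Cfg D Y s0 r φ) (S : Sys D Y) (h0 : 0 ≤ s0) (h1 : s0 ≤ r)
    (h2 : r < 1) :
    (Phi (C.Nn 1) (C.A0 1) / Phi (C.Nn 0) (C.A0 0)) ^ 2 *
      (Phi (C.U 0) (C.M 0) / Phi (C.U 1) (C.M 1)) *
      E (C.XF - C.XG + C.IF - C.IG
        - C.vF 0 * (C.uF 7 - C.uF 0) + C.vG 0 * (C.uG 7 - C.uG 0)) =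
    Complex.exp (((C.uF 7 - C.uF 0) - (C.uG 7 - C.uG 0)) / 2) := by
  have hL := gam_loop (φ := φ) h0 h1 h2
  have hLk := rot_loop hL norm_kap
  have hk : ∀ ξ ∈ ball (0:ℂ) 1, kap * ξ ∈ ball (0:ℂ) 1 := by
    intro ξ hξ
    have : ‖ξ‖ < 1 := by simpa using hξ
    simpa [norm_kap] using this
  have tF : E (J 7 C.uF C.vF) = Complex.exp ((C.uF 7 - C.uF 0) / 2) := by
    refine tame' hL S.rD S.dY C.c_uF C.e_uF C.c_vF C.e_vF ?_ ?_
    · intro ξ hξ hy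
      have h3 := S.rel2 _ (hk ξ hξ)
      rw [inv_mul_cancel_left₀ kap_ne, hy, mul_zero] at h3
      have h4 : 1 - D (kap * ξ) = 0 := by
        rcases pow_eq_zero_iff (two_ne_zero) |>.1 h3.symm with h
        exact h
      linear_combination -h4
    · intro ξ hξ hd
      have h3 := S.rel1 _ hξ
      rw [hd, zero_mul] at h3
      linear_combination -h3
  have tG : E (J 7 C.uG C.vG) = Complex.exp ((C.uG 7 - C.uG 0) / 2) := by
    refine tame' hL S.dD S.rY C.c_uG C.e_uG C.c_vG C.e_vG ?_ ?_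
    · intro ξ hξ hy
      have h3 := S.rel2 _ hξ
      rw [hy, zero_mul] at h3
      have h4 : 1 - D ξ = 0 := by
        rcases pow_eq_zero_iff (two_ne_zero) |>.1 h3.symm with h
        exact h
      linear_combination -h4
    · intro ξ hξ hd
      have h3 := S.rel1 _ (hk ξ hξ)
      rw [inv_mul_cancel_left₀ kap_ne, hd, mul_zero] at h3
      linear_combination -h3
  have e1 : E (J 7 C.uF C.vF - J 7 C.uG C.vG) =
      Complex.exp (((C.uF 7 - C.uF 0) - (C.uG 7 - C.uG 0)) / 2) := by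
    rw [E_sub, tF, tG, ← Complex.exp_sub]
    congr 1; ring
  rw [← e1, C.J_diff S h0 h1 h2]
  set W := C.XF - C.XG + C.IF - C.IG
        - C.vF 0 * (C.uF 7 - C.uF 0) + C.vG 0 * (C.uG 7 - C.uG 0) with hW
  rw [E_add (_ - _) W, E_sub]
  have e2 : E (2 * ∫ s in (0:ℝ)..1, C.A0 s * deriv C.Nn s) =
      (Phi (C.Nn 1) (C.A0 1) / Phi (C.Nn 0) (C.A0 0)) ^ 2 := by
    rw [two_mul, E_add, C.steinberg1]; ring
  rw [e2, C.steinberg2 S h0 h1 h2]
  have p1 := Phi_ne_zero (C.U 1) (C.M 1)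
  have p0 := Phi_ne_zero (C.U 0) (C.M 0)
  field_simp

end A4
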