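import Mathlib
import Pool.Agent.Helper40.A4.General

/-!
The arcs as integrals over the angle.
-/

open Complex Set MeasureTheory Metric Filter Topology intervalIntegral

namespace A4

/-- logarithmic derivative in the angle at radius `ρ`. -/
noncomputable def LL (Y : ℂ → ℂ) (ρ θ : ℝ) : ℂ := deriv Y (pt ρ θ) * (pt ρ θ * I) / Y (pt ρ θ)

noncomputable def arcF (D Y : ℂ → ℂ) (ρ φ : ℝ) : ℂ :=
  ∫ θ in φ..(φ + Real.pi / 3), Complex.log (D (pt ρ (θ - Real.pi / 3))) * LL Y ρ θ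

noncomputable def arcG (D Y : ℂ → ℂ) (ρ φ : ℝ) : ℂ :=
  ∫ θ in φ..(φ + Real.pi / 3), Complex.log (D (pt ρ θ)) * LL Y ρ (θ - Real.pi / 3)

/-- the expression at radius `ρ`. -/
noncomputable def ZZ (D Y : ℂ → ℂ) (ρ φ : ℝ) : ℂ :=
  -arcF D Y ρ φ + arcG D Y ρ φ - 2 * Li2 (1 - D (pt ρ φ)) + Li2 (-Y (pt ρ φ))

theorem hasDerivAt_pt (ρ θ : ℝ) : HasDerivAt (fun θ : ℝ => pt ρ θ) (pt ρ θ * I) θ := by
  have h1 : HasDerivAt (fun θ : ℝ => (θ : ℂ)) 1 θ := Complex.ofRealCLM.hasDerivAt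
  have h2 : HasDerivAt (fun θ : ℝ => (θ : ℂ) * I) (1 * I) θ := h1.mul_const I
  have h3 := (h2.cexp).const_mul (ρ : ℂ)
  have e : (ρ : ℂ) * (Complex.exp (θ * I) * (1 * I)) = pt ρ θ * I := by rw [pt]; ring
  rw [← e]; exact h3

theorem pt_cont (ρ : ℝ) : Continuous fun θ : ℝ => pt ρ θ := by
  unfold pt; fun_prop

theorem hasDerivAt_Ypt {Y : ℂ → ℂ} (dY : DifferentiableOn ℂ Y (ball 0 1)) {ρ : ℝ} (hρ : |ρ| < 1)
    (θ : ℝ) : HasDerivAt (fun θ : ℝ => Y (pt ρ θ)) (deriv Y (pt ρ θ) * (pt ρ θ * I)) θ := by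
  have hm : pt ρ θ ∈ ball (0:ℂ) 1 := pt_mem hρ
  have h1 : HasDerivAt Y (deriv Y (pt ρ θ)) (pt ρ θ) :=
    ((dY _ hm).differentiableAt (isOpen_ball.mem_nhds hm)).hasDerivAt
  exact HasDerivAt.comp (𝕜 := ℝ) (𝕜' := ℂ) θ h1 (hasDerivAt_pt ρ θ)

theorem LL_cont {Y : ℂ → ℂ} (dY : DifferentiableOn ℂ Y (ball 0 1)) {ρ : ℝ} (hρ : |ρ| < 1)
    {S : Set ℝ} (hS : ∀ θ ∈ S, Y (pt ρ θ) ≠ 0) : ContinuousOn (LL Y ρ) S := by
  have hm : ∀ θ : ℝ, pt ρ θ ∈ ball (0:ℂ) 1 := fun θ => pt_mem hρ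
  have h1 : Continuous fun θ : ℝ => Y (pt ρ θ) :=
    dY.continuousOn.comp_continuous (pt_cont ρ) hm
  have h2 : Continuous fun θ : ℝ => deriv Y (pt ρ θ) :=
    ((dY.deriv isOpen_ball).continuousOn).comp_continuous (pt_cont ρ) hm
  exact ((h2.mul ((pt_cont ρ).mul continuous_const)).continuousOn).div h1.continuousOn hS

theorem arc_int {Y : ℂ → ℂ} (dY : DifferentiableOn ℂ Y (ball 0 1)) {ρ : ℝ} (hρ : |ρ| < 1)
    {φ α a b : ℝ} (hab : a ≤ b) {u v : ℝ → ℂ} (hv : ContDiff ℝ 1 v)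
    (he : ∀ s ∈ Icc a b, Complex.exp (v s) = Y (pt ρ (TT φ s + α)))
    {w : ℝ → ℂ} (hw : ContinuousOn w (TT φ '' Icc a b)) (huw : ∀ s ∈ Icc a b, u s = w (TT φ s)) :
    (∫ s in a..b, u s * deriv v s) =
      ∫ θ in (TT φ a)..(TT φ b), w θ * LL Y ρ (θ + α) := by
  have hT : ∀ s, HasDerivAt (TT φ) (deriv (TT φ) s) s := fun s =>
    ((TT_smooth φ).differentiable one_ne_zero s).hasDerivAt
  have hYne : ∀ s ∈ Icc a b, Y (pt ρ (TT φ s + α)) ≠ 0 := by
    intro s hs; rw [← he s hs]; exact Complex.exp_ne_zero _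
  have hdv : ∀ s ∈ Ioo a b, deriv v s = deriv (TT φ) s * LL Y ρ (TT φ s + α) := by
    intro s hs
    have h1 : HasDerivAt (fun s : ℝ => TT φ s + α) (deriv (TT φ) s) s := (hT s).add_const α
    have h2 := (hasDerivAt_Ypt dY hρ (TT φ s + α)).scomp s h1
    have h3 := (hv.differentiable one_ne_zero s).hasDerivAt.cexp
    have h4 : (fun s => Complex.exp (v s)) =ᶠ[𝓝 s] ((fun θ : ℝ => Y (pt ρ θ)) ∘ fun s => TT φ s + α) := by
      filter_upwards [isOpen_Ioo.mem_nhds hs] with x hx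
      exact he x (Ioo_subset_Icc_self hx)
    have h5 := h3.unique (h2.congr_of_eventuallyEq h4)
    rw [he s (Ioo_subset_Icc_self hs), real_smul] at h5
    have hne := hYne s (Ioo_subset_Icc_self hs)
    rw [LL]
    field_simp
    rw [mul_comm (deriv v s), h5]
    ring
  rw [intervalIntegral.integral_congr_Ioo_of_le (g := fun s =>
    deriv (TT φ) s • ((fun θ => w θ * LL Y ρ (θ + α)) ∘ (TT φ)) s) hab]
  · refine intervalIntegral.integral_deriv_smul_comp'' (TT_smooth φ).continuous.continuousOn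
      (fun x _ => (hT x).hasDerivWithinAt) ((TT_smooth φ).continuous_deriv le_rfl).continuousOn ?_
    rw [uIcc_of_le hab]
    refine hw.mul ?_
    have h6 : ContinuousOn (LL Y ρ) ((fun θ => θ + α) '' (TT φ '' Icc a b)) := by
      apply LL_cont dY hρ
      rintro _ ⟨_, ⟨s, hs, rfl⟩, rfl⟩
      exact hYne s hs
    exact h6.comp (by fun_prop) (fun x hx => mem_image_of_mem _ hx)
  · intro s hs
    simp only [Function.comp, real_smul]
    rw [hdv s hs, huw s (Ioo_subset_Icc_self hs)]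
    ring

/-- two continuous logarithms on a connected set of parameters -/
theorem log_unique_on {S : Set ℝ} (hS : IsPreconnected S) {a b : ℝ → ℂ} (ha : ContinuousOn a S)
    (hb : ContinuousOn b S) (h : ∀ s ∈ S, Complex.exp (a s) = Complex.exp (b s)) {s t : ℝ}
    (hs : s ∈ S) (ht : t ∈ S) : a s - b s = a t - b t := by
  have hint : ∀ x ∈ S, ∃ n : ℤ, a x - b x = n * (2 * Real.pi * I) := by
    intro x hx
    obtain ⟨n, hn⟩ := Complex.exp_eq_exp_iff_exists_int.1 (h x hx)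
    exact ⟨n, by rw [hn]; ring⟩
  set g : ℝ → ℝ := fun x => (a x - b x).im / (2 * Real.pi) with hg
  have hgc : ContinuousOn g S :=
    (Complex.continuous_im.comp_continuousOn (ha.sub hb)).div_const _
  have hgv : ∀ x ∈ S, ∀ n : ℤ, a x - b x = n * (2 * Real.pi * I) → g x = n := by
    intro x hx n hn
    simp only [hg]
    rw [hn]
    have : ((n:ℂ) * (2 * Real.pi * I)).im = n * (2 * Real.pi) := by simp
    rw [this]
    field_simp
  have hpre : IsPreconnected (g '' S) := hS.image g hgc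
  obtain ⟨m, hm⟩ := hint s hs
  obtain ⟨n, hn⟩ := hint t ht
  have gs := hgv s hs m hm
  have gt := hgv t ht n hn
  have hcontra : ∀ p q : ℤ, (p:ℝ) ∈ g '' S → (q:ℝ) ∈ g '' S → ¬ p < q := by
    intro p q hp hq hpq
    have h1 := hpre.Icc_subset hp hq
    have h2 : (p:ℝ) + 1/2 ∈ Icc (p:ℝ) q := by
      constructor
      · linarith
      · have : (p:ℝ) + 1 ≤ q := by exact_mod_cast hpq
        linarith
    obtain ⟨x, hx, hxe⟩ := h1 h2
    obtain ⟨k, hk⟩ := hint x hx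
    have h3 := hgv x hx k hk
    rw [h3] at hxe
    have h4 : (2 * k : ℝ) = 2 * p + 1 := by linarith
    have h5 : 2 * k = 2 * p + 1 := by exact_mod_cast h4
    omega
  have h1 := hcontra m n ⟨s, hs, gs⟩ ⟨t, ht, gt⟩
  have h2 := hcontra n m ⟨t, ht, gt⟩ ⟨s, hs, gs⟩
  have : m = n := by omega
  rw [hm, hn, this]

variable {D Y : ℂ → ℂ} {s0 r φ : ℝ}

/-- `D` is near `1` on the outer arc -/
def Near (D : ℂ → ℂ) (ρ φ : ℝ) : Prop :=
  ∀ θ ∈ Icc (φ - Real.pi / 3) (φ + Real.pi / 3), ‖D (pt ρ θ) - 1‖ < 1 / 2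

theorem near_slit {x : ℂ} (h : ‖x - 1‖ < 1 / 2) : x ∈ slitPlane := by
  have := mem_slitPlane_of_norm_lt_one (z := x - 1) (by linarith)
  rwa [add_sub_cancel] at this

theorem Near.log_cont (hN : Near D s0 φ) (dD : DifferentiableOn ℂ D (ball 0 1)) (hρ : |s0| < 1) :
    ContinuousOn (fun θ => Complex.log (D (pt s0 θ))) (Icc (φ - Real.pi / 3) (φ + Real.pi / 3)) := by
  have h1 : Continuous fun θ : ℝ => D (pt s0 θ) :=
    dD.continuousOn.comp_continuous (pt_cont s0) (fun θ => pt_mem hρ)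
  exact h1.continuousOn.clog (fun θ hθ => near_slit (hN θ hθ))

theorem TT_image (φ a b : ℝ) : TT φ '' Icc a b ⊆ Icc φ (φ + Real.pi / 3) := by
  rintro _ ⟨s, _, rfl⟩
  exact TT_mem φ s

theorem kgam_outer {s : ℝ} (h1 : 1 ≤ s) (h2 : s ≤ 4) :
    kap * gam s0 r φ s = pt r (TT φ s - Real.pi / 3) := by
  rw [gam, RR_outer h1 h2, kap_mul_pt]

theorem gam_outer {s : ℝ} (h1 : 1 ≤ s) (h2 : s ≤ 4) : gam s0 r φ s = pt r (TT φ s) := by
  rw [gam, RR_outer h1 h2]

theorem kgam_inner {s : ℝ} (h1 : 5 ≤ s) :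
    kap * gam s0 r φ s = pt s0 (TT φ s - Real.pi / 3) := by
  rw [gam, RR_inner h1, kap_mul_pt]

theorem gam_inner {s : ℝ} (h1 : 5 ≤ s) : gam s0 r φ s = pt s0 (TT φ s) := by
  rw [gam, RR_inner h1]

theorem rho_one (s0 r : ℝ) : rho s0 r 1 = r := by rw [rho, sgn1 le_rfl]; ring
theorem rho_zero (s0 r : ℝ) : rho s0 r 0 = s0 := by rw [rho, sgn0 le_rfl]; ring

theorem sub_mem_arc {θ : ℝ} (h : θ ∈ Icc φ (φ + Real.pi / 3)) :
    θ - Real.pi / 3 ∈ Icc (φ - Real.pi / 3) (φ + Real.pi / 3) := by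
  have := Real.pi_pos
  exact ⟨by linarith [h.1], by linarith [h.2]⟩

theorem mem_arc {θ : ℝ} (h : θ ∈ Icc φ (φ + Real.pi / 3)) :
    θ ∈ Icc (φ - Real.pi / 3) (φ + Real.pi / 3) := by
  have := Real.pi_pos
  exact ⟨by linarith [h.1], h.2⟩

section outer

variable (C : Cfg D Y s0 r φ) (hN : Near D r φ) (dD : DifferentiableOn ℂ D (ball 0 1))
  (dY : DifferentiableOn ℂ Y (ball 0 1)) (hr : |r| < 1)

include hN dD hr in
theorem Cfg.uF_outer {s : ℝ} (hs : s ∈ Icc (1:ℝ) 4) :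
    C.uF s = Complex.log (D (pt r (TT φ s - Real.pi / 3))) := by
  have hc : ContinuousOn (fun s => Complex.log (D (pt r (TT φ s - Real.pi / 3)))) (Icc (1:ℝ) 4) :=
    (hN.log_cont dD hr).comp ((TT_smooth φ).continuous.sub continuous_const).continuousOn
      (fun s _ => sub_mem_arc (TT_mem φ s))
  have h1 := log_unique_on isPreconnected_Icc C.c_uF.continuous.continuousOn hc (fun x hx => by
    rw [C.e_uF, kgam_outer hx.1 hx.2, Complex.exp_log]
    exact slitPlane_ne_zero (near_slit (hN _ (sub_mem_arc (TT_mem φ x))))) hs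
    (show (1:ℝ) ∈ Icc (1:ℝ) 4 by constructor <;> norm_num)
  have h2 : C.uF 1 = C.A0 1 := C.m1 1 (by constructor <;> norm_num)
  rw [h2, C.anch, TT_left (s := 1) (by norm_num), add_sub_cancel_right, sub_self] at h1
  exact sub_eq_zero.1 h1

include hN dD hr in
theorem Cfg.uG_outer {s : ℝ} (hs : s ∈ Icc (1:ℝ) 4) :
    C.uG s = Complex.log (D (pt r (TT φ s))) := by
  have hc : ContinuousOn (fun s => Complex.log (D (pt r (TT φ s)))) (Icc (1:ℝ) 4) :=
    (hN.log_cont dD hr).comp ((TT_smooth φ).continuous).continuousOn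
      (fun s _ => mem_arc (TT_mem φ s))
  have h1 := log_unique_on isPreconnected_Icc C.c_uG.continuous.continuousOn hc (fun x hx => by
    rw [C.e_uG, gam_outer hx.1 hx.2, Complex.exp_log]
    exact slitPlane_ne_zero (near_slit (hN _ (mem_arc (TT_mem φ x))))) hs
    (show (4:ℝ) ∈ Icc (1:ℝ) 4 by constructor <;> norm_num)
  have h2 : C.uG (5 - 1) = C.A0 1 := C.m6 1 (by constructor <;> norm_num)
  have e : (5:ℝ) - 1 = 4 := by norm_num
  rw [e] at h2
  rw [h2, C.anch, TT_mid (s := 4) (by norm_num) (by norm_num), sub_self] at h1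
  exact sub_eq_zero.1 h1

include hN dD dY hr in
theorem Cfg.XF_eq : C.XF = -arcF D Y r φ := by
  have h1 := arc_int dY hr (φ := φ) (α := 0) (a := 1) (b := 4) (by norm_num) (u := C.uF)
    (w := fun θ => Complex.log (D (pt r (θ - Real.pi / 3)))) C.c_vF
    (fun s hs => by rw [C.e_vF, gam_outer hs.1 hs.2, add_zero])
    (((hN.log_cont dD hr).comp (continuous_id.sub continuous_const).continuousOn
      (fun s hs => sub_mem_arc (TT_image φ _ _ hs))))
    (fun s hs => C.uF_outer hN dD hr hs)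
  rw [Cfg.XF, h1, TT_left (by norm_num), TT_mid (by norm_num) (by norm_num),
    intervalIntegral.integral_symm, arcF]
  simp only [add_zero]

include hN dD dY hr in
theorem Cfg.XG_eq : C.XG = -arcG D Y r φ := by
  have h1 := arc_int dY hr (φ := φ) (α := -(Real.pi / 3)) (a := 1) (b := 4) (by norm_num)
    (u := C.uG) (w := fun θ => Complex.log (D (pt r θ))) C.c_vG
    (fun s hs => by rw [C.e_vG, kgam_outer hs.1 hs.2, sub_eq_add_neg])
    (((hN.log_cont dD hr).mono (fun s hs => mem_arc (TT_image φ _ _ hs))))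
    (fun s hs => C.uG_outer hN dD hr hs)
  rw [Cfg.XG, h1, TT_left (by norm_num), TT_mid (by norm_num) (by norm_num),
    intervalIntegral.integral_symm, arcG]
  simp only [← sub_eq_add_neg]

end outer

end A4
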