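import Mathlib
import Pool.Agent.Helper40.A4.Arc

/-!
The two exact identities.
-/

open Complex Set MeasureTheory Metric Filter Topology intervalIntegral

namespace A4

/-- `K = 2 π i` -/
noncomputable abbrev KK : ℂ := 2 * Real.pi * I

theorem E_add_int (x : ℂ) (n : ℤ) : E (x + n * (KK * KK)) = E x := by
  have h := E_int n 1
  have e : (n:ℂ) * (KK * KK) = (n * (2 * Real.pi * I)) * ((1:ℤ) * (2 * Real.pi * I)) := by
    push_cast; ring
  rw [E_add, e, h, mul_one]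

theorem E_exp (x : ℂ) : Complex.exp x = E (KK * x) := (E_tpi x).symm

theorem log_mul_near {x y : ℂ} (hx : ‖x - 1‖ < 1 / 2) (hy : ‖y - 1‖ < 1 / 2) :
    x * y ∈ slitPlane ∧ Complex.log (x * y) = Complex.log x + Complex.log y := by
  have re_pos : ∀ z : ℂ, ‖z - 1‖ < 1 / 2 → 0 < z.re := by
    intro z hz
    have := (abs_le.1 (abs_re_le_norm (z - 1))).1
    simp at this; linarith
  have n : ∀ z : ℂ, ‖z - 1‖ < 1 / 2 → z ≠ 0 := fun z hz h => by
    have := re_pos z hz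
    rw [h] at this; simp at this
  have a1 := abs_lt.1 (abs_arg_lt_pi_div_two_iff.2 (Or.inl (re_pos x hx)))
  have a2 := abs_lt.1 (abs_arg_lt_pi_div_two_iff.2 (Or.inl (re_pos y hy)))
  have hI : x.arg + y.arg ∈ Set.Ioc (-Real.pi) Real.pi := by
    constructor <;> linarith [a1.1, a1.2, a2.1, a2.2]
  have hlog := (log_mul_eq_add_log_iff (n x hx) (n y hy)).2 hI
  refine ⟨?_, hlog⟩
  rw [mem_slitPlane_iff_arg]
  refine ⟨?_, mul_ne_zero (n x hx) (n y hy)⟩
  rw [arg_mul (n x hx) (n y hy) hI]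
  intro h
  linarith [a1.2, a2.2]

variable {D Y : ℂ → ℂ} {s0 r φ : ℝ}

theorem near_mem (h : Near D r φ) : ‖D (pt r φ) - 1‖ < 1 / 2 := by
  have := Real.pi_pos
  exact h φ ⟨by linarith, by linarith⟩

theorem near_p (h : Near D r φ) : ‖D (pt r (φ + Real.pi / 3)) - 1‖ < 1 / 2 := by
  have := Real.pi_pos
  exact h _ ⟨by linarith, by linarith⟩

theorem near_m (h : Near D r φ) : ‖D (pt r (φ - Real.pi / 3)) - 1‖ < 1 / 2 := by
  have := Real.pi_pos
  exact h _ ⟨by linarith, by linarith⟩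

theorem one_sub_mem {x : ℂ} (h : ‖x - 1‖ < 1 / 2) : 1 - x ∈ U1 :=
  ball_sub_U1 (by rw [norm_sub_rev]; linarith)

theorem near_Y (S : Sys D Y) (hr : |r| < 1) (h : Near D r φ) :
    -Y (pt r φ) ∈ U1 ∧ Complex.log (1 - -Y (pt r φ)) =
      Complex.log (D (pt r (φ + Real.pi / 3))) + Complex.log (D (pt r (φ - Real.pi / 3))) := by
  have h1 := S.rel1 _ (pt_mem (θ := φ) hr)
  rw [kap_mul_pt, kap_inv_mul_pt] at h1
  have h2 := log_mul_near (near_p h) (near_m h)
  have e : (1:ℂ) - -Y (pt r φ) = D (pt r (φ + Real.pi / 3)) * D (pt r (φ - Real.pi / 3)) := by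
    rw [mul_comm, h1]; ring
  constructor
  · show (1:ℂ) - -Y (pt r φ) ∈ slitPlane
    rw [e]; exact h2.1
  · rw [e]; exact h2.2

section

variable (C : Cfg D Y s0 r φ) (S : Sys D Y) (hN : Near D r φ) (hr : |r| < 1)

include hN in
theorem Cfg.phi_N1 : Phi (C.Nn 1) (C.A0 1) = E (-Li2 (1 - D (pt r φ))) := by
  have e := C.e_Nn 1
  rw [rho_one] at e
  rw [Phi_eq1 (by rw [e]; exact one_sub_mem (near_mem hN)), Phi1, e, sub_sub_cancel, C.anch,
    sub_self, zero_mul, add_zero]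

include hN S hr in
theorem Cfg.phi_U1 : Phi (C.U 1) (C.M 1) = E (-Li2 (-Y (pt r φ))) := by
  have e := C.expU 1
  rw [rho_one] at e
  have h1 := near_Y S hr hN
  have m1 : C.M 1 = Complex.log (D (pt r (φ + Real.pi / 3))) +
      Complex.log (D (pt r (φ - Real.pi / 3))) := by
    have a1 : C.uG 1 = C.Ap 1 := C.m5 1 (by constructor <;> norm_num)
    have a2 : C.uF (5 - 1) = C.Am 1 := C.m2 1 (by constructor <;> norm_num)
    have e4 : (5:ℝ) - 1 = 4 := by norm_num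
    rw [e4] at a2
    rw [Cfg.M, ← a1, ← a2, C.uG_outer hN S.dD.differentiableOn hr (by constructor <;> norm_num),
      C.uF_outer hN S.dD.differentiableOn hr (by constructor <;> norm_num),
      TT_left (s := 1) (by norm_num), TT_mid (s := 4) (by norm_num) (by norm_num)]
  rw [Phi_eq1 (by rw [e]; exact h1.1), Phi1, e, h1.2, m1, sub_self, zero_mul, add_zero]

end

theorem pt_zero (θ : ℝ) : pt 0 θ = 0 := by simp [pt]

theorem exp_eq_of {a x b : ℂ} (h : Complex.exp a = x) (hb : Complex.exp b = x) :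
    ∃ n : ℤ, a = b + n * KK := by
  obtain ⟨n, hn⟩ := Complex.exp_eq_exp_iff_exists_int.1 (h.trans hb.symm)
  exact ⟨n, hn⟩

theorem const_on_tail {v : ℝ → ℂ} (hv : ContDiff ℝ 1 v) {c : ℂ}
    (h : ∀ s ∈ Icc (5:ℝ) 7, Complex.exp (v s) = c) : ∀ s ∈ Icc (5:ℝ) 7, v s = v 5 := by
  intro s hs
  have h5 : (5:ℝ) ∈ Icc (5:ℝ) 7 := by constructor <;> norm_num
  have := log_unique_on isPreconnected_Icc hv.continuous.continuousOn
    (b := fun _ => v 5) continuousOn_const (fun x hx => by rw [h x hx, h 5 h5]) hs h5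
  linear_combination this

theorem int_tail_zero {u v : ℝ → ℂ} (h : ∀ s ∈ Icc (5:ℝ) 7, v s = v 5) :
    ∫ s in (5:ℝ)..7, u s * deriv v s = 0 := by
  rw [intervalIntegral.integral_congr_Ioo_of_le (g := fun _ => (0:ℂ)) (by norm_num)]
  · simp
  · intro s hs
    have : v =ᶠ[𝓝 s] fun _ => v 5 := by
      filter_upwards [isOpen_Ioo.mem_nhds hs] with x hx
      exact h x (Ioo_subset_Icc_self hx)
    simp only
    rw [this.deriv_eq]
    simp

/-- **identity, braid value `-2`** -/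
theorem ident_A (S : Sys D Y) (hD0 : D 0 = -2) (hY0 : Y 0 = 3) (h0 : 0 < r) (hr1 : r < 1)
    (gD : Good D 0 r φ) (gY : Good Y 0 r φ) (hN : Near D r φ) :
    E (ZZ D Y r φ) = E (4 * Real.pi ^ 2 / 3) := by
  obtain ⟨C⟩ := exists_Cfg S le_rfl h0.le hr1 gD gY
  have hr : |r| < 1 := by rw [abs_of_pos h0]; exact hr1
  have dD := S.dD.differentiableOn
  have dY := S.dY.differentiableOn
  have gen := C.general S le_rfl h0.le hr1
  -- the tails
  have tF : ∀ s ∈ Icc (5:ℝ) 7, C.vF s = C.vF 5 := const_on_tail C.c_vF (c := Y 0) (fun s hs => by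
    rw [C.e_vF, gam_inner hs.1, pt_zero])
  have tG : ∀ s ∈ Icc (5:ℝ) 7, C.vG s = C.vG 5 := const_on_tail C.c_vG (c := Y 0) (fun s hs => by
    rw [C.e_vG, kgam_inner hs.1, pt_zero])
  have tuF : ∀ s ∈ Icc (5:ℝ) 7, C.uF s = C.uF 5 := const_on_tail C.c_uF (c := D 0) (fun s hs => by
    rw [C.e_uF, kgam_inner hs.1, pt_zero])
  have tuG : ∀ s ∈ Icc (5:ℝ) 7, C.uG s = C.uG 5 := const_on_tail C.c_uG (c := D 0) (fun s hs => by
    rw [C.e_uG, gam_inner hs.1, pt_zero])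
  have h7 : (7:ℝ) ∈ Icc (5:ℝ) 7 := by constructor <;> norm_num
  have z0 : (0:ℝ) ∈ Ioo (-1:ℝ) 2 := by constructor <;> norm_num
  have eIF : C.IF = 0 := int_tail_zero tF
  have eIG : C.IG = 0 := int_tail_zero tG
  have f5 := C.m2 0 z0
  have g5 := C.m6 0 z0
  rw [sub_zero] at f5 g5
  rw [eIF, eIG, C.XF_eq hN dD dY hr, C.XG_eq hN dD dY hr, tuF 7 h7, tuG 7 h7, f5, g5,
    C.m1 0 z0, C.m3 0 z0, C.m5 0 z0, C.m7 0 z0, C.phi_N1 hN, C.phi_U1 S hN hr] at gen
  -- values at the origin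
  have q0 := rho_zero 0 r
  have eA0 := C.e_A0 0
  have eAp := C.e_Ap 0
  have eAm := C.e_Am 0
  have eB0 := C.e_B0 0
  have eBp := C.e_Bp 0
  have eN := C.e_Nn 0
  rw [q0, pt_zero] at eA0 eAp eAm eB0 eBp eN
  rw [hD0] at eA0 eAp eAm eN
  rw [hY0] at eB0 eBp
  have e3 : Complex.exp ((Real.log 3 : ℝ) : ℂ) = 3 := by
    rw [← Complex.ofReal_exp, Real.exp_log (by norm_num)]; norm_num
  have e2 : Complex.exp (((Real.log 2 : ℝ) : ℂ) + KK / 2) = -2 := by
    have : KK / 2 = Real.pi * I := by rw [KK]; ring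
    rw [Complex.exp_add, this, Complex.exp_pi_mul_I, ← Complex.ofReal_exp,
      Real.exp_log (by norm_num)]
    norm_num
  have eN' : Complex.exp (C.Nn 0) = 3 := by rw [eN]; norm_num
  obtain ⟨α0, hα0⟩ := exp_eq_of eA0 e2
  obtain ⟨αp, hαp⟩ := exp_eq_of eAp e2
  obtain ⟨αm, hαm⟩ := exp_eq_of eAm e2
  obtain ⟨β0, hβ0⟩ := exp_eq_of eB0 e3
  obtain ⟨βp, hβp⟩ := exp_eq_of eBp e3
  have log3 : Complex.log 3 = ((Real.log 3 : ℝ) : ℂ) := by
    have e : (3:ℂ) = ((3:ℝ) : ℂ) := by norm_num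
    rw [e, clog_real (by norm_num)]
  have log4 : Complex.log 4 = 2 * ((Real.log 2 : ℝ) : ℂ) := by
    have e : (4:ℂ) = ((4:ℝ) : ℂ) := by norm_num
    have h4 : Real.log 4 = 2 * Real.log 2 := by
      have : (4:ℝ) = 2 ^ 2 := by norm_num
      rw [this, Real.log_pow]; norm_num
    rw [e, clog_real (by norm_num), h4]
    push_cast
    rfl
  have pN : Phi (C.Nn 0) (C.A0 0) = E (Li2 (-2) + Real.log 3 * C.A0 0 - c0) := by
    have h1 : Complex.exp (C.Nn 0) + Complex.exp (C.A0 0) = 1 := by rw [eN', eA0]; norm_num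
    have h2 : Complex.exp (C.Nn 0) ∈ slitPlane := by
      rw [eN']
      have : (3:ℂ) = ((3:ℝ) : ℂ) := by norm_num
      rw [this]; exact ofReal_mem_slitPlane.2 (by norm_num)
    rw [Phi_eq2 h1 h2, Phi2, eN', log3]
    have : (1:ℂ) - 3 = -2 := by norm_num
    rw [this]
    congr 1
    ring
  have eU : Complex.exp (C.U 0) = -3 := by
    rw [C.expU 0, q0, pt_zero, hY0]
  have pU : Phi (C.U 0) (C.M 0) = E (-Li2 (-3) + (C.M 0 - 2 * Real.log 2) * C.U 0) := by
    have h1 : Complex.exp (C.U 0) ∈ U1 := by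
      rw [eU]
      show (1:ℂ) - (-3) ∈ slitPlane
      have : (1:ℂ) - (-3) = ((4:ℝ) : ℂ) := by norm_num
      rw [this]; exact ofReal_mem_slitPlane.2 (by norm_num)
    rw [Phi_eq1 h1, Phi1, eU]
    have : (1:ℂ) - (-3) = 4 := by norm_num
    rw [this, log4]
  have hM : C.M 0 = C.Ap 0 + C.Am 0 := rfl
  have hU : C.U 0 = C.B0 0 + KK / 2 := by rw [Cfg.U, KK]; ring
  rw [pN, pU, hM, hU, E_exp] at gen
  rw [← E_sub, ← E_sub, sq, ← E_add, ← E_add, ← E_add] at gen
  have v := value_23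
  have hc := c0_eq
  have hI : KK * KK = -(4 * (Real.pi:ℂ) ^ 2) := by
    have : KK * KK = 4 * (Real.pi:ℂ) ^ 2 * (I * I) := by rw [KK]; ring
    rw [this, I_mul_I]; ring
  set n : ℤ := -α0 - (1 + αp + αm) * β0 + βp * (αm - α0) - β0 * (α0 - αp) with hn
  set L2 : ℂ := ((Real.log 2 : ℝ) : ℂ) with hL2
  set L3 : ℂ := ((Real.log 3 : ℝ) : ℂ) with hL3
  rw [hα0, hαp, hαm, hβ0, hβp] at gen
  set br : ℂ := 4 * c0 + KK * KK * ((1 + αp + αm) * (1 / 2 + β0) - βp * (αm - α0) +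
    β0 * (α0 - αp)) with hbr
  have e1 : -Li2 (1 - D (pt r φ)) - (Li2 (-2) + L3 * (L2 + KK / 2 + α0 * KK) - c0) +
      (-Li2 (1 - D (pt r φ)) - (Li2 (-2) + L3 * (L2 + KK / 2 + α0 * KK) - c0)) +
      (-Li2 (-3) + (L2 + KK / 2 + αp * KK + (L2 + KK / 2 + αm * KK) - 2 * L2) *
        (L3 + β0 * KK + KK / 2) - -Li2 (-Y (pt r φ))) +
      (-arcF D Y r φ - -arcG D Y r φ + 0 - 0 -
        (L3 + βp * KK) * (L2 + KK / 2 + αm * KK - (L2 + KK / 2 + α0 * KK)) +
        (L3 + β0 * KK) * (L2 + KK / 2 + α0 * KK - (L2 + KK / 2 + αp * KK))) =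
      ZZ D Y r φ + br := by
    rw [hbr, ZZ]
    linear_combination -v
  rw [e1, E_add] at gen
  have e2 : E (ZZ D Y r φ) = E (KK * ((L2 + KK / 2 + αm * KK - (L2 + KK / 2 + α0 * KK) -
      (L2 + KK / 2 + α0 * KK - (L2 + KK / 2 + αp * KK))) / 2) - br) := by
    rw [E_sub, ← gen]
    have := E_ne_zero br
    field_simp
  have e3 : KK * ((L2 + KK / 2 + αm * KK - (L2 + KK / 2 + α0 * KK) -
      (L2 + KK / 2 + α0 * KK - (L2 + KK / 2 + αp * KK))) / 2) - br =
      4 * Real.pi ^ 2 / 3 + n * (KK * KK) := by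
    rw [hbr, hn, hc]
    push_cast
    linear_combination (-1/2) * hI
  rw [e2, e3, E_add_int]

/-- **identity, braid value `1`** -/
theorem ident_B (S : Sys D Y) (h0 : 0 < s0) (h1 : s0 ≤ r) (hr1 : r < 1)
    (gD : Good D s0 r φ) (gY : Good Y s0 r φ) (hN : Near D r φ) (hN0 : Near D s0 φ) :
    E (ZZ D Y r φ) = E (ZZ D Y s0 φ) := by
  obtain ⟨C⟩ := exists_Cfg S h0.le h1 hr1 gD gY
  have hr : |r| < 1 := by rw [abs_of_pos (h0.trans_le h1)]; exact hr1
  have hs : |s0| < 1 := by rw [abs_of_pos h0]; exact h1.trans_lt hr1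
  have dD := S.dD.differentiableOn
  have dY := S.dY.differentiableOn
  have gen := C.general S h0.le h1 hr1
  have h7 : (7:ℝ) ∈ Icc (5:ℝ) 7 := by constructor <;> norm_num
  have h5 : (5:ℝ) ∈ Icc (5:ℝ) 7 := by constructor <;> norm_num
  have z0 : (0:ℝ) ∈ Ioo (-1:ℝ) 2 := by constructor <;> norm_num
  have f5 := C.m2 0 z0
  have g5 := C.m6 0 z0
  have vf5 := C.m4 0 z0
  have vg5 := C.m8 0 z0
  rw [sub_zero] at f5 g5 vf5 vg5
  have T5 : TT φ 5 = φ := TT_mid (by norm_num) (by norm_num)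
  have T7 : TT φ 7 = φ + Real.pi / 3 := by
    rw [TT_right (by norm_num), sgn1 (x := 7 - 6) (by norm_num)]; ring
  have q0 := rho_zero s0 r
  have eA0 := C.e_A0 0
  have eAp := C.e_Ap 0
  have eAm := C.e_Am 0
  have eB0 := C.e_B0 0
  have eBp := C.e_Bp 0
  have eBm := C.e_Bm 0
  have eN := C.e_Nn 0
  rw [q0] at eA0 eAp eAm eB0 eBp eBm eN
  have n0 := near_mem hN0
  have np := near_p hN0
  have nm := near_m hN0
  obtain ⟨α0, hα0⟩ := exp_eq_of eA0 (Complex.exp_log (slitPlane_ne_zero (near_slit n0)))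
  obtain ⟨αp, hαp⟩ := exp_eq_of eAp (Complex.exp_log (slitPlane_ne_zero (near_slit np)))
  obtain ⟨αm, hαm⟩ := exp_eq_of eAm (Complex.exp_log (slitPlane_ne_zero (near_slit nm)))
  -- logarithms on the inner arc
  have cF : ContinuousOn (fun s => Complex.log (D (pt s0 (TT φ s - Real.pi / 3)))) (Icc (5:ℝ) 7) :=
    (hN0.log_cont dD hs).comp ((TT_smooth φ).continuous.sub continuous_const).continuousOn
      (fun s _ => sub_mem_arc (TT_mem φ s))
  have cG : ContinuousOn (fun s => Complex.log (D (pt s0 (TT φ s)))) (Icc (5:ℝ) 7) :=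
    (hN0.log_cont dD hs).comp ((TT_smooth φ).continuous).continuousOn
      (fun s _ => mem_arc (TT_mem φ s))
  have uFs : ∀ s ∈ Icc (5:ℝ) 7, C.uF s =
      Complex.log (D (pt s0 (TT φ s - Real.pi / 3))) + αm * KK := by
    intro s hs'
    have := log_unique_on isPreconnected_Icc C.c_uF.continuous.continuousOn cF (fun x hx => by
      rw [C.e_uF, kgam_inner hx.1, Complex.exp_log]
      exact slitPlane_ne_zero (near_slit (hN0 _ (sub_mem_arc (TT_mem φ x))))) hs' h5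
    rw [f5, hαm, T5] at this
    linear_combination this
  have uGs : ∀ s ∈ Icc (5:ℝ) 7, C.uG s =
      Complex.log (D (pt s0 (TT φ s))) + α0 * KK := by
    intro s hs'
    have := log_unique_on isPreconnected_Icc C.c_uG.continuous.continuousOn cG (fun x hx => by
      rw [C.e_uG, gam_inner hx.1, Complex.exp_log]
      exact slitPlane_ne_zero (near_slit (hN0 _ (mem_arc (TT_mem φ x))))) hs' h5
    rw [g5, hα0, T5] at this
    linear_combination this
  have intderiv : ∀ v : ℝ → ℂ, ContDiff ℝ 1 v → ∫ s in (5:ℝ)..7, deriv v s = v 7 - v 5 :=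
    fun v hv => integral_deriv_eq_sub (fun t _ => hv.differentiable one_ne_zero t)
      ((hv.continuous_deriv le_rfl).intervalIntegrable _ _)
  have eIF : C.IF = arcF D Y s0 φ + αm * KK * (C.vF 7 - C.vF 5) := by
    have h2 := arc_int dY hs (φ := φ) (α := 0) (a := 5) (b := 7) (by norm_num)
      (u := fun s => C.uF s - αm * KK)
      (w := fun θ => Complex.log (D (pt s0 (θ - Real.pi / 3)))) C.c_vF
      (fun s hs => by rw [C.e_vF, gam_inner hs.1, add_zero])
      (((hN0.log_cont dD hs).comp (continuous_id.sub continuous_const).continuousOn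
        (fun s hs => sub_mem_arc (TT_image φ _ _ hs))))
      (fun s hs => by rw [uFs s hs]; ring)
    rw [T5, T7] at h2
    simp only [add_zero] at h2
    rw [arcF, ← h2, ← intderiv C.vF C.c_vF, ← intervalIntegral.integral_const_mul,
      ← intervalIntegral.integral_add, Cfg.IF]
    · refine intervalIntegral.integral_congr fun s _ => ?_
      ring
    · exact (ii (C.c_uF.sub contDiff_const) C.c_vF _ _)
    · exact ((C.c_vF.continuous_deriv le_rfl).intervalIntegrable _ _).const_mul _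
  have eIG : C.IG = arcG D Y s0 φ + α0 * KK * (C.vG 7 - C.vG 5) := by
    have h2 := arc_int dY hs (φ := φ) (α := -(Real.pi / 3)) (a := 5) (b := 7) (by norm_num)
      (u := fun s => C.uG s - α0 * KK)
      (w := fun θ => Complex.log (D (pt s0 θ))) C.c_vG
      (fun s hs => by rw [C.e_vG, kgam_inner hs.1, sub_eq_add_neg])
      (((hN0.log_cont dD hs).mono (fun s hs => mem_arc (TT_image φ _ _ hs))))
      (fun s hs => by rw [uGs s hs]; ring)
    rw [T5, T7] at h2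
    simp only [← sub_eq_add_neg] at h2
    rw [arcG, ← h2, ← intderiv C.vG C.c_vG, ← intervalIntegral.integral_const_mul,
      ← intervalIntegral.integral_add, Cfg.IG]
    · refine intervalIntegral.integral_congr fun s _ => ?_
      ring
    · exact (ii (C.c_uG.sub contDiff_const) C.c_vG _ _)
    · exact ((C.c_vG.continuous_deriv le_rfl).intervalIntegrable _ _).const_mul _
  -- closedness of the logarithms of `y`
  have hL := gam_loop (φ := φ) h0.le h1 hr1
  obtain ⟨nF, hnF⟩ := closed_int_of_exp (T := 7) (u := C.vF) (by rw [C.e_vF, C.e_vF, hL.closed])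
  obtain ⟨nG, hnG⟩ := closed_int_of_exp (T := 7) (u := C.vG) (by rw [C.e_vG, C.e_vG, hL.closed])
  rw [C.m3 0 z0] at hnF
  rw [C.m7 0 z0] at hnG
  -- `2 N = B₊ + B₋`
  have rel2 : Complex.exp (2 * C.Nn 0) = Complex.exp (C.Bp 0 + C.Bm 0) := by
    have h4 := S.rel2 _ (pt_mem (θ := φ) hs)
    rw [kap_mul_pt, kap_inv_mul_pt] at h4
    have h5 : Complex.exp (2 * C.Nn 0) = Complex.exp (C.Nn 0) ^ 2 := by
      rw [← Complex.exp_nat_mul]; norm_num
    rw [Complex.exp_add, eBp, eBm, h5, eN, ← h4, mul_comm]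
  obtain ⟨μ, hμ⟩ := Complex.exp_eq_exp_iff_exists_int.1 rel2
  -- the inner values
  have pN : Phi (C.Nn 0) (C.A0 0) = E (-Li2 (1 - D (pt s0 φ)) + α0 * KK * C.Nn 0) := by
    rw [Phi_eq1 (by rw [eN]; exact one_sub_mem n0), Phi1, eN, sub_sub_cancel, hα0]
    congr 1; ring
  have hY := near_Y S hs hN0
  have eU : Complex.exp (C.U 0) = -Y (pt s0 φ) := by rw [C.expU 0, q0]
  have pU : Phi (C.U 0) (C.M 0) = E (-Li2 (-Y (pt s0 φ)) + (αp + αm) * KK * (C.B0 0 + KK / 2)) := by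
    have hM : C.M 0 = C.Ap 0 + C.Am 0 := rfl
    have hU : C.U 0 = C.B0 0 + KK / 2 := by rw [Cfg.U, KK]; ring
    rw [Phi_eq1 (by rw [eU]; exact hY.1), Phi1, eU, hY.2, hM, hU, hαp, hαm]
    congr 1; ring
  have uF7 : C.uF 7 = Complex.log (D (pt s0 φ)) + αm * KK := by
    rw [uFs 7 h7, T7, add_sub_cancel_right]
  have uG7 : C.uG 7 = Complex.log (D (pt s0 (φ + Real.pi / 3))) + α0 * KK := by
    rw [uGs 7 h7, T7]
  rw [eIF, eIG, C.XF_eq hN dD dY hr, C.XG_eq hN dD dY hr, C.phi_N1 hN, C.phi_U1 S hN hr, pN, pU,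
    uF7, uG7, C.m1 0 z0, C.m5 0 z0, C.m3 0 z0, C.m7 0 z0, hα0, hαp, vf5, vg5, E_exp] at gen
  rw [← E_sub, ← E_sub, sq, ← E_add, ← E_add, ← E_add] at gen
  set n : ℤ := α0 * μ - αm * nF + α0 * nG - α0 with hn
  have v7 : C.vF 7 = C.Bp 0 + nF * KK := by rw [KK, ← hnF]; ring
  have w7 : C.vG 7 = C.B0 0 + nG * KK := by rw [KK, ← hnG]; ring
  have hNn : 2 * C.Nn 0 = C.Bp 0 + C.Bm 0 + μ * KK := hμ
  rw [v7, w7] at gen
  set lo := Complex.log (D (pt s0 φ))
  set lp := Complex.log (D (pt s0 (φ + Real.pi / 3)))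
  have key : E (ZZ D Y r φ) = E (ZZ D Y s0 φ + n * (KK * KK)) := by
    have e1 : -Li2 (1 - D (pt r φ)) - (-Li2 (1 - D (pt s0 φ)) + α0 * KK * C.Nn 0) +
        (-Li2 (1 - D (pt r φ)) - (-Li2 (1 - D (pt s0 φ)) + α0 * KK * C.Nn 0)) +
        (-Li2 (-Y (pt s0 φ)) + (αp + αm) * KK * (C.B0 0 + KK / 2) - -Li2 (-Y (pt r φ))) +
        (-arcF D Y r φ - -arcG D Y r φ +
          (arcF D Y s0 φ + αm * KK * (C.Bp 0 + nF * KK - C.B0 0)) -
          (arcG D Y s0 φ + α0 * KK * (C.B0 0 + nG * KK - C.Bm 0)) -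
          C.Bp 0 * (lo + αm * KK - (lo + α0 * KK)) +
          C.B0 0 * (lp + α0 * KK - (lp + αp * KK))) =
        ZZ D Y r φ + (KK * ((lo + αm * KK - (lo + α0 * KK) -
          (lp + α0 * KK - (lp + αp * KK))) / 2) - (ZZ D Y s0 φ + n * (KK * KK))) := by
      rw [ZZ, ZZ, hn]
      push_cast
      linear_combination (-(α0:ℂ) * KK) * hNn
    rw [e1, E_add, E_sub] at gen
    have p1 := E_ne_zero (ZZ D Y s0 φ + n * (KK * KK))
    have p2 := E_ne_zero (KK * ((lo + αm * KK - (lo + α0 * KK) -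
          (lp + α0 * KK - (lp + αp * KK))) / 2))
    revert gen p1 p2
    generalize E (KK * ((lo + αm * KK - (lo + α0 * KK) -
          (lp + α0 * KK - (lp + αp * KK))) / 2)) = P2
    generalize E (ZZ D Y s0 φ + n * (KK * KK)) = P1
    intro gen p1 p2
    field_simp at gen
    exact gen
  rw [key, E_add_int]

end A4
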