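import Mathlib
import Pool.Agent.Helper40.A4.Ident

/-!
Generic angles, the inner limit, and the limit `N → ∞`.
-/

open Complex Set MeasureTheory Metric Filter Topology intervalIntegral

namespace A4

/-! ### generic angles -/

theorem pt_eq_countable (w : ℂ) (α : ℝ) :
    {φ : ℝ | ∃ ρ : ℝ, 0 < ρ ∧ pt ρ (φ + α) = w}.Countable := by
  by_cases hne : ∃ φ0 : ℝ, ∃ ρ : ℝ, 0 < ρ ∧ pt ρ (φ0 + α) = w
  · obtain ⟨φ0, ρ0, hρ0, h0⟩ := hne
    refine (countable_range (fun k : ℤ => φ0 + k * (2 * Real.pi))).mono ?_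
    rintro φ ⟨ρ, hρ, h⟩
    have e1 : ρ = ρ0 := by
      have := congrArg norm (h.trans h0.symm)
      rwa [norm_pt, norm_pt, abs_of_pos hρ, abs_of_pos hρ0] at this
    have e2 : Complex.exp ((φ + α : ℝ) * I) = Complex.exp ((φ0 + α : ℝ) * I) := by
      have h3 := h.trans h0.symm
      rw [e1, pt, pt] at h3
      exact mul_left_cancel₀ (by exact_mod_cast hρ0.ne') h3
    obtain ⟨k, hk⟩ := Complex.exp_eq_exp_iff_exists_int.1 e2
    refine ⟨k, ?_⟩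
    have h4 : ((φ + α : ℝ) : ℂ) = ((φ0 + α + k * (2 * Real.pi) : ℝ) : ℂ) := by
      have h5 : (((φ + α : ℝ) : ℂ) - ((φ0 + α + k * (2 * Real.pi) : ℝ) : ℂ)) * I = 0 := by
        push_cast at hk ⊢
        linear_combination hk
      have := (mul_eq_zero.1 h5).resolve_right I_ne_zero
      exact sub_eq_zero.1 this
    have h6 : φ + α = φ0 + α + k * (2 * Real.pi) := by exact_mod_cast h4
    simp only
    linarith
  · push Not at hne
    convert Set.countable_empty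
    ext φ
    simp only [mem_ofPred_eq, mem_empty_iff_false, iff_false, not_exists, not_and]
    exact fun ρ hρ => hne φ ρ hρ

/-- an angle in `(0, η)` whose three rays avoid the nonzero zeros of `f` in the disc -/
theorem exists_angle {f g : ℂ → ℂ} (hf : TameFn f) (hg : TameFn g) {η : ℝ} (hη : 0 < η) :
    ∃ φ ∈ Ioo (0:ℝ) η, ∀ ρ : ℝ, 0 < ρ → ρ < 1 → ∀ α ∈ ({0, Real.pi / 3, -(Real.pi / 3)} : Set ℝ),
      f (pt ρ (φ + α)) ≠ 0 ∧ g (pt ρ (φ + α)) ≠ 0 := by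
  set Z : Set ℂ := {ξ | ξ ∈ ball (0:ℂ) 1 ∧ f ξ = 0} ∪ {ξ | ξ ∈ ball (0:ℂ) 1 ∧ g ξ = 0} with hZ
  have hZf : Z.Finite := hf.finite_zeros.union hg.finite_zeros
  set B : Set ℝ := ⋃ w ∈ Z \ {0}, ⋃ α ∈ ({0, Real.pi / 3, -(Real.pi / 3)} : Set ℝ),
    {φ : ℝ | ∃ ρ : ℝ, 0 < ρ ∧ pt ρ (φ + α) = w} with hB
  have hBc : B.Countable := by
    refine Set.Countable.biUnion (hZf.countable.mono sdiff_subset) fun w _ => ?_
    refine Set.Countable.biUnion ?_ fun α _ => pt_eq_countable w α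
    exact (Set.toFinite _).countable
  have hnot : ¬ (Ioo (0:ℝ) η ⊆ B) := by
    intro h
    have := hBc.mono h
    exact (Cardinal.Real.Ioo_countable_iff.1 this).not_gt hη
  obtain ⟨φ, hφ, hφB⟩ := Set.not_subset.1 hnot
  refine ⟨φ, hφ, fun ρ hρ hρ1 α hα => ?_⟩
  have hm : pt ρ (φ + α) ∈ ball (0:ℂ) 1 := pt_mem (by rw [abs_of_pos hρ]; exact hρ1)
  have h0 : pt ρ (φ + α) ≠ 0 := by
    rw [← norm_pos_iff, norm_pt, abs_of_pos hρ]; exact hρ
  have hin : pt ρ (φ + α) ∉ Z := by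
    intro hz
    apply hφB
    rw [hB]
    simp only [mem_iUnion]
    exact ⟨_, ⟨hz, h0⟩, α, hα, ρ, hρ, rfl⟩
  constructor
  · intro h; exact hin (Or.inl ⟨hm, h⟩)
  · intro h; exact hin (Or.inr ⟨hm, h⟩)


/-! ### the inner limit -/

theorem logder_bdd {Y : ℂ → ℂ} (hY : TameFn Y) :
    ∃ C : ℝ, ∃ e > 0, ∀ ξ : ℂ, 0 < ‖ξ‖ → ‖ξ‖ < e → Y ξ ≠ 0 ∧ ‖deriv Y ξ * (ξ * I) / Y ξ‖ ≤ C := by
  have hdiff := hY.differentiableOn
  have han : AnalyticAt ℂ Y 0 := hdiff.analyticAt (isOpen_ball.mem_nhds (by simp))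
  have hne : ¬ ∀ᶠ z in 𝓝 (0:ℂ), Y z = 0 := by
    intro h
    obtain ⟨e, he, hb⟩ := Metric.eventually_nhds_iff_ball.1 h
    have hsub : ball (0:ℂ) (min e 1) ⊆ {ξ | ξ ∈ ball (0:ℂ) 1 ∧ Y ξ = 0} := by
      intro z hz
      have h1 : ‖z‖ < min e 1 := by simpa using hz
      exact ⟨by simpa using h1.trans_le (min_le_right _ _),
        hb z (by simpa using h1.trans_le (min_le_left _ _))⟩
    have hfin := hY.finite_zeros.subset hsub
    have hpos : 0 < min e 1 := lt_min he one_pos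
    have := (infinite_of_mem_nhds (0:ℂ) (ball_mem_nhds _ hpos))
    exact this hfin
  obtain ⟨n, g, hg, hg0, hgY⟩ := (han.exists_eventuallyEq_pow_smul_nonzero_iff).2 hne
  simp only [sub_zero, smul_eq_mul] at hgY
  -- bounds for `g`
  have hgc : ContinuousAt (fun z => z * deriv g z / g z) 0 := by
    have h1 : ContinuousAt (deriv g) 0 := hg.deriv.continuousAt
    exact (continuousAt_id.mul h1).div hg.continuousAt hg0
  have hlim : ∀ᶠ z in 𝓝 (0:ℂ), ‖z * deriv g z / g z‖ < 1 := by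
    have := hgc.norm.tendsto
    simp only [zero_mul, zero_div, norm_zero] at this
    exact this.eventually (gt_mem_nhds one_pos)
  have hgne : ∀ᶠ z in 𝓝 (0:ℂ), g z ≠ 0 := hg.continuousAt.eventually_ne hg0
  have hgan : ∀ᶠ z in 𝓝 (0:ℂ), AnalyticAt ℂ g z := hg.eventually_analyticAt
  have hgY2 : ∀ᶠ z in 𝓝 (0:ℂ), Y =ᶠ[𝓝 z] fun z => z ^ n * g z := hgY.eventually_nhds
  obtain ⟨e, he, hb⟩ := Metric.eventually_nhds_iff_ball.1
    (hlim.and (hgne.and (hgan.and (hgY.and hgY2))))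
  refine ⟨n + 1, e, he, fun ξ h0 h1 => ?_⟩
  obtain ⟨a1, a2, a3, a4, a5⟩ := hb ξ (by simpa using h1)
  have hξ : ξ ≠ 0 := norm_pos_iff.1 h0
  have hYξ : Y ξ ≠ 0 := by rw [a4]; exact mul_ne_zero (pow_ne_zero _ hξ) a2
  refine ⟨hYξ, ?_⟩
  have hd : ξ * deriv Y ξ = (n + ξ * deriv g ξ / g ξ) * Y ξ := by
    have h2 : HasDerivAt (fun z => z ^ n * g z) (n * ξ ^ (n - 1) * g ξ + ξ ^ n * deriv g ξ) ξ :=
      (hasDerivAt_pow n ξ).mul a3.differentiableAt.hasDerivAt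
    rw [a5.deriv_eq, h2.deriv, a4]
    have h3 : ξ * (n * ξ ^ (n - 1)) = n * ξ ^ n := by
      rcases n with _ | m
      · simp
      · rw [Nat.add_sub_cancel, pow_succ]
        ring
    field_simp
    linear_combination (g ξ) * h3
  have e1 : deriv Y ξ * (ξ * I) / Y ξ = (n + ξ * deriv g ξ / g ξ) * I := by
    have : deriv Y ξ * (ξ * I) = (ξ * deriv Y ξ) * I := by ring
    rw [this, hd]
    field_simp
  rw [e1, norm_mul, norm_I, mul_one]
  calc ‖(n:ℂ) + ξ * deriv g ξ / g ξ‖ ≤ ‖(n:ℂ)‖ + ‖ξ * deriv g ξ / g ξ‖ := norm_add_le _ _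
    _ ≤ n + 1 := by
      rw [Complex.norm_natCast]; linarith

theorem inner_limit {D Y : ℂ → ℂ} (S : Sys D Y) (hD0 : D 0 = 1) (hY0 : Y 0 = 0) (φ : ℝ) :
    Tendsto (fun s0 => ZZ D Y s0 φ) (𝓝[>] 0) (𝓝 0) := by
  obtain ⟨C, e, he, hC⟩ := logder_bdd S.dY
  have hC0 : 0 ≤ C := by
    have h1 : ‖((e/2 : ℝ) : ℂ)‖ = e / 2 := by
      rw [Complex.norm_real, Real.norm_eq_abs, abs_of_pos (by linarith)]
    exact (norm_nonneg _).trans (hC ((e/2 : ℝ) : ℂ) (by rw [h1]; linarith) (by rw [h1]; linarith)).2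
  have cD : ContinuousAt D 0 := (S.dD.differentiableOn.continuousOn).continuousAt
    (isOpen_ball.mem_nhds (by simp))
  have cY : ContinuousAt Y 0 := (S.dY.differentiableOn.continuousOn).continuousAt
    (isOpen_ball.mem_nhds (by simp))
  have cL : ContinuousAt (fun ξ => Complex.log (D ξ)) 0 :=
    cD.clog (by rw [hD0]; exact one_mem_slitPlane)
  have hpt : ∀ θ, Tendsto (fun s0 : ℝ => pt s0 θ) (𝓝[>] 0) (𝓝 0) := by
    intro θ
    have h1 : Continuous fun s0 : ℝ => pt s0 θ := by unfold pt; fun_prop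
    have h2 := (h1.tendsto 0).mono_left (nhdsWithin_le_nhds (s := Ioi (0:ℝ)))
    rwa [pt_zero] at h2
  have hLi0 : ContinuousAt Li2 0 := (hasDerivAt_Li2 zero_mem_U1).continuousAt
  -- the integrals
  have hsmall : ∀ δ > 0, ∀ᶠ s0 in 𝓝[>] (0:ℝ), ∀ θ θ', ‖Complex.log (D (pt s0 θ)) * LL Y s0 θ'‖ ≤ δ := by
    intro δ hδ
    have h1 : ∀ᶠ ξ in 𝓝 (0:ℂ), ‖Complex.log (D ξ)‖ < δ / (C + 1) := by
      have := cL.norm.tendsto
      simp only [hD0, Complex.log_one, norm_zero] at this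
      exact this.eventually (gt_mem_nhds (by positivity))
    obtain ⟨e', he', hb⟩ := Metric.eventually_nhds_iff_ball.1 h1
    have : Ioo (0:ℝ) (min e e') ∈ 𝓝[>] (0:ℝ) := Ioo_mem_nhdsGT (lt_min he he')
    filter_upwards [this] with s0 hs0 θ θ'
    have hs1 : s0 < e := hs0.2.trans_le (min_le_left _ _)
    have hs2 : s0 < e' := hs0.2.trans_le (min_le_right _ _)
    have n1 : ‖pt s0 θ‖ = s0 := by rw [norm_pt, abs_of_pos hs0.1]
    have n2 : ‖pt s0 θ'‖ = s0 := by rw [norm_pt, abs_of_pos hs0.1]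
    have b1 := hb (pt s0 θ) (by rw [mem_ball_zero_iff, n1]; exact hs2)
    have b2 := (hC (pt s0 θ') (by rw [n2]; exact hs0.1) (by rw [n2]; exact hs1)).2
    rw [norm_mul]
    calc ‖Complex.log (D (pt s0 θ))‖ * ‖LL Y s0 θ'‖ ≤ (δ / (C + 1)) * C := by
          apply mul_le_mul b1.le b2 (norm_nonneg _) (by positivity)
      _ ≤ δ := by
          rw [div_mul_eq_mul_div, div_le_iff₀ (by positivity)]
          nlinarith
  have hF : Tendsto (fun s0 => arcF D Y s0 φ) (𝓝[>] 0) (𝓝 0) := by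
    rw [Metric.tendsto_nhds]
    intro δ hδ
    have hpi := Real.pi_pos
    filter_upwards [hsmall (δ / 4) (by positivity)] with s0 hs0
    rw [dist_zero_right, arcF]
    have := intervalIntegral.norm_integral_le_of_norm_le_const (a := φ) (b := φ + Real.pi / 3)
      (C := δ / 4) (fun θ _ => hs0 (θ - Real.pi / 3) θ)
    refine this.trans_lt ?_
    rw [add_sub_cancel_left, abs_of_pos (by positivity)]
    nlinarith [Real.pi_lt_four]
  have hG : Tendsto (fun s0 => arcG D Y s0 φ) (𝓝[>] 0) (𝓝 0) := by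
    rw [Metric.tendsto_nhds]
    intro δ hδ
    have hpi := Real.pi_pos
    filter_upwards [hsmall (δ / 4) (by positivity)] with s0 hs0
    rw [dist_zero_right, arcG]
    have := intervalIntegral.norm_integral_le_of_norm_le_const (a := φ) (b := φ + Real.pi / 3)
      (C := δ / 4) (fun θ _ => hs0 θ (θ - Real.pi / 3))
    refine this.trans_lt ?_
    rw [add_sub_cancel_left, abs_of_pos (by positivity)]
    nlinarith [Real.pi_lt_four]
  have h1 : Tendsto (fun s0 : ℝ => Li2 (1 - D (pt s0 φ))) (𝓝[>] 0) (𝓝 0) := by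
    have a1 : Tendsto (fun s0 : ℝ => 1 - D (pt s0 φ)) (𝓝[>] 0) (𝓝 0) := by
      have := (cD.tendsto.comp (hpt φ)).const_sub 1
      rw [hD0, sub_self] at this
      exact this
    have := hLi0.tendsto.comp a1
    rw [Li2_zero] at this
    exact this
  have h2 : Tendsto (fun s0 : ℝ => Li2 (-Y (pt s0 φ))) (𝓝[>] 0) (𝓝 0) := by
    have a1 : Tendsto (fun s0 : ℝ => -Y (pt s0 φ)) (𝓝[>] 0) (𝓝 0) := by
      have := (cY.tendsto.comp (hpt φ)).neg
      rw [hY0, neg_zero] at this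
      exact this
    have := hLi0.tendsto.comp a1
    rw [Li2_zero] at this
    exact this
  have := ((hF.neg.add hG).sub (h1.const_mul 2)).add h2
  simpa [ZZ] using this

/-! ### the identities at a generic angle -/

/-- regularity on the outer arc -/
structure Outer (D Y : ℂ → ℂ) (r η : ℝ) : Prop where
  nearD : ∀ θ ∈ Icc (-(Real.pi / 3)) (Real.pi / 3 + η), ‖D (pt r θ) - 1‖ < 1 / 2
  neY : ∀ θ ∈ Icc (-(Real.pi / 3)) (Real.pi / 3 + η), Y (pt r θ) ≠ 0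

theorem Outer.near {D Y : ℂ → ℂ} {r η φ : ℝ} (h : Outer D Y r η) (hφ : φ ∈ Ioo 0 η) :
    Near D r φ := fun θ hθ => h.nearD θ ⟨by linarith [hθ.1, hφ.1], by linarith [hθ.2, hφ.2]⟩

theorem ne_of_near {x : ℂ} (h : ‖x - 1‖ < 1 / 2) : x ≠ 0 := slitPlane_ne_zero (near_slit h)

theorem ident_A' {D Y : ℂ → ℂ} (S : Sys D Y) (hD0 : D 0 = -2) (hY0 : Y 0 = 3) {r η : ℝ}
    (h0 : 0 < r) (hr1 : r < 1) (hη : 0 < η) (hO : Outer D Y r η) :
    ∃ φ ∈ Ioo 0 η, E (ZZ D Y r φ) = E (4 * Real.pi ^ 2 / 3) := by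
  obtain ⟨φ, hφ, hgen⟩ := exists_angle S.dD S.dY hη
  have hN := hO.near hφ
  have goodray : ∀ α ∈ ({0, Real.pi / 3, -(Real.pi / 3)} : Set ℝ), ∀ ρ ∈ Icc (0:ℝ) r,
      D (pt ρ (φ + α)) ≠ 0 ∧ Y (pt ρ (φ + α)) ≠ 0 := by
    intro α hα ρ hρ
    rcases hρ.1.eq_or_lt with h | h
    · rw [← h, pt_zero, hD0, hY0]; constructor <;> norm_num
    · exact hgen ρ h (hρ.2.trans_lt hr1) α hα
  have r0 := goodray 0 (by simp)
  have rp := goodray (Real.pi / 3) (by simp)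
  have rm := goodray (-(Real.pi / 3)) (by simp)
  simp only [add_zero, ← sub_eq_add_neg] at r0 rp rm
  have gD : Good D 0 r φ := ⟨fun ρ hρ => (r0 ρ hρ).1, fun ρ hρ => (rp ρ hρ).1,
    fun ρ hρ => (rm ρ hρ).1, fun θ hθ => ne_of_near (hN θ hθ), fun θ _ => by
      rw [pt_zero, hD0]; norm_num⟩
  have gY : Good Y 0 r φ := ⟨fun ρ hρ => (r0 ρ hρ).2, fun ρ hρ => (rp ρ hρ).2,
    fun ρ hρ => (rm ρ hρ).2, fun θ hθ => hO.neY θ ⟨by linarith [hθ.1, hφ.1], by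
      linarith [hθ.2, hφ.2]⟩, fun θ _ => by rw [pt_zero, hY0]; norm_num⟩
  exact ⟨φ, hφ, ident_A S hD0 hY0 h0 hr1 gD gY hN⟩

theorem ident_B' {D Y : ℂ → ℂ} (S : Sys D Y) (hD0 : D 0 = 1) (hY0 : Y 0 = 0) {r η : ℝ}
    (h0 : 0 < r) (hr1 : r < 1) (hη : 0 < η) (hO : Outer D Y r η) :
    ∃ φ ∈ Ioo 0 η, E (ZZ D Y r φ) = 1 := by
  obtain ⟨φ, hφ, hgen⟩ := exists_angle S.dD S.dY hη
  have hN := hO.near hφ
  refine ⟨φ, hφ, ?_⟩
  obtain ⟨C, e, he, hC⟩ := logder_bdd S.dY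
  have cD : ContinuousAt D 0 := (S.dD.differentiableOn.continuousOn).continuousAt
    (isOpen_ball.mem_nhds (by simp))
  have h1 : ∀ᶠ ξ in 𝓝 (0:ℂ), ‖D ξ - 1‖ < 1 / 2 := by
    have h2 : ContinuousAt (fun ξ => ‖D ξ - 1‖) 0 := (cD.sub continuousAt_const).norm
    have := h2.tendsto
    simp only [hD0, sub_self, norm_zero] at this
    exact this.eventually (gt_mem_nhds (by norm_num))
  obtain ⟨e', he', hb⟩ := Metric.eventually_nhds_iff_ball.1 h1
  have hev : ∀ᶠ s0 in 𝓝[>] (0:ℝ), E (ZZ D Y r φ) = E (ZZ D Y s0 φ) := by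
    have : Ioo (0:ℝ) (min r (min e e')) ∈ 𝓝[>] (0:ℝ) := Ioo_mem_nhdsGT (lt_min h0 (lt_min he he'))
    filter_upwards [this] with s0 hs0
    have l1 : s0 < r := hs0.2.trans_le (min_le_left _ _)
    have l2 : s0 < e := hs0.2.trans_le ((min_le_right _ _).trans (min_le_left _ _))
    have l3 : s0 < e' := hs0.2.trans_le ((min_le_right _ _).trans (min_le_right _ _))
    have nn : ∀ θ, ‖pt s0 θ‖ = s0 := fun θ => by rw [norm_pt, abs_of_pos hs0.1]
    have hN0 : Near D s0 φ := fun θ _ => hb _ (by rw [mem_ball_zero_iff, nn]; exact l3)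
    have hY0' : ∀ θ, Y (pt s0 θ) ≠ 0 := fun θ =>
      (hC _ (by rw [nn]; exact hs0.1) (by rw [nn]; exact l2)).1
    have goodray : ∀ α ∈ ({0, Real.pi / 3, -(Real.pi / 3)} : Set ℝ), ∀ ρ ∈ Icc s0 r,
        D (pt ρ (φ + α)) ≠ 0 ∧ Y (pt ρ (φ + α)) ≠ 0 := by
      intro α hα ρ hρ
      exact hgen ρ (hs0.1.trans_le hρ.1) (hρ.2.trans_lt hr1) α hα
    have r0 := goodray 0 (by simp)
    have rp := goodray (Real.pi / 3) (by simp)
    have rm := goodray (-(Real.pi / 3)) (by simp)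
    simp only [add_zero, ← sub_eq_add_neg] at r0 rp rm
    have gD : Good D s0 r φ := ⟨fun ρ hρ => (r0 ρ hρ).1, fun ρ hρ => (rp ρ hρ).1,
      fun ρ hρ => (rm ρ hρ).1, fun θ hθ => ne_of_near (hN θ hθ),
      fun θ hθ => ne_of_near (hN0 θ hθ)⟩
    have gY : Good Y s0 r φ := ⟨fun ρ hρ => (r0 ρ hρ).2, fun ρ hρ => (rp ρ hρ).2,
      fun ρ hρ => (rm ρ hρ).2, fun θ hθ => hO.neY θ ⟨by linarith [hθ.1, hφ.1], by
        linarith [hθ.2, hφ.2]⟩, fun θ _ => hY0' θ⟩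
    exact ident_B S hs0.1 l1.le hr1 gD gY hN hN0
  have hcont : Continuous E := by unfold E; fun_prop
  have hlim := (hcont.tendsto 0).comp (inner_limit S hD0 hY0 φ)
  rw [E_zero] at hlim
  have hlim2 : Tendsto (fun s0 => E (ZZ D Y s0 φ)) (𝓝[>] (0:ℝ)) (𝓝 (E (ZZ D Y r φ))) :=
    tendsto_const_nhds.congr' hev
  exact tendsto_nhds_unique hlim2 hlim

end A4
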