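import Mathlib
import Pool.Agent.Helper40.A4.Limit

/-!
The limit `N → ∞`: quantisation.
-/

open Complex Set MeasureTheory Metric Filter Topology intervalIntegral

namespace A4

theorem arc_est {g : ℝ → ℂ} {a b δ : ℝ} (hab : a ≤ b) (hg : ContinuousOn g (Icc a b)) {k : ℂ}
    (h : ∀ θ ∈ Icc a b, ‖g θ - k‖ ≤ δ) :
    ‖(∫ θ in a..b, g θ) - (b - a) * k‖ ≤ δ * (b - a) := by
  have hi : IntervalIntegrable g volume a b := by
    apply ContinuousOn.intervalIntegrable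
    rw [uIcc_of_le hab]; exact hg
  have e : (∫ θ in a..b, g θ) - (b - a) * k = ∫ θ in a..b, (g θ - k) := by
    rw [intervalIntegral.integral_sub hi intervalIntegrable_const,
      intervalIntegral.integral_const, real_smul]
    push_cast; ring
  rw [e]
  have := intervalIntegral.norm_integral_le_of_norm_le_const (a := a) (b := b) (C := δ)
    (f := fun θ => g θ - k) (fun θ hθ => by
      rw [uIoc_of_le hab] at hθ
      exact h θ (Ioc_subset_Icc_self hθ))
  rwa [abs_of_nonneg (by linarith)] at this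

/-- `3 s = 3 (c - i θ / 2)`. -/
noncomputable def ww (c θ : ℝ) : ℂ := 3 * (c - θ / 2 * I)

theorem ww_re (c θ : ℝ) : (ww c θ).re = 3 * c := by
  rw [ww]
  simp

theorem sinh_ne {z : ℂ} (h : z.re ≠ 0) : Complex.sinh z ≠ 0 := by
  intro h0
  have h1 : Complex.exp z = Complex.exp (-z) := by
    rw [Complex.sinh] at h0
    linear_combination 2 * h0
  have h2 := congrArg norm h1
  rw [Complex.norm_exp, Complex.norm_exp, neg_re] at h2
  have := Real.exp_injective h2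
  exact h (by linarith)

theorem cosh_shift (c θ : ℝ) :
    Complex.cosh (ww c (θ - Real.pi / 3)) = I * Complex.sinh (ww c θ) := by
  have e : ww c (θ - Real.pi / 3) = ww c θ + Real.pi / 2 * I := by
    rw [ww, ww]; push_cast; ring
  have h1 : Complex.cosh (Real.pi / 2 * I) = 0 := by
    rw [Complex.cosh_mul_I]
    exact Complex.cos_pi_div_two
  have h2 : Complex.sinh (Real.pi / 2 * I) = I := by
    rw [Complex.sinh_mul_I, Complex.sin_pi_div_two, one_mul]
  rw [e, Complex.cosh_add, h1, h2]; ring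

theorem sinh_shift (c θ : ℝ) :
    Complex.sinh (ww c (θ - Real.pi / 3)) = I * Complex.cosh (ww c θ) := by
  have e : ww c (θ - Real.pi / 3) = ww c θ + Real.pi / 2 * I := by
    rw [ww, ww]; push_cast; ring
  have h1 : Complex.cosh (Real.pi / 2 * I) = 0 := by
    rw [Complex.cosh_mul_I]
    exact Complex.cos_pi_div_two
  have h2 : Complex.sinh (Real.pi / 2 * I) = I := by
    rw [Complex.sinh_mul_I, Complex.sin_pi_div_two, one_mul]
  rw [e, Complex.sinh_add, h1, h2]; ring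

theorem ww_cont (c : ℝ) : Continuous (ww c) := by unfold ww; fun_prop

theorem prod_est {a a0 b b0 : ℂ} {A B δ : ℝ} (hA : ‖a0‖ ≤ A) (hB : ‖b0‖ ≤ B) (h1 : ‖a - a0‖ ≤ δ)
    (h2 : ‖b - b0‖ ≤ δ) (hδ : δ ≤ 1) : ‖a * b - a0 * b0‖ ≤ δ * (A + B + 1) := by
  have hδ0 : 0 ≤ δ := (norm_nonneg _).trans h1
  have e : a * b - a0 * b0 = (a - a0) * (b - b0) + (a - a0) * b0 + a0 * (b - b0) := by ring
  rw [e]
  calc ‖(a - a0) * (b - b0) + (a - a0) * b0 + a0 * (b - b0)‖
      ≤ ‖(a - a0) * (b - b0)‖ + ‖(a - a0) * b0‖ + ‖a0 * (b - b0)‖ := norm_add₃_le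
    _ = ‖a - a0‖ * ‖b - b0‖ + ‖a - a0‖ * ‖b0‖ + ‖a0‖ * ‖b - b0‖ := by
        rw [norm_mul, norm_mul, norm_mul]
    _ ≤ δ * 1 + δ * B + A * δ := by
        have hB0 : 0 ≤ ‖b0‖ := norm_nonneg _
        have hA0 : 0 ≤ A := (norm_nonneg _).trans hA
        gcongr
        exact h2.trans hδ
    _ = _ := by ring

/-- uniform convergence data on the arc -/
structure Lim {ι : Type*} (l : Filter ι) (D Y : ι → ℂ → ℂ) (nn : ι → ℝ) (c η : ℝ) (ε : ℂ) :
    Prop where
  tend : Tendsto nn l atTop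
  hD : ∀ δ > 0, ∀ᶠ i in l, ∀ θ ∈ Icc (-(Real.pi / 3)) (Real.pi / 3 + η),
    ‖nn i * (D i (pt (Real.exp (-(2 * c))) θ) - 1) + ε * Complex.cosh (ww c θ)‖ ≤ δ
  hY0 : ∀ᶠ i in l, ∀ θ ∈ Icc (-(Real.pi / 3)) (Real.pi / 3 + η),
    Y i (pt (Real.exp (-(2 * c))) θ) ≠ 0
  hY : ∀ δ > 0, ∀ᶠ i in l, ∀ θ ∈ Icc (-(Real.pi / 3)) (Real.pi / 3 + η),
    ‖LL (Y i) (Real.exp (-(2 * c))) θ / nn i - -(3 * I) / Complex.sinh (ww c θ)‖ ≤ δ

section

variable {ι : Type*} {l : Filter ι} {D Y : ι → ℂ → ℂ} {nn : ι → ℝ} {c η : ℝ} {ε : ℂ}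

theorem exists_bd (c η : ℝ) (hc : 0 < c) (ε : ℂ) : ∃ A > 0,
    ∀ θ ∈ Icc (-(Real.pi / 3)) (Real.pi / 3 + η), ‖-(ε * Complex.cosh (ww c θ))‖ ≤ A ∧
      ‖-(3 * I) / Complex.sinh (ww c θ)‖ ≤ A := by
  have hw := ww_cont c
  have c1 : Continuous fun θ => -(ε * Complex.cosh (ww c θ)) :=
    (continuous_const.mul (Complex.continuous_cosh.comp hw)).neg
  have c2 : Continuous fun θ => -(3 * I) / Complex.sinh (ww c θ) :=
    continuous_const.div (Complex.continuous_sinh.comp hw)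
      (fun θ => sinh_ne (by rw [ww_re]; positivity))
  obtain ⟨A, hA⟩ := (isCompact_Icc (a := -(Real.pi / 3)) (b := Real.pi / 3 + η)).exists_bound_of_continuousOn
    c1.continuousOn
  obtain ⟨B, hB⟩ := (isCompact_Icc (a := -(Real.pi / 3)) (b := Real.pi / 3 + η)).exists_bound_of_continuousOn
    c2.continuousOn
  refine ⟨max (max A B) 1, by positivity, fun θ hθ => ⟨?_, ?_⟩⟩
  · exact (hA θ hθ).trans ((le_max_left _ _).trans (le_max_left _ _))
  · exact (hB θ hθ).trans ((le_max_right _ _).trans (le_max_left _ _))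

/-- logarithms instead of differences. -/
theorem Lim.log (L : Lim l D Y nn c η ε) (hc : 0 < c) : ∀ δ > 0, ∀ᶠ i in l,
    ∀ θ ∈ Icc (-(Real.pi / 3)) (Real.pi / 3 + η),
    ‖D i (pt (Real.exp (-(2 * c))) θ) - 1‖ ≤ δ ∧
    ‖nn i * Complex.log (D i (pt (Real.exp (-(2 * c))) θ)) - -(ε * Complex.cosh (ww c θ))‖ ≤ δ := by
  intro δ hδ
  obtain ⟨A, hA0, hA⟩ := exists_bd c η hc ε
  set δ' := min (δ / 2) 1 with hδ'
  have hδ'0 : 0 < δ' := by positivity
  have hlarge := L.tend.eventually_ge_atTop (2 * (A + 1) ^ 2 / δ + 2 * (A + 1) + (A + 1) / δ)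
  filter_upwards [L.hD δ' hδ'0, hlarge] with i h1 h2 θ hθ
  have h3 := h1 θ hθ
  have h4 := (hA θ hθ).1
  set x := D i (pt (Real.exp (-(2 * c))) θ) - 1 with hx
  have p1 : 0 ≤ 2 * (A + 1) ^ 2 / δ := by positivity
  have p2 : 0 ≤ (A + 1) / δ := by positivity
  have hn0 : 0 < nn i := by linarith
  have hnx : nn i * ‖x‖ ≤ A + 1 := by
    have : ‖(nn i : ℂ) * x‖ ≤ A + 1 := by
      have e : (nn i : ℂ) * x = (nn i * x + ε * Complex.cosh (ww c θ)) +
        (-(ε * Complex.cosh (ww c θ))) := by ring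
      rw [e]
      refine (norm_add_le _ _).trans ?_
      have := h3.trans (min_le_right _ _)
      linarith
    rwa [norm_mul, Complex.norm_real, Real.norm_eq_abs, abs_of_pos hn0] at this
  have hx1 : ‖x‖ ≤ (A + 1) / nn i := by
    rw [le_div_iff₀ hn0]; linarith
  have hx2 : ‖x‖ ≤ 1 / 2 := by
    refine hx1.trans ?_
    rw [div_le_iff₀ hn0]; linarith
  have hx3 : ‖x‖ ≤ δ := by
    refine hx1.trans ?_
    rw [div_le_iff₀ hn0]
    have : (A + 1) / δ ≤ nn i := by linarith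
    rw [div_le_iff₀ hδ] at this
    linarith
  refine ⟨hx3, ?_⟩
  have hlog := Complex.norm_log_one_add_sub_self_le (z := x) (by linarith)
  have hlog2 : ‖Complex.log (1 + x) - x‖ ≤ ‖x‖ ^ 2 := by
    refine hlog.trans ?_
    have h5 : (1 - ‖x‖)⁻¹ ≤ 2 := by
      rw [inv_le_comm₀ (by linarith) (by norm_num)]; linarith
    nlinarith [sq_nonneg ‖x‖]
  have e1 : D i (pt (Real.exp (-(2 * c))) θ) = 1 + x := by rw [hx]; ring
  rw [e1]
  have e2 : nn i * Complex.log (1 + x) - -(ε * Complex.cosh (ww c θ)) =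
      nn i * (Complex.log (1 + x) - x) + (nn i * x + ε * Complex.cosh (ww c θ)) := by ring
  rw [e2]
  refine (norm_add_le _ _).trans ?_
  have h6 : ‖(nn i : ℂ) * (Complex.log (1 + x) - x)‖ ≤ δ / 2 := by
    rw [norm_mul, Complex.norm_real, Real.norm_eq_abs, abs_of_pos hn0]
    have h7 : nn i * ‖Complex.log (1 + x) - x‖ ≤ nn i * ‖x‖ ^ 2 := by gcongr
    have h8 : nn i * ‖x‖ ^ 2 ≤ (A + 1) * ((A + 1) / nn i) := by
      have : nn i * ‖x‖ ^ 2 = (nn i * ‖x‖) * ‖x‖ := by ring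
      rw [this]
      apply mul_le_mul hnx hx1 (norm_nonneg _) (by linarith)
    have h9 : (A + 1) * ((A + 1) / nn i) ≤ δ / 2 := by
      rw [← mul_div_assoc, div_le_iff₀ hn0]
      have : 2 * (A + 1) ^ 2 / δ ≤ nn i := by linarith
      rw [div_le_iff₀ hδ] at this
      nlinarith
    linarith
  have h10 := h3.trans (min_le_left _ _)
  linarith

/-- regularity on the outer arc, eventually. -/
theorem Lim.outer (L : Lim l D Y nn c η ε) (hc : 0 < c) :
    ∀ᶠ i in l, Outer (D i) (Y i) (Real.exp (-(2 * c))) η := by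
  filter_upwards [L.log hc (1/4) (by norm_num), L.hY0] with i h1 h2
  exact ⟨fun θ hθ => lt_of_le_of_lt (h1 θ hθ).1 (by norm_num), h2⟩

theorem r_pos (c : ℝ) : 0 < Real.exp (-(2 * c)) := Real.exp_pos _
theorem r_lt {c : ℝ} (hc : 0 < c) : Real.exp (-(2 * c)) < 1 := by
  rw [Real.exp_lt_one_iff]; linarith

theorem Lim.ZZ_tendsto (L : Lim l D Y nn c η ε) (hc : 0 < c) (hη : 0 < η)
    (S : ∀ᶠ i in l, Sys (D i) (Y i)) :
    ∀ δ > 0, ∀ᶠ i in l, ∀ φ ∈ Ioo 0 η,
      ‖ZZ (D i) (Y i) (Real.exp (-(2 * c))) φ - 2 * Real.pi * ε‖ ≤ δ := by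
  intro δ hδ
  set r := Real.exp (-(2 * c)) with hr
  have hr0 : 0 < r := r_pos c
  have hr1 : r < 1 := r_lt hc
  have habs : |r| < 1 := by rw [abs_of_pos hr0]; exact hr1
  have hpi := Real.pi_pos
  obtain ⟨A, hA0, hA⟩ := exists_bd c η hc ε
  -- continuity of Li2 at 0
  have hLi0 : ContinuousAt Li2 0 := (hasDerivAt_Li2 zero_mem_U1).continuousAt
  obtain ⟨e, he, hLi⟩ := Metric.continuousAt_iff.1 hLi0 (δ / 8) (by positivity)
  rw [Li2_zero] at hLi
  simp only [dist_zero_right] at hLi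
  set δ1 := min (min (δ / (16 * (2 * A + 1))) 1) (min (e / 8) (1/8)) with hδ1
  have hδ10 : 0 < δ1 := by positivity
  have d1 : δ1 ≤ 1 := (min_le_left _ _).trans (min_le_right _ _)
  have d2 : δ1 * (2 * A + 1) ≤ δ / 16 := by
    have : δ1 ≤ δ / (16 * (2 * A + 1)) := (min_le_left _ _).trans (min_le_left _ _)
    rw [le_div_iff₀ (by positivity)] at this
    linarith
  have d3 : δ1 ≤ e / 8 := (min_le_right _ _).trans (min_le_left _ _)
  have d4 : δ1 ≤ 1 / 8 := (min_le_right _ _).trans (min_le_right _ _)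
  filter_upwards [L.log hc δ1 hδ10, L.hY δ1 hδ10, L.outer hc, S, L.tend.eventually_gt_atTop 0]
    with i h1 h2 h3 hS hn φ hφ
  have dD := hS.dD.differentiableOn
  have dY := hS.dY.differentiableOn
  have hnc : (nn i : ℂ) ≠ 0 := by exact_mod_cast hn.ne'
  have hN := h3.near hφ
  have inI : ∀ θ ∈ Icc (φ - Real.pi / 3) (φ + Real.pi / 3),
      θ ∈ Icc (-(Real.pi / 3)) (Real.pi / 3 + η) := fun θ hθ =>
    ⟨by linarith [hθ.1, hφ.1], by linarith [hθ.2, hφ.2]⟩
  have cLL : ContinuousOn (LL (Y i) r) (Icc (φ - Real.pi / 3) (φ + Real.pi / 3)) :=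
    LL_cont dY habs (fun θ hθ => h3.neY θ (inI θ hθ))
  have clog := hN.log_cont dD habs
  have split : ∀ a b : ℂ, a * b = (nn i * a) * (b / nn i) := by
    intro a b; field_simp
  -- arcF
  have eF : ‖arcF (D i) (Y i) r φ - ((φ + Real.pi / 3 : ℝ) - φ) * (-(3 * ε))‖ ≤
      (δ / 16) * ((φ + Real.pi / 3) - φ) := by
    refine arc_est (by linarith) ?_ ?_
    · refine ContinuousOn.mul ?_ (cLL.mono fun θ hθ => mem_arc hθ)
      exact clog.comp (continuous_id.sub continuous_const).continuousOn (fun θ hθ => sub_mem_arc hθ)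
    · intro θ hθ
      have t1 := inI _ (sub_mem_arc hθ)
      have t2 := inI _ (mem_arc hθ)
      rw [split]
      have := prod_est (hA _ t1).1 (hA _ t2).2 (h1 _ t1).2 (h2 _ t2) d1
      have e1 : -(ε * Complex.cosh (ww c (θ - Real.pi / 3))) *
          (-(3 * I) / Complex.sinh (ww c θ)) = -(3 * ε) := by
        rw [cosh_shift]
        have hs : Complex.sinh (ww c θ) ≠ 0 := sinh_ne (by rw [ww_re]; positivity)
        have hI : I * I = -1 := I_mul_I
        field_simp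
        linear_combination ε * hI
      rw [e1] at this
      refine this.trans ?_
      have e3 : A + A + 1 = 2 * A + 1 := by ring
      rw [e3]; exact d2
  have eG : ‖arcG (D i) (Y i) r φ - ((φ + Real.pi / 3 : ℝ) - φ) * (3 * ε)‖ ≤
      (δ / 16) * ((φ + Real.pi / 3) - φ) := by
    refine arc_est (by linarith) ?_ ?_
    · refine ContinuousOn.mul (clog.mono fun θ hθ => mem_arc hθ) ?_
      exact cLL.comp (continuous_id.sub continuous_const).continuousOn (fun θ hθ => sub_mem_arc hθ)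
    · intro θ hθ
      have t1 := inI _ (sub_mem_arc hθ)
      have t2 := inI _ (mem_arc hθ)
      rw [split]
      have := prod_est (hA _ t2).1 (hA _ t1).2 (h1 _ t2).2 (h2 _ t1) d1
      have e1 : -(ε * Complex.cosh (ww c θ)) *
          (-(3 * I) / Complex.sinh (ww c (θ - Real.pi / 3))) = 3 * ε := by
        have hs : Complex.sinh (ww c (θ - Real.pi / 3)) ≠ 0 :=
          sinh_ne (by rw [ww_re]; positivity)
        rw [sinh_shift] at hs ⊢
        have hs' : Complex.cosh (ww c θ) ≠ 0 := right_ne_zero_of_mul hs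
        field_simp
      rw [e1] at this
      refine this.trans ?_
      have e3 : A + A + 1 = 2 * A + 1 := by ring
      rw [e3]; exact d2
  -- the dilogarithms
  have hDs : ∀ θ ∈ Icc (φ - Real.pi / 3) (φ + Real.pi / 3), ‖D i (pt r θ) - 1‖ ≤ δ1 :=
    fun θ hθ => (h1 θ (inI θ hθ)).1
  have m0 : φ ∈ Icc (φ - Real.pi / 3) (φ + Real.pi / 3) := ⟨by linarith, by linarith⟩
  have mp : φ + Real.pi / 3 ∈ Icc (φ - Real.pi / 3) (φ + Real.pi / 3) := ⟨by linarith, by linarith⟩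
  have mm : φ - Real.pi / 3 ∈ Icc (φ - Real.pi / 3) (φ + Real.pi / 3) := ⟨by linarith, by linarith⟩
  have L1 : ‖Li2 (1 - D i (pt r φ))‖ ≤ δ / 8 := by
    refine (hLi ?_).le
    rw [norm_sub_rev]
    have := hDs φ m0
    linarith
  have L2 : ‖Li2 (-Y i (pt r φ))‖ ≤ δ / 8 := by
    refine (hLi ?_).le
    rw [norm_neg]
    have r1 := hS.rel1 _ (pt_mem (θ := φ) habs)
    rw [kap_mul_pt, kap_inv_mul_pt] at r1
    set x := D i (pt r (φ - Real.pi / 3)) - 1 with hx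
    set y := D i (pt r (φ + Real.pi / 3)) - 1 with hy
    have e1 : Y i (pt r φ) = x * y + x + y := by
      rw [hx, hy]; linear_combination -r1
    rw [e1]
    have bx := hDs _ mm
    have byy := hDs _ mp
    calc ‖x * y + x + y‖ ≤ ‖x * y‖ + ‖x‖ + ‖y‖ := norm_add₃_le
      _ ≤ δ1 * 1 + δ1 + δ1 := by
          rw [norm_mul]
          have : ‖x‖ * ‖y‖ ≤ δ1 * 1 := by
            apply mul_le_mul bx (byy.trans d1) (norm_nonneg _) hδ10.le
          linarith
      _ < e := by linarith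
  have e4 : ZZ (D i) (Y i) r φ - 2 * Real.pi * ε =
      -(arcF (D i) (Y i) r φ - ((φ + Real.pi / 3 : ℝ) - φ) * (-(3 * ε))) +
      (arcG (D i) (Y i) r φ - ((φ + Real.pi / 3 : ℝ) - φ) * (3 * ε)) +
      -(2 * Li2 (1 - D i (pt r φ))) + Li2 (-Y i (pt r φ)) := by
    rw [ZZ]; push_cast; ring
  rw [e4]
  have n1 := norm_add₃_le (a := -(arcF (D i) (Y i) r φ - ((φ + Real.pi / 3 : ℝ) - φ) * (-(3 * ε))) +
      (arcG (D i) (Y i) r φ - ((φ + Real.pi / 3 : ℝ) - φ) * (3 * ε)))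
      (b := -(2 * Li2 (1 - D i (pt r φ)))) (c := Li2 (-Y i (pt r φ)))
  refine n1.trans ?_
  have n2 := norm_add_le (-(arcF (D i) (Y i) r φ - ((φ + Real.pi / 3 : ℝ) - φ) * (-(3 * ε))))
      (arcG (D i) (Y i) r φ - ((φ + Real.pi / 3 : ℝ) - φ) * (3 * ε))
  rw [norm_neg] at n2
  have n3 : ‖-(2 * Li2 (1 - D i (pt r φ)))‖ = 2 * ‖Li2 (1 - D i (pt r φ))‖ := by
    rw [norm_neg, norm_mul]; norm_num
  rw [n3]
  have hpi4 := Real.pi_lt_four
  have e5 : (δ / 16) * ((φ + Real.pi / 3) - φ) ≤ δ / 8 := by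
    rw [add_sub_cancel_left]
    nlinarith
  linarith

/-- **quantisation, braid value `-2`** -/
theorem Lim.quant_A [l.NeBot] (L : Lim l D Y nn c η ε) (hc : 0 < c) (hη : 0 < η)
    (S : ∀ᶠ i in l, Sys (D i) (Y i)) (hD0 : ∀ᶠ i in l, D i 0 = -2)
    (hY0 : ∀ᶠ i in l, Y i 0 = 3) : ∃ m : ℤ, ε = 2 * Real.pi * (m + 1 / 3) := by
  have hcont : Continuous E := by unfold E; fun_prop
  have key : E (2 * Real.pi * ε) = E (4 * Real.pi ^ 2 / 3) := by
    by_contra hne
    have hopen : {x | E x ≠ E (4 * Real.pi ^ 2 / 3)} ∈ 𝓝 (2 * Real.pi * ε) :=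
      (isOpen_ne_fun hcont continuous_const).mem_nhds hne
    obtain ⟨δ, hδ, hb⟩ := Metric.mem_nhds_iff.1 hopen
    obtain ⟨i, h1, h2, h3, h4, h5⟩ := ((L.ZZ_tendsto hc hη S (δ / 2) (by positivity)).and
      ((L.outer hc).and (S.and (hD0.and hY0)))).exists
    obtain ⟨φ, hφ, he⟩ := ident_A' h3 h4 h5 (r_pos c) (r_lt hc) hη h2
    have h6 := h1 φ hφ
    exact hb (mem_ball_iff_norm.2 (lt_of_le_of_lt h6 (by linarith))) he
  rw [E, E] at key
  obtain ⟨m, hm⟩ := Complex.exp_eq_exp_iff_exists_int.1 key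
  refine ⟨-m, ?_⟩
  have hpi : (Real.pi : ℂ) ≠ 0 := by exact_mod_cast Real.pi_ne_zero
  have hI := I_mul_I
  have hI0 := I_ne_zero
  field_simp at hm
  have e : ε = 2 * Real.pi / 3 + m * (2 * Real.pi * (I * I)) := by
    have : (3:ℂ) * Real.pi * ε = (3:ℂ) * Real.pi * (2 * Real.pi / 3 + m * (2 * Real.pi * (I * I))) := by
      linear_combination ((Real.pi : ℂ) / 2) * hm
    have h3 : (3:ℂ) * Real.pi ≠ 0 := mul_ne_zero (by norm_num) hpi
    exact mul_left_cancel₀ h3 this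
  rw [e, hI]
  push_cast
  ring

/-- **quantisation, braid value `1`** -/
theorem Lim.quant_B [l.NeBot] (L : Lim l D Y nn c η ε) (hc : 0 < c) (hη : 0 < η)
    (S : ∀ᶠ i in l, Sys (D i) (Y i)) (hD0 : ∀ᶠ i in l, D i 0 = 1)
    (hY0 : ∀ᶠ i in l, Y i 0 = 0) : ∃ m : ℤ, ε = 2 * Real.pi * m := by
  have hcont : Continuous E := by unfold E; fun_prop
  have key : E (2 * Real.pi * ε) = 1 := by
    by_contra hne
    have hopen : {x | E x ≠ 1} ∈ 𝓝 (2 * Real.pi * ε) :=
      (isOpen_ne_fun hcont continuous_const).mem_nhds hne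
    obtain ⟨δ, hδ, hb⟩ := Metric.mem_nhds_iff.1 hopen
    obtain ⟨i, h1, h2, h3, h4, h5⟩ := ((L.ZZ_tendsto hc hη S (δ / 2) (by positivity)).and
      ((L.outer hc).and (S.and (hD0.and hY0)))).exists
    obtain ⟨φ, hφ, he⟩ := ident_B' h3 h4 h5 (r_pos c) (r_lt hc) hη h2
    have h6 := h1 φ hφ
    exact hb (mem_ball_iff_norm.2 (lt_of_le_of_lt h6 (by linarith))) he
  rw [E] at key
  obtain ⟨m, hm⟩ := Complex.exp_eq_one_iff.1 key
  refine ⟨-m, ?_⟩
  have hpi : (Real.pi : ℂ) ≠ 0 := by exact_mod_cast Real.pi_ne_zero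
  have hI := I_mul_I
  have hI0 := I_ne_zero
  field_simp at hm
  have e : ε = m * (2 * Real.pi * (I * I)) := by
    linear_combination hm
  rw [e, hI]
  push_cast
  ring

end

end A4
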