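import Mathlib
import Pool.Agent.Helper40.A4.Quant
import Pool.Agent.Helper78.DR.Adapt

/-!
From `DR.Sol` (joint eigenvalues of the double row matrices) to `A4.Sys`, and the quantisation
theorem in the spectral variable `s`.
-/

open Complex Set MeasureTheory Metric Filter Topology Polynomial

namespace A4

/-- the eigenvalue as a function of `ξ = e^{-2s}` -/
noncomputable def Dx (d : ℂ[X]) (ξ : ℂ) : ℂ :=
  d.eval (1 / 2 - I * ((Real.sqrt 3 / 2 : ℝ) : ℂ) * ((1 - ξ) / (1 + ξ)))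

noncomputable def Yx (d : ℂ[X]) (ξ : ℂ) : ℂ := Dx d (kap * ξ) * Dx d (kap⁻¹ * ξ) - 1

theorem tanh_exp (s : ℂ) :
    Complex.tanh s = (1 - Complex.exp (-(2 * s))) / (1 + Complex.exp (-(2 * s))) := by
  have h1 : Complex.exp (-(2 * s)) = Complex.exp (-s) * Complex.exp (-s) := by
    rw [← Complex.exp_add]; congr 1; ring
  have h2 : Complex.exp s * Complex.exp (-s) = 1 := by
    rw [← Complex.exp_add, add_neg_cancel, Complex.exp_zero]
  rw [Complex.tanh_eq_sinh_div_cosh, Complex.sinh, Complex.cosh, h1]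
  have hne := Complex.exp_ne_zero (-s)
  rw [div_div_div_cancel_right₀ (by norm_num : (2:ℂ) ≠ 0)]
  have e1 : 1 - Complex.exp (-s) * Complex.exp (-s) =
      Complex.exp (-s) * (Complex.exp s - Complex.exp (-s)) := by linear_combination -h2
  have e2 : 1 + Complex.exp (-s) * Complex.exp (-s) =
      Complex.exp (-s) * (Complex.exp s + Complex.exp (-s)) := by linear_combination -h2
  rw [e1, e2, mul_div_mul_left _ _ hne]

theorem dS_eq_Dx (d : ℂ[X]) (s : ℂ) : DR.dS d s = Dx d (Complex.exp (-(2 * s))) := by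
  rw [DR.dS, DR.pp, tanh_exp, Dx]

theorem kap_exp (s : ℂ) : kap * Complex.exp (-(2 * s)) = Complex.exp (-(2 * (s + DR.aa))) := by
  rw [kap, ← Complex.exp_add, DR.aa]
  congr 1; push_cast; ring

theorem kap_inv_exp (s : ℂ) :
    kap⁻¹ * Complex.exp (-(2 * s)) = Complex.exp (-(2 * (s - DR.aa))) := by
  rw [kap, ← Complex.exp_neg, ← Complex.exp_add, DR.aa]
  congr 1; push_cast; ring

theorem yf_eq_Yx (d : ℂ[X]) (s : ℂ) : DR.yf d s = Yx d (Complex.exp (-(2 * s))) := by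
  rw [DR.yf, Yx, kap_exp, kap_inv_exp, ← dS_eq_Dx, ← dS_eq_Dx]
  rfl

theorem one_add_ne {ξ : ℂ} (h : ξ ∈ ball (0:ℂ) 1) : 1 + ξ ≠ 0 := by
  intro h0
  have : ξ = -1 := by linear_combination h0
  rw [this] at h
  simp at h

theorem ratD (d : ℂ[X]) : RatFn (Dx d) := by
  have h1 : RatFn (fun ξ : ℂ => (1 - ξ) / (1 + ξ)) := by
    have := RatFn.div (Q := 1 - X) (W := 1 + X) (fun ξ hξ => by
      simpa using one_add_ne hξ)
    simpa using this
  have h2 : RatFn (fun ξ : ℂ => 1 / 2 - I * ((Real.sqrt 3 / 2 : ℝ) : ℂ) * ((1 - ξ) / (1 + ξ))) :=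
    (RatFn.const _).sub ((RatFn.const _).mul h1)
  exact h2.comp_poly d

theorem ratY (d : ℂ[X]) : RatFn (Yx d) :=
  (((ratD d).rot norm_kap).mul ((ratD d).rot norm_kap_inv)).sub (RatFn.const 1)

theorem Dx_zero (d : ℂ[X]) : Dx d 0 = d.eval (1 / 2 - I * ((Real.sqrt 3 / 2 : ℝ) : ℂ)) := by
  rw [Dx]; simp

theorem braid_pt : (1 / 2 - I * ((Real.sqrt 3 / 2 : ℝ) : ℂ)) ^ 2 -
    (1 / 2 - I * ((Real.sqrt 3 / 2 : ℝ) : ℂ)) + 1 = 0 := by
  have h5 := DR.sqrt3_sq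
  push_cast
  linear_combination (1 / 4 : ℂ) * I ^ 2 * h5 + (3 / 4 : ℂ) * I_sq

variable {n : ℕ} {d : ℂ[X]}

theorem Dx_zero_cases (h : DR.Sol n d) : Dx d 0 = 1 ∨ Dx d 0 = -2 := by
  rw [Dx_zero]; exact h.braid braid_pt

theorem Yx_zero (d : ℂ[X]) : Yx d 0 = Dx d 0 ^ 2 - 1 := by
  rw [Yx, mul_zero, mul_zero]; ring

theorem ball_exp {ξ : ℂ} (h0 : ξ ≠ 0) : ∃ s : ℂ, ξ = Complex.exp (-(2 * s)) := by
  refine ⟨-(Complex.log ξ / 2), ?_⟩
  have : -(2 * -(Complex.log ξ / 2)) = Complex.log ξ := by ring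
  rw [this, Complex.exp_log h0]

theorem cosh_ne_of_ball {s : ℂ} (h : Complex.exp (-(2 * s)) ∈ ball (0:ℂ) 1) :
    Complex.cosh s ≠ 0 := by
  have h1 := one_add_ne h
  intro h0
  apply h1
  rw [Complex.cosh] at h0
  have h2 : Complex.exp (-(2 * s)) = Complex.exp (-s) * Complex.exp (-s) := by
    rw [← Complex.exp_add]; congr 1; ring
  have h3 : Complex.exp s * Complex.exp (-s) = 1 := by
    rw [← Complex.exp_add, add_neg_cancel, Complex.exp_zero]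
  rw [h2]
  linear_combination (2 * Complex.exp (-s)) * h0 - h3

theorem kball {ξ : ℂ} (h : ξ ∈ ball (0:ℂ) 1) : kap * ξ ∈ ball (0:ℂ) 1 := by
  have : ‖ξ‖ < 1 := by simpa using h
  rw [mem_ball_zero_iff, norm_mul, norm_kap, one_mul]; exact this

theorem kball' {ξ : ℂ} (h : ξ ∈ ball (0:ℂ) 1) : kap⁻¹ * ξ ∈ ball (0:ℂ) 1 := by
  have : ‖ξ‖ < 1 := by simpa using h
  rw [mem_ball_zero_iff, norm_mul, norm_kap_inv, one_mul]; exact this

theorem sys_of_sol (h : DR.Sol n d) (hY : ∃ ξ ∈ ball (0:ℂ) 1, Yx d ξ ≠ 0) :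
    Sys (Dx d) (Yx d) := by
  have hD0 : Dx d 0 ≠ 0 := by
    rcases Dx_zero_cases h with h1 | h1 <;> rw [h1] <;> norm_num
  have m0 : (0:ℂ) ∈ ball (0:ℂ) 1 := by simp
  refine ⟨(ratD d).tame ⟨0, m0, hD0⟩, (ratY d).tame hY,
    ((ratD d).rot norm_kap).tame ⟨0, m0, by rw [mul_zero]; exact hD0⟩, ?_, ?_, ?_⟩
  · obtain ⟨ξ, hξ, hne⟩ := hY
    refine ((ratY d).rot norm_kap).tame ⟨kap⁻¹ * ξ, kball' hξ, ?_⟩
    rw [mul_inv_cancel_left₀ kap_ne]; exact hne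
  · intro ξ _
    rw [Yx]; ring
  · intro ξ hξ
    by_cases h0 : ξ = 0
    · rw [h0, mul_zero, mul_zero, Yx_zero]
      rcases Dx_zero_cases h with h1 | h1 <;> rw [h1] <;> norm_num
    · obtain ⟨s, rfl⟩ := ball_exp h0
      have k2 := kball (kball hξ)
      have k2' := kball' (kball' hξ)
      rw [kap_exp, kap_exp] at k2
      rw [kap_inv_exp, kap_inv_exp] at k2'
      have c0 := cosh_ne_of_ball hξ
      have c1 := cosh_ne_of_ball k2
      have c2 := cosh_ne_of_ball k2'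
      have e1 : s + DR.aa + DR.aa = s + 2 * DR.aa := by ring
      have e2 : s - DR.aa - DR.aa = s - 2 * DR.aa := by ring
      rw [e1] at c1
      rw [e2] at c2
      have := h.yy_rel c0 c1 c2
      rw [kap_exp, kap_inv_exp, ← yf_eq_Yx, ← yf_eq_Yx, this, ← dS_eq_Dx]
      rfl

/-! ### the arc in the spectral variable -/

theorem pt_eq_exp (c θ : ℝ) :
    pt (Real.exp (-(2 * c))) θ = Complex.exp (-(2 * ((c:ℂ) - θ / 2 * I))) := by
  rw [pt]
  push_cast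
  rw [← Complex.exp_add]
  congr 1
  ring

theorem LL_eq {c : ℝ} (hc : 0 < c) (θ : ℝ) :
    LL (Yx d) (Real.exp (-(2 * c))) θ =
      -(I / 2) * (deriv (DR.yf d) ((c:ℂ) - θ / 2 * I) / DR.yf d ((c:ℂ) - θ / 2 * I)) := by
  set s : ℂ := (c:ℂ) - θ / 2 * I with hs
  have hm : Complex.exp (-(2 * s)) ∈ ball (0:ℂ) 1 := by
    rw [← pt_eq_exp]
    exact pt_mem (by rw [abs_of_pos (Real.exp_pos _)]; exact r_lt hc)
  have hYd : DifferentiableAt ℂ (Yx d) (Complex.exp (-(2 * s))) := by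
    obtain ⟨Q, W, h1, h2⟩ := ratY d
    have e : Yx d =ᶠ[𝓝 (Complex.exp (-(2 * s)))] fun ξ => Q.eval ξ / W.eval ξ := by
      filter_upwards [isOpen_ball.mem_nhds hm] with ξ hξ
      rw [← h2 ξ hξ, mul_div_cancel_right₀ _ (h1 ξ hξ)]
    exact (DifferentiableAt.div Q.differentiableAt W.differentiableAt (h1 _ hm)).congr_of_eventuallyEq e
  have h1 : HasDerivAt (fun s : ℂ => Complex.exp (-(2 * s)))
      (Complex.exp (-(2 * s)) * (-(2 * 1))) s := ((hasDerivAt_id s).const_mul 2).neg.cexp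
  have h2 := hYd.hasDerivAt.comp s h1
  have e3 : (Yx d ∘ fun s : ℂ => Complex.exp (-(2 * s))) = DR.yf d := by
    funext z
    exact (yf_eq_Yx d z).symm
  rw [e3] at h2
  rw [LL, pt_eq_exp, ← hs, yf_eq_Yx, h2.deriv]
  ring

/-- convergence on the arc in the spectral variable. -/
structure LimS {ι : Type*} (l : Filter ι) (n : ι → ℕ) (d : ι → ℂ[X]) (c : ℝ) (ε : ℂ) : Prop where
  sol : ∀ᶠ i in l, DR.Sol (n i) (d i)
  tend : Tendsto n l atTop
  hD : ∀ δ > 0, ∀ᶠ i in l, ∀ s : ℂ, s.re = c → |s.im| ≤ Real.pi / 4 →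
    ‖(n i : ℂ) * (DR.dS (d i) s - 1) + ε * Complex.cosh (3 * s)‖ ≤ δ
  hY0 : ∀ᶠ i in l, ∀ s : ℂ, s.re = c → |s.im| ≤ Real.pi / 4 → DR.yf (d i) s ≠ 0
  hY : ∀ δ > 0, ∀ᶠ i in l, ∀ s : ℂ, s.re = c → |s.im| ≤ Real.pi / 4 →
    ‖deriv (DR.yf (d i)) s / DR.yf (d i) s / (n i : ℂ) - 6 / Complex.sinh (3 * s)‖ ≤ δ

section

variable {ι : Type*} {l : Filter ι} {n : ι → ℕ} {d : ι → ℂ[X]} {c : ℝ} {ε : ℂ}

theorem arc_pt {θ : ℝ} (hθ : θ ∈ Icc (-(Real.pi / 3)) (Real.pi / 3 + Real.pi / 6)) :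
    ((c:ℂ) - θ / 2 * I).re = c ∧ |((c:ℂ) - θ / 2 * I).im| ≤ Real.pi / 4 := by
  have e : ((c:ℂ) - θ / 2 * I) = ((c:ℝ) : ℂ) + ((-(θ / 2) : ℝ) : ℂ) * I := by push_cast; ring
  have hpi := Real.pi_pos
  rw [e]
  constructor
  · simp
  · have : (((c:ℝ) : ℂ) + ((-(θ / 2) : ℝ) : ℂ) * I).im = -(θ / 2) := by
      simp
    rw [this, abs_le]
    constructor <;> linarith [hθ.1, hθ.2]

theorem LimS.toLim (L : LimS l n d c ε) (hc : 0 < c) :
    Lim l (fun i => Dx (d i)) (fun i => Yx (d i)) (fun i => (n i : ℝ)) c (Real.pi / 6) ε where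
  tend := tendsto_natCast_atTop_atTop.comp L.tend
  hD := by
    intro δ hδ
    filter_upwards [L.hD δ hδ] with i h θ hθ
    have h1 := arc_pt (c := c) hθ
    have := h _ h1.1 h1.2
    rw [dS_eq_Dx, ← pt_eq_exp] at this
    rw [ww]
    push_cast
    exact this
  hY0 := by
    filter_upwards [L.hY0] with i h θ hθ
    have h1 := arc_pt (c := c) hθ
    have := h _ h1.1 h1.2
    rw [yf_eq_Yx, ← pt_eq_exp] at this
    exact this
  hY := by
    intro δ hδ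
    filter_upwards [L.hY δ hδ] with i h θ hθ
    have h1 := arc_pt (c := c) hθ
    have := h _ h1.1 h1.2
    rw [LL_eq hc, ww]
    set q := deriv (DR.yf (d i)) ((c:ℂ) - θ / 2 * I) / DR.yf (d i) ((c:ℂ) - θ / 2 * I) with hq
    have e : -(I / 2) * q / (n i : ℝ) - -(3 * I) / Complex.sinh (3 * ((c:ℂ) - θ / 2 * I)) =
        -(I / 2) * (q / (n i : ℂ) - 6 / Complex.sinh (3 * ((c:ℂ) - θ / 2 * I))) := by
      push_cast; ring
    rw [e, norm_mul]
    have h3 : ‖-(I / 2)‖ = 1 / 2 := by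
      rw [norm_neg, norm_div, norm_I]; norm_num
    rw [h3]
    have h4 := norm_nonneg (q / (n i : ℂ) - 6 / Complex.sinh (3 * ((c:ℂ) - θ / 2 * I)))
    linarith

theorem LimS.sys (L : LimS l n d c ε) (hc : 0 < c) :
    ∀ᶠ i in l, Sys (Dx (d i)) (Yx (d i)) := by
  filter_upwards [L.sol, L.hY0] with i h1 h2
  refine sys_of_sol h1 ⟨Complex.exp (-(2 * (c:ℂ))), ?_, ?_⟩
  · rw [mem_ball_zero_iff, Complex.norm_exp]
    simp
    exact hc
  · rw [← yf_eq_Yx]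
    exact h2 c (by simp) (by simp; positivity)

/-- **quantisation, braid value `-2`**: `ε ∈ 2π (1/3 + ℤ)` -/
theorem LimS.quant_A [l.NeBot] (L : LimS l n d c ε) (hc : 0 < c)
    (hb : ∀ᶠ i in l, Dx (d i) 0 = -2) : ∃ m : ℤ, ε = 2 * Real.pi * (m + 1 / 3) := by
  refine (L.toLim hc).quant_A hc (by positivity) (L.sys hc) hb ?_
  filter_upwards [hb] with i h
  rw [Yx_zero, h]; norm_num

/-- **quantisation, braid value `1`**: `ε ∈ 2π ℤ` -/
theorem LimS.quant_B [l.NeBot] (L : LimS l n d c ε) (hc : 0 < c)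
    (hb : ∀ᶠ i in l, Dx (d i) 0 = 1) : ∃ m : ℤ, ε = 2 * Real.pi * m := by
  refine (L.toLim hc).quant_B hc (by positivity) (L.sys hc) hb ?_
  filter_upwards [hb] with i h
  rw [Yx_zero, h]; norm_num

end

end A4
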